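import Pool.Agent.P.MP_f49e60_an.M.St

/-! The smooth bump restricted to the points of the model. -/

set_option linter.unusedSectionVars false
set_option synthInstance.maxSize 100000

namespace Pool.Agent.P.MP_f49e60_an.Md

open Filter Topology Set Pool.Agent.P.MP_d06606_an

variable [W : World]

namespace BumpM

variable {X : Type} [NormedAddCommGroup X] [NormedSpace ℝ X]

/-- the restriction of a real functional to the points of the model -/
noncomputable def res (D : Submodule FF X) (ξ : X →L[ℝ] ℝ) : D →L[FF] ℝ where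
  toFun h := ξ h
  map_add' a b := by simp
  map_smul' r a := by
    show ξ ((r : ℝ) • (a : X)) = (r : ℝ) • ξ a
    rw [map_smul]
  cont := ξ.continuous.comp continuous_subtype_val

theorem res_apply (D : Submodule FF X) (ξ : X →L[ℝ] ℝ) (h : D) : res D ξ h = ξ h := rfl

omit W in
theorem lim_dir {g : X → ℝ} {ξ : X →L[ℝ] ℝ} {x : X} (hg : HasFDerivAt g ξ x) (h : X) :
    Tendsto (fun n : ℕ => ((n : ℝ) + 1) * (g (x + ((n : ℝ) + 1)⁻¹ • h) - g x)) atTop (𝓝 (ξ h)) := by
  have h1 : Tendsto (fun n : ℕ => ‖(n : ℝ) + 1‖) atTop atTop :=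
    tendsto_norm_atTop_atTop.comp (tendsto_atTop_add_const_right _ 1 tendsto_natCast_atTop_atTop)
  simpa using hg.lim h h1

end BumpM

open BumpM in
theorem bump : S_Bump := by
  intro X _ _ D _ _ G h1 h3 hG
  have hc : ContDiff ℝ 1 (fun x => -1 * Th (G x) + 2) := contDiff_of_LA fun x => by
    obtain ⟨ξ, hξ⟩ := h3 x
    obtain ⟨f', -, hf'⟩ := Th_strict (G x)
    exact ⟨_, (((hξ.comp hf').smul (-1)).add (LA.const 2 x)).mono (by simp)⟩
  have hb : DR (fun x : D => -1 * Th (G x) + 2) := by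
    have := @DR.c1 _ _ _ (fun x : D => G x) hG
    unfold Th psi
    infer_instance
  have h0 : -1 * Th (G 0) + 2 ≠ 0 := by
    rw [Th_of_nonpos (by simpa using (h1 0).2)]
    norm_num
  have hs : ∀ x, 3 < ‖x‖ → -1 * Th (G x) + 2 = 0 := fun x hx => by
    rw [Th_of_ge (by linarith [(h1 x).1])]
    norm_num
  generalize hg : (fun x => -1 * Th (G x) + 2) = g at hc
  have hg' : ∀ x, -1 * Th (G x) + 2 = g x := fun x => congrFun hg x
  simp only [hg'] at hb h0 hs
  rw [contDiff_one_iff_fderiv] at hc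
  obtain ⟨hd, hf⟩ := hc
  refine ⟨fun x => g x, fun x => res D (fderiv ℝ g x), hb, ?_, fun x ε hε => ?_, fun x ε hε => ?_,
    fun h => h0 (congrFun h 0), ?_⟩
  · have := @DR.c1 _ _ _ (fun x : D => g x) hb
    refine DR.lim (fun (p : D × D) (n : ℕ) => ((n : ℝ) + 1) *
      (g (p.1 + ((((n : ℚ) + 1)⁻¹ : ℚ) : FF) • p.2 : D) - g p.1)) fun p => ?_
    have h2 := lim_dir (hd p.1).hasFDerivAt (p.2 : X)
    refine h2.congr fun n => ?_
    have e : ((p.1 + ((((n : ℚ) + 1)⁻¹ : ℚ) : FF) • p.2 : D) : X) =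
        p.1 + ((n : ℝ) + 1)⁻¹ • (p.2 : X) := by
      show (p.1 : X) + ((((n : ℚ) + 1)⁻¹ : ℚ) : ℝ) • (p.2 : X) = _
      push_cast
      rfl
    rw [e]
  · have h2 := (hasFDerivAt_iff_isLittleO_nhds_zero.1 (hd x).hasFDerivAt).def hε
    obtain ⟨δ, h4, h5⟩ := Metric.eventually_nhds_iff.1 h2
    exact ⟨δ, h4, fun h hh => h5 (y := (h : X)) (by simpa using hh)⟩
  · obtain ⟨δ, h4, h5⟩ := Metric.continuous_iff.1 hf x ε hε
    refine ⟨δ, h4, fun y hy h => ?_⟩
    have h6 := h5 y (by rw [dist_eq_norm]; exact hy)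
    rw [dist_eq_norm] at h6
    exact ((fderiv ℝ g y - fderiv ℝ g x).le_opNorm (h : X)).trans
      (mul_le_mul_of_nonneg_right h6.le (norm_nonneg _))
  · refine (Metric.isBounded_closedBall (x := (0 : D)) (r := 3)).subset fun x hx => ?_
    by_contra h4
    exact hx (hs x (by simpa using h4))

end Pool.Agent.P.MP_f49e60_an.Md
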