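import Pool.Agent.P.MP_f49e60_an.M.St

/-! Long families of lists of codes have members approximated by earlier ones. -/

set_option linter.unusedSectionVars false
set_option synthInstance.maxSize 100000

namespace Pool.Agent.P.MP_f49e60_an.Md

open Filter Topology Set Pool.Agent.P.MP_d06606_an

namespace CloseAux

variable {I : Type} [LinearOrder I] [WellFoundedLT I]

theorem sh_getD (k : K0 I) (n : ℕ) :
    (k.map fun e => (e.1, e.2.2)).getD n (0, []) =
      ((k.getD n (0, [], [])).1, (k.getD n (0, [], [])).2.2) :=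
  List.getD_map k (0, [], []) (fun e => (e.1, e.2.2))

theorem kap_eq (s : Sc I) (k k' : K0 I)
    (h : (k.map fun e => (e.1, e.2.2)) = k'.map fun e => (e.1, e.2.2)) (γ : I × ℕ)
    (h2 : ∀ n < k.length, ∀ i < 4 ^ n,
      s.col γ (s.pt ((k.getD n (0, [], [])).2.1.getD i none)) =
        s.col γ (s.pt ((k'.getD n (0, [], [])).2.1.getD i none))) :
    evE (s.kap k) (dl s.col γ) = evE (s.kap k') (dl s.col γ) := by
  have h3 : ∀ n, ((k.getD n (0, [], [])).1, (k.getD n (0, [], [])).2.2) =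
      ((k'.getD n (0, [], [])).1, (k'.getD n (0, [], [])).2.2) := fun n => by
    rw [← sh_getD, ← sh_getD, h]
  have h4 : k.co = k'.co := funext fun n => by
    simp only [K0.co]
    rw [(Prod.ext_iff.1 (h3 n)).1]
  have h5 : (s.kap k).1 = (s.kap k').1 := by
    simp only [Sc.kap]
    rw [h4]
  have h6 : k.length = k'.length := by simpa using congrArg List.length h
  rw [evE_apply, evE_apply, h5]
  refine tsum_congr fun n => ?_
  rw [dl_apply, dl_apply]
  congr 3
  simp only [val, Sc.kap]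
  rcases lt_or_ge n k.length with hn | hn
  · have h7 : (k.getD n (0, [], [])).2.2 = (k'.getD n (0, [], [])).2.2 := (Prod.ext_iff.1 (h3 n)).2
    rw [h7, funext fun i : Fin (4 ^ n) => h2 n hn i i.2]
  · rw [List.getD_eq_default _ _ hn, List.getD_eq_default _ _ (h6 ▸ hn)]

end CloseAux

variable [W : World]

theorem close : S_Close := by
  intro I _ _ _ _ s D _ _ hs hg J hJ hB k hk u hu b hb η hη
  obtain ⟨hD, hg⟩ := hg
  obtain ⟨q, hq0, hq⟩ := exists_rat_btwn (half_pos hη)
  have := @DF.c1 _ _ _ _ _ u hu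
  have := @DF.c1 _ _ _ _ _ k hk
  have := @DF.c1 _ _ _ _ _ (fun l => (⟨lc (Sp.gen s.col) l, hD l⟩ : D)) hg
  have := @DP.c1 _ _ _ (fun β => β ∈ J) hJ
  obtain ⟨μ, hμ, h1⟩ := skolem (fun (β : I) (l : List (ℚ × (I × ℕ))) =>
      ‖u β - (⟨lc (Sp.gen s.col) l, hD l⟩ : D)‖ < (q : ℝ)) fun β => by
    obtain ⟨l, hl⟩ := (Sp.dense_lc s.col).exists_dist_lt (u β : Sp s.col) hq0
    exact ⟨l, by rw [dist_eq_norm] at hl; exact hl⟩
  have := @DF.c1 _ _ _ _ _ μ hμ
  obtain ⟨v, hv⟩ := pigeon (C := List (List (ℚ × List (List Bool)))) hB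
    (fun β v => ((k β).map fun k₀ => k₀.map fun e => (e.1, e.2.2)) = v) fun β _ => ⟨_, rfl⟩
  obtain ⟨α, ⟨hα, hα'⟩, β, ⟨hβ, hβ'⟩, h2, h3, h4⟩ := hs (ℕ × ℕ × ℕ)
    ((List.range v.length).flatMap fun j => (List.range (v.getD j []).length).flatMap fun n =>
      (List.range (4 ^ n)).map fun i => (j, n, i)) _
    (DP.of_iff (fun β => β ∈ J ∧ ((k β).map fun k₀ => k₀.map fun e => (e.1, e.2.2)) = v)
      fun _ => Iff.rfl) hv
    (fun β p => (((k β).getD p.1 []).getD p.2.1 (0, [], [])).2.1.getD p.2.2 none) inferInstance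
    (fun β => (μ β).map fun p => p.2) inferInstance b hb
  refine ⟨α, hα, β, hβ, h2, h3, fun j => ?_⟩
  have h5 : ∀ δ, ((k δ).map fun k₀ => k₀.map fun e => (e.1, e.2.2)) = v →
      (((k δ).getD j []).map fun e => (e.1, e.2.2)) = v.getD j [] := fun δ h => by
    rw [← h]
    exact (List.getD_map (k δ) [] (fun k₀ : K0 I => k₀.map fun e => (e.1, e.2.2))).symm
  have h6 : Sp.ev s.col (s.kap ((k α).getD j [])) (lc (Sp.gen s.col) (μ β)) =
      Sp.ev s.col (s.kap ((k β).getD j [])) (lc (Sp.gen s.col) (μ β)) := by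
    rw [Sp.ev_lc, Sp.ev_lc]
    refine congrArg List.sum (List.map_congr_left fun p hp => ?_)
    refine congrArg _ (CloseAux.kap_eq s _ _ ((h5 α hα').trans (h5 β hβ').symm) _
      fun n hn i hi => ?_)
    have h7 : n < (v.getD j []).length := by
      rw [← h5 α hα', List.length_map]
      exact hn
    have h8 : j < v.length := by
      by_contra h9
      rw [List.getD_eq_default _ _ (not_lt.1 h9)] at h7
      simp at h7
    refine h4 (j, n, i) ?_ p.2 (List.mem_map_of_mem hp)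
    simp only [List.mem_flatMap, List.mem_map, List.mem_range]
    exact ⟨j, h8, n, h7, i, hi, rfl⟩
  have h7 : ∀ κ : KK (TT s.KS), |Sp.ev s.col κ (u β) - Sp.ev s.col κ (lc (Sp.gen s.col) (μ β))| < q :=
    fun κ => by
      rw [← map_sub, Sp.ev_apply]
      exact (evE_le _ _).trans_lt (h1 β)
  have h8 := abs_lt.1 (h7 (s.kap ((k α).getD j [])))
  have h9 := abs_lt.1 (h7 (s.kap ((k β).getD j [])))
  rw [abs_lt]
  constructor <;> linarith [h8.1, h8.2, h9.1, h9.2]

end Pool.Agent.P.MP_f49e60_an.Md
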