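import Pool.Agent.P.MP_3ab3de_lc.Card

/-! Types coded in a transitive model, with definable predicates and functions found by
instance search. -/

set_option linter.unusedSectionVars false
set_option synthInstance.maxSize 100000

namespace Pool.Agent.P.MP_f49e60_an.Md

open ZFSet Pool.Agent.P.MP_3ab3de_lc

/-- the ambient model -/
class World where
  M : Set ZF
  tm : TModel M

variable [W : World]

instance : TModel W.M := W.tm

/-- a type coded by a set of the model -/
class Cd (α : Type) where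
  c : α → ZF
  inj : Function.Injective c
  rng : ZFSet.range c ∈ W.M

open Cd

/-- the set of codes -/
noncomputable def rg (α : Type) [Cd α] : ZF := ZFSet.range (c : α → ZF)

variable {α β γ : Type} [Cd α] [Cd β] [Cd γ]

theorem mem_rg {z : ZF} : z ∈ rg α ↔ ∃ a : α, c a = z := by simp [rg]

theorem c_mem_rg (a : α) : c a ∈ rg α := mem_rg.2 ⟨a, rfl⟩

instance in_rg : In W.M (rg α) := In.mk' Cd.rng

theorem c_mem (a : α) : c a ∈ W.M := tr Cd.rng (c_mem_rg a)

instance in_c (a : α) : In W.M (c a) := In.mk' (c_mem a)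

@[simp] theorem c_inj {a b : α} : c a = c b ↔ a = b := Cd.inj.eq_iff

noncomputable instance cdProd : Cd (α × β) where
  c p := pair (c p.1) (c p.2)
  inj p q h := by
    rw [pair_inj] at h
    exact Prod.ext (Cd.inj h.1) (Cd.inj h.2)
  rng := by
    convert In.mem (M := W.M) (prod (rg α) (rg β)) using 1
    ext z
    simp only [ZFSet.mem_range, mem_prod, mem_rg]
    constructor
    · rintro ⟨p, rfl⟩
      exact ⟨_, ⟨p.1, rfl⟩, _, ⟨p.2, rfl⟩, rfl⟩
    · rintro ⟨_, ⟨a, rfl⟩, _, ⟨b, rfl⟩, rfl⟩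
      exact ⟨(a, b), rfl⟩

theorem c_prod (p : α × β) : c p = pair (c p.1) (c p.2) := rfl

/-- predicates of the model -/
class DP (p : α → Prop) : Prop where
  out : ∃ s ∈ W.M, ∀ a, c a ∈ s ↔ p a

/-- functions of the model -/
class DF (f : α → β) : Prop where
  out : DP (fun x : α × β => f x.1 = x.2)

theorem DP.congr {p q : α → Prop} (h : DP p) (H : ∀ a, q a ↔ p a) : DP q := by
  obtain ⟨s, hs, h⟩ := h
  exact ⟨s, hs, fun a => (h a).trans (H a).symm⟩

/-- a predicate is replaced by an equivalent one that instance search can handle -/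
theorem DP.of_iff {q : α → Prop} (p : α → Prop) [h : DP p] (H : ∀ a, q a ↔ p a) : DP q :=
  h.congr H

theorem DF.congr {f g : α → β} (h : DF f) (H : ∀ a, g a = f a) : DF g := by
  rwa [funext H]

theorem DF.of_eq {g : α → β} (f : α → β) [h : DF f] (H : ∀ a, g a = f a) : DF g := h.congr H

theorem DP.of_df {p : α → Prop} (P : ZF → Prop) (h : Df W.M (fun v => P (v 0)))
    (H : ∀ a, P (c a) ↔ p a) : DP p :=
  ⟨ZFSet.sep P (rg α), sep_mem' P h Cd.rng, fun a => by simp [mem_sep, c_mem_rg, H]⟩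

theorem DP.range_iff {p : α → Prop} :
    DP p ↔ ZFSet.range (fun a : {a // p a} => c a.1) ∈ W.M := by
  constructor
  · rintro ⟨s, hs, h⟩
    have := In.mk' hs
    convert In.mem (M := W.M) (s ∩ rg α) using 1
    ext z
    simp only [ZFSet.mem_range, mem_inter, mem_rg]
    constructor
    · rintro ⟨a, rfl⟩
      exact ⟨(h _).2 a.2, _, rfl⟩
    · rintro ⟨h1, a, rfl⟩
      exact ⟨⟨a, (h _).1 h1⟩, rfl⟩
  · intro h
    refine ⟨_, h, fun a => ?_⟩
    simp only [ZFSet.mem_range, c_inj]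
    exact ⟨fun ⟨b, e⟩ => e ▸ b.2, fun h => ⟨⟨a, h⟩, rfl⟩⟩

theorem DF.range_iff {f : α → β} :
    DF f ↔ ZFSet.range (fun a => pair (c a) (c (f a))) ∈ W.M := by
  have e : ZFSet.range (fun a => pair (c a) (c (f a))) =
      ZFSet.range (fun x : {x : α × β // f x.1 = x.2} => c x.1) := by
    ext z
    simp only [ZFSet.mem_range]
    exact ⟨fun ⟨a, e⟩ => ⟨⟨(a, f a), rfl⟩, e⟩, fun ⟨x, e⟩ => ⟨x.1.1, by rw [x.2]; exact e⟩⟩
  rw [e, ← DP.range_iff]
  exact ⟨fun h => h.out, fun h => ⟨h⟩⟩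

theorem DF.of_tm {f : α → β} (F : ZF → ZF) (h : Tm W.M (fun v => F (v 0)))
    (H : ∀ a, F (c a) = c (f a)) : DF f := by
  have := fun s [Tm W.M s] => h.one s
  exact ⟨DP.of_df (fun z => F (fst z) = snd z) inferInstance fun x => by simp [c_prod, H]⟩

theorem DF.tm (f : α → β) [h : DF f] : ∃ g ∈ W.M, ∀ a, app g (c a) = c (f a) := by
  refine ⟨_, DF.range_iff.1 h, fun a => app_eq (ZFSet.mem_range.2 ⟨a, rfl⟩) fun z hz => ?_⟩
  obtain ⟨b, e⟩ := ZFSet.mem_range.1 hz
  rw [pair_inj, c_inj] at e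
  rw [← e.2, e.1]

theorem exists_fn [Nonempty β] {g : ZF} (hg : g ∈ W.M) :
    ∃ f : α → β, DF f ∧ ∀ a b, app g (c a) = c b → f a = b := by
  classical
  have := In.mk' hg
  let b₀ : β := Classical.arbitrary β
  have h1 : ∀ a : α, ∃ b : β, (if app g (c a) ∈ rg β then app g (c a) else c b₀) = c b := by
    intro a
    split_ifs with h
    · exact (mem_rg.1 h).imp fun _ => Eq.symm
    · exact ⟨b₀, rfl⟩
  choose f hf using h1
  refine ⟨f, DF.of_tm (fun z => if app g z ∈ rg β then app g z else c b₀) inferInstance hf,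
    fun a b h => ?_⟩
  have := hf a
  rw [h, if_pos (c_mem_rg b), c_inj] at this
  exact this.symm

/-- hides a hypothesis from instance search -/
def NI (p : Prop) : Prop := p

/-! ### functions -/

instance (priority := high) DF.id : DF (no_index (fun x : α => x)) := DF.of_tm (fun z => z) inferInstance fun _ => rfl

instance (priority := high) DF.const (b : β) : DF (no_index (fun _ : α => b)) :=
  DF.of_tm (fun _ => c b) inferInstance fun _ => rfl

theorem DF.comp (g : β → γ) [DF g] (f : α → β) [DF f] : DF (fun x => g (f x)) := by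
  obtain ⟨s, hs, h⟩ := DF.tm f
  obtain ⟨t, ht, h'⟩ := DF.tm g
  have := In.mk' hs
  have := In.mk' ht
  exact DF.of_tm (fun z => app t (app s z)) inferInstance fun a => by rw [h, h']

instance (priority := high) DF.pair {f : α → β} {g : α → γ} [DF f] [DF g] : DF (no_index (fun x => (f x, g x))) := by
  obtain ⟨s, hs, h⟩ := DF.tm f
  obtain ⟨t, ht, h'⟩ := DF.tm g
  have := In.mk' hs
  have := In.mk' ht
  exact DF.of_tm (fun z => ZFSet.pair (app s z) (app t z)) inferInstance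
    fun a => by rw [h, h', c_prod]

instance (priority := high) DF.fst {f : α → β × γ} [DF f] : DF (no_index (fun x => (f x).1)) :=
  @DF.comp _ _ _ _ _ _ _ Prod.fst
    (DF.of_tm MP_3ab3de_lc.fst inferInstance fun _ => by simp [c_prod]) f _

instance (priority := high) DF.snd {f : α → β × γ} [DF f] : DF (no_index (fun x => (f x).2)) :=
  @DF.comp _ _ _ _ _ _ _ Prod.snd
    (DF.of_tm MP_3ab3de_lc.snd inferInstance fun _ => by simp [c_prod]) f _

/-! ### predicates -/

theorem DP.comp (p : β → Prop) [h : DP p] (f : α → β) [DF f] : DP (fun x => p (f x)) := by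
  obtain ⟨s, hs, h⟩ := h
  obtain ⟨t, ht, h'⟩ := DF.tm f
  have := In.mk' hs
  have := In.mk' ht
  exact DP.of_df (fun z => app t z ∈ s) inferInstance fun a => by rw [h', h]

instance (priority := high) DP.const (p : Prop) : DP (no_index (fun _ : α => p)) :=
  DP.of_df (fun _ => p) inferInstance fun _ => Iff.rfl

instance DP.eq {f g : α → β} [DF f] [DF g] : DP (no_index (fun x => f x = g x)) := by
  obtain ⟨s, hs, h⟩ := DF.tm f
  obtain ⟨t, ht, h'⟩ := DF.tm g
  have := In.mk' hs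
  have := In.mk' ht
  exact DP.of_df (fun z => app s z = app t z) inferInstance fun a => by rw [h, h', c_inj]

section
variable {p q : α → Prop}

instance DP.not [h : DP p] : DP (no_index (fun x => ¬ p x)) := by
  obtain ⟨s, hs, h⟩ := h
  have := In.mk' hs
  exact DP.of_df (fun z => z ∉ s) inferInstance fun a => by rw [h]

instance DP.imp [h : DP p] [h' : DP q] : DP (no_index (fun x => p x → q x)) := by
  obtain ⟨s, hs, h⟩ := h
  obtain ⟨t, ht, h'⟩ := h'
  have := In.mk' hs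
  have := In.mk' ht
  exact DP.of_df (fun z => z ∈ s → z ∈ t) inferInstance fun a => by rw [h, h']

instance DP.and [DP p] [DP q] : DP (no_index (fun x => p x ∧ q x)) :=
  DP.of_iff (fun x => ¬ (p x → ¬ q x)) fun _ => by tauto

instance DP.or [DP p] [DP q] : DP (no_index (fun x => p x ∨ q x)) :=
  DP.of_iff (fun x => ¬ p x → q x) fun _ => by tauto

instance DP.iff [DP p] [DP q] : DP (no_index (fun x => p x ↔ q x)) :=
  DP.of_iff (fun x => (p x → q x) ∧ (q x → p x)) fun _ => iff_def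

end

instance DP.ne {f g : α → β} [DF f] [DF g] : DP (no_index (fun x => f x ≠ g x)) := DP.not

instance DP.ex {p : α → β → Prop} [h : DP (fun x : α × β => p x.1 x.2)] :
    DP (no_index (fun x => ∃ y, p x y)) := by
  obtain ⟨s, hs, h⟩ := h
  have := In.mk' hs
  refine DP.of_df (fun z => ∃ y ∈ rg β, pair z y ∈ s) inferInstance fun a => ?_
  constructor
  · rintro ⟨_, hy, h1⟩
    obtain ⟨b, rfl⟩ := mem_rg.1 hy
    exact ⟨b, (h (a, b)).1 h1⟩
  · rintro ⟨b, hb⟩
    exact ⟨_, c_mem_rg b, (h (a, b)).2 hb⟩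

instance DP.all {p : α → β → Prop} [DP (fun x : α × β => p x.1 x.2)] :
    DP (no_index (fun x => ∀ y, p x y)) :=
  DP.of_iff (fun x => ¬ ∃ y, ¬ p x y) fun _ => by simp

/-! ### composing with variables: `have := @DF.c1 _ _ _ _ _ f _` and so on -/

theorem DP.c1 (p : β → Prop) [DP p] : ∀ {δ : Type} [Cd δ] (f : δ → β) [DF f],
    DP (fun x => p (f x)) := fun f _ => DP.comp p f

theorem DP.c2 (p : α → β → Prop) [DP (fun x : α × β => p x.1 x.2)] :
    ∀ {δ : Type} [Cd δ] (f : δ → α) (g : δ → β) [DF f] [DF g], DP (fun x => p (f x) (g x)) :=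
  fun f g _ _ => DP.comp (fun x : α × β => p x.1 x.2) (fun x => (f x, g x))

theorem DP.c3 (p : α → β → γ → Prop) [DP (fun x : α × β × γ => p x.1 x.2.1 x.2.2)] :
    ∀ {δ : Type} [Cd δ] (f : δ → α) (g : δ → β) (h : δ → γ) [DF f] [DF g] [DF h],
      DP (fun x => p (f x) (g x) (h x)) :=
  fun f g h _ _ _ => DP.comp (fun x : α × β × γ => p x.1 x.2.1 x.2.2) (fun x => (f x, g x, h x))

theorem DF.c1 (k : β → γ) [DF k] : ∀ {δ : Type} [Cd δ] (f : δ → β) [DF f],
    DF (fun x => k (f x)) := fun f _ => DF.comp k f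

theorem DF.c2 (k : α → β → γ) [DF (fun x : α × β => k x.1 x.2)] :
    ∀ {δ : Type} [Cd δ] (f : δ → α) (g : δ → β) [DF f] [DF g], DF (fun x => k (f x) (g x)) :=
  fun f g _ _ => DF.comp (fun x : α × β => k x.1 x.2) (fun x => (f x, g x))

theorem DF.c3 {ε : Type} [Cd ε] (k : α → β → γ → ε)
    [DF (fun x : α × β × γ => k x.1 x.2.1 x.2.2)] :
    ∀ {δ : Type} [Cd δ] (f : δ → α) (g : δ → β) (h : δ → γ) [DF f] [DF g] [DF h],
      DF (fun x => k (f x) (g x) (h x)) :=
  fun f g h _ _ _ => DF.comp (fun x : α × β × γ => k x.1 x.2.1 x.2.2) (fun x => (f x, g x, h x))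

/-- a function is in the model when its graph is -/
theorem DF.of_graph {f : α → β} (p : α → β → Prop) [h : DP (fun x : α × β => p x.1 x.2)]
    (H : ∀ a b, f a = b ↔ p a b) : DF f := ⟨h.congr fun x => H x.1 x.2⟩

instance DP.exu {p : α → β → Prop} [DP (fun x : α × β => p x.1 x.2)] :
    DP (no_index (fun x => ∃! y, p x y)) := by
  have := @DP.c2 _ _ _ _ _ p _
  exact DP.of_iff (fun x => ∃ y, p x y ∧ ∀ z, p x z → z = y) fun _ => Iff.rfl

instance DF.ite {p : α → Prop} {d : ∀ x, Decidable (p x)} {f g : α → β} [DP p] [DF f] [DF g] :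
    DF (no_index (fun x => @ite _ (p x) (d x) (f x) (g x))) := by
  have := @DP.c1 _ _ _ p _
  have := @DF.c1 _ _ _ _ _ f _
  have := @DF.c1 _ _ _ _ _ g _
  refine DF.of_graph (fun a b => (p a ∧ f a = b) ∨ (¬ p a ∧ g a = b)) fun a b => ?_
  by_cases h : p a <;> simp [h]

theorem DF.of_inj {f : γ → α} (i : α → β) [DF i] (hi : Function.Injective i)
    [h : DF (fun x => i (f x))] : DF f := by
  have := @DF.c1 _ _ _ _ _ i _
  have := @DF.c1 _ _ _ _ _ (fun x => i (f x)) _
  exact DF.of_graph (fun a b => i (f a) = i b) fun a b => hi.eq_iff.symm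

/-- choice -/
theorem skolem (p : α → β → Prop) [h : DP (fun x : α × β => p x.1 x.2)] (H : ∀ a, ∃ b, p a b) :
    ∃ f : α → β, DF f ∧ ∀ a, p a (f a) := by
  obtain ⟨s, hs, h⟩ := h
  have := In.mk' hs
  obtain ⟨g, hg, h1⟩ := MP_3ab3de_lc.skolem (M := W.M) (fun x y => y ∈ rg β ∧ pair x y ∈ s)
    inferInstance (a := rg α) Cd.rng fun x hx => by
      obtain ⟨a, rfl⟩ := mem_rg.1 hx
      obtain ⟨b, hb⟩ := H a
      exact ⟨c b, c_mem b, c_mem_rg b, (h (a, b)).2 hb⟩
  choose f hf using fun a : α => mem_rg.1 (h1 _ (c_mem_rg a)).1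
  have := In.mk' hg
  refine ⟨f, DF.of_tm (app g) inferInstance fun a => (hf a).symm, fun a => (h (a, f a)).1 ?_⟩
  rw [c_prod, hf]
  exact (h1 _ (c_mem_rg a)).2

/-- choice for a partial relation -/
theorem skolem' [Nonempty β] (p : α → β → Prop) [DP (fun x : α × β => p x.1 x.2)] :
    ∃ f : α → β, DF f ∧ ∀ a, (∃ b, p a b) → p a (f a) := by
  have := @DP.c2 _ _ _ _ _ p _
  refine skolem (fun a b => (∃ b, p a b) → p a b) fun a => ?_
  by_cases h : ∃ b, p a b
  · exact h.imp fun _ hb _ => hb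
  · exact ⟨Classical.arbitrary β, fun h' => absurd h' h⟩

/-! ### new coded types -/

/-- coding through an injection -/
@[reducible] noncomputable def Cd.ofInj {δ : Type} (i : δ → β) (hi : Function.Injective i)
    (h : DP (fun b => ∃ a, i a = b)) : Cd δ where
  c a := c (i a)
  inj := Cd.inj.comp hi
  rng := by
    convert DP.range_iff.1 h using 1
    ext z
    simp only [ZFSet.mem_range]
    exact ⟨fun ⟨a, e⟩ => ⟨⟨i a, a, rfl⟩, e⟩, fun ⟨⟨_, a, rfl⟩, e⟩ => ⟨a, e⟩⟩

theorem DF.of_c {i : α → β} (h : ∀ a, c a = c (i a)) : DF i :=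
  DF.of_tm (fun z => z) inferInstance h

noncomputable instance cdSub {p : α → Prop} [h : DP p] : Cd {a // p a} :=
  Cd.ofInj Subtype.val Subtype.val_injective (h.congr fun _ => by simp)

instance DF.val {p : β → Prop} [DP p] {f : α → {b // p b}} [DF f] : DF (no_index (fun x => (f x).1)) :=
  @DF.comp _ _ _ _ _ _ _ Subtype.val (DF.of_c fun _ => rfl) f _

instance DF.subMk {p : β → Prop} [DP p] {f : α → β} {h : ∀ x, p (f x)} [DF f] :
    DF (no_index (fun x => (⟨f x, h x⟩ : {b // p b}))) :=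
  DF.of_inj (fun y => y.1) Subtype.val_injective (h := ‹_›)

/-- the subsets that lie in the model -/
def MSet (α : Type) [Cd α] : Type := {S : Set α // DP (fun a => a ∈ S)}

instance : Membership α (MSet α) := ⟨fun S a => a ∈ S.1⟩

theorem MSet.ext {S T : MSet α} (h : ∀ a, a ∈ S ↔ a ∈ T) : S = T := Subtype.ext (Set.ext h)

/-- the set defined by a predicate -/
def MSet.mk (p : α → Prop) [h : DP p] : MSet α := ⟨{a | p a}, h⟩

@[simp] theorem MSet.mem_mk {p : α → Prop} [DP p] {a : α} : a ∈ MSet.mk p ↔ p a := Iff.rfl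

instance : Nonempty (MSet α) := ⟨MSet.mk fun _ => False⟩

theorem MSet.mem_c (S : MSet α) (a : α) :
    c a ∈ ZFSet.range (fun a : {a // a ∈ S.1} => c a.1) ↔ a ∈ S := by
  simp only [ZFSet.mem_range, c_inj]
  exact ⟨fun ⟨b, e⟩ => e ▸ b.2, fun h => ⟨⟨a, h⟩, rfl⟩⟩

noncomputable instance cdSet : Cd (MSet α) where
  c S := ZFSet.range (fun a : {a // a ∈ S.1} => c a.1)
  inj S T h := MSet.ext fun a => by
    rw [← S.mem_c, ← T.mem_c]
    exact iff_of_eq (congrArg (fun z => c a ∈ z) h)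
  rng := by
    convert In.mem (M := W.M) (pw W.M (rg α)) using 1
    ext z
    simp only [ZFSet.mem_range, mem_pw]
    constructor
    · rintro ⟨S, rfl⟩
      refine ⟨fun y hy => ?_, DP.range_iff.1 S.2⟩
      obtain ⟨a, rfl⟩ := ZFSet.mem_range.1 hy
      exact c_mem_rg _
    · rintro ⟨h1, h2⟩
      refine ⟨⟨{a | c a ∈ z}, z, h2, fun _ => Iff.rfl⟩, ?_⟩
      ext y
      simp only [ZFSet.mem_range]
      refine ⟨fun ⟨a, e⟩ => e ▸ a.2, fun hy => ?_⟩
      obtain ⟨a, rfl⟩ := mem_rg.1 (h1 hy)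
      exact ⟨⟨a, hy⟩, rfl⟩

instance DP.mem {f : α → β} {S : α → MSet β} [DF f] [DF S] : DP (no_index (fun x => f x ∈ S x)) :=
  @DP.c2 _ _ _ _ _ (fun (b : β) (S : MSet β) => b ∈ S)
    (DP.of_df (fun z => MP_3ab3de_lc.fst z ∈ MP_3ab3de_lc.snd z) inferInstance fun x => by
      simp only [c_prod, fst_pair, snd_pair]
      exact x.2.mem_c x.1) _ _ f S _ _

theorem DF.toSet {S : α → MSet β} [h : DP (fun x : α × β => x.2 ∈ S x.1)] : DF S := by
  have := @DP.c2 _ _ _ _ _ (fun a b => b ∈ S a) h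
  exact DF.of_graph (fun a T => ∀ b, b ∈ S a ↔ b ∈ T) fun a T => ⟨fun e _ => e ▸ Iff.rfl, MSet.ext⟩

instance DF.setMk {p : α → β → Prop} {h : ∀ a, DP (p a)} [h' : DP (fun x : α × β => p x.1 x.2)] :
    DF (no_index (fun a => @MSet.mk _ _ _ (fun b => p a b) (h a))) := DF.toSet (h := h')

/-- the functions that lie in the model -/
def MFn (α β : Type) [Cd α] [Cd β] : Type := {f : α → β // DF f}

/-- a function of the model as a point -/
def MFn.mk (f : α → β) [h : DF f] : MFn α β := ⟨f, h⟩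

/-- application -/
def MFn.ap (f : MFn α β) (a : α) : β := f.1 a

@[simp] theorem MFn.ap_mk (f : α → β) [DF f] (a : α) : (MFn.mk f).ap a = f a := rfl

theorem MFn.ext {f g : MFn α β} (h : ∀ a, f.ap a = g.ap a) : f = g := Subtype.ext (funext h)

instance [Nonempty β] : Nonempty (MFn α β) := ⟨MFn.mk fun _ => Classical.arbitrary β⟩

/-- the graph -/
def MFn.gr (f : MFn α β) : MSet (α × β) := ⟨{x | f.1 x.1 = x.2}, f.2.out⟩

theorem MFn.gr_inj : Function.Injective (MFn.gr : MFn α β → _) := fun f g h =>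
  MFn.ext fun a => by
    have : (a, f.1 a) ∈ g.gr := h ▸ (rfl : f.1 a = f.1 a)
    exact Eq.symm this

noncomputable instance cdFn : Cd (MFn α β) :=
  Cd.ofInj MFn.gr MFn.gr_inj (DP.of_iff (fun S => ∀ a, ∃! b, (a, b) ∈ S) fun S => by
    constructor
    · rintro ⟨f, rfl⟩ a
      exact ⟨f.1 a, rfl, fun b hb => Eq.symm hb⟩
    · intro h
      choose f hf hf' using h
      have h1 : ∀ a b, f a = b ↔ (a, b) ∈ S := fun a b =>
        ⟨fun e => e ▸ hf a, fun h => (hf' a b h).symm⟩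
      exact ⟨⟨f, DF.of_graph (fun a b => (a, b) ∈ S) h1⟩, MSet.ext fun x => h1 x.1 x.2⟩)

instance DF.ap {f : α → MFn β γ} {g : α → β} [DF f] [DF g] : DF (no_index (fun x => (f x).ap (g x))) := by
  have : DF (MFn.gr : MFn β γ → _) := DF.of_c fun _ => rfl
  have := @DF.c1 _ _ _ _ _ (MFn.gr : MFn β γ → _) _
  have := @DF.c1 _ _ _ _ _ f _
  have := @DF.c1 _ _ _ _ _ g _
  exact DF.of_graph (fun a b => (g a, b) ∈ (f a).gr) fun _ _ => Iff.rfl

theorem DF.toFn {f : α → MFn β γ} [h : DF (fun x : α × β => (f x.1).ap x.2)] : DF f := by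
  have := @DF.c2 _ _ _ _ _ _ _ (fun a b => (f a).ap b) h
  exact DF.of_graph (fun a g => ∀ b, (f a).ap b = g.ap b) fun a T =>
    ⟨fun e _ => e ▸ rfl, MFn.ext⟩

instance DF.fnMk {f : α → β → γ} {h : ∀ a, DF (f a)} [h' : DF (fun x : α × β => f x.1 x.2)] :
    DF (no_index (fun a => @MFn.mk _ _ _ _ _ (fun b => f a b) (h a))) := DF.toFn (h := h')

/-- recursion along a well-founded relation -/
theorem rec_fun [Nonempty β] (r : α → α → Prop) (hr : WellFounded r)
    [DP (fun x : α × α => r x.1 x.2)] (Φ : MFn α β → α → β)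
    [DF (fun x : MFn α β × α => Φ x.1 x.2)]
    (loc : ∀ f g a, (∀ b, r b a → f.ap b = g.ap b) → Φ f a = Φ g a) :
    ∃ f : MFn α β, ∀ a, f.ap a = Φ f a := by
  classical
  have := @DP.c2 _ _ _ _ _ r _
  have := @DF.c2 _ _ _ _ _ _ _ Φ _
  let A : MSet α → MFn α β → Prop := fun D g =>
    (∀ b ∈ D, ∀ b', r b' b → b' ∈ D) ∧ ∀ b ∈ D, g.ap b = Φ g b
  have : DP (fun x : MSet α × MFn α β => A x.1 x.2) := by unfold A; infer_instance
  have := @DP.c2 _ _ _ _ _ A _
  have uniq : ∀ D g D' g', A D g → A D' g' → ∀ a, a ∈ D → a ∈ D' → g.ap a = g'.ap a := by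
    intro D g D' g' h h' a
    induction a using hr.induction with
    | _ a ih =>
      intro h1 h2
      rw [h.2 a h1, h'.2 a h2]
      exact loc _ _ _ fun b hb => ih b hb (h.1 a h1 b hb) (h'.1 a h2 b hb)
  obtain ⟨f, hf, h1⟩ := skolem' (fun (a : α) (y : β) => ∃ D g, A D g ∧ a ∈ D ∧ g.ap a = y)
  have h2 : ∀ D g, A D g → ∀ a ∈ D, f a = g.ap a := by
    intro D g h a ha
    obtain ⟨D', g', h3, h4, h5⟩ := h1 a ⟨_, D, g, h, ha, rfl⟩
    rw [← h5]
    exact uniq _ _ _ _ h3 h a h4 ha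
  let D₀ : MSet α := MSet.mk fun a => ∃ D g, A D g ∧ a ∈ D
  have h3 : A D₀ (MFn.mk f) := by
    constructor
    · rintro b ⟨D, g, h, hb⟩ b' hb'
      exact ⟨D, g, h, h.1 b hb b' hb'⟩
    · rintro b ⟨D, g, h, hb⟩
      rw [MFn.ap_mk, h2 D g h b hb, h.2 b hb]
      exact loc _ _ _ fun b' hb' => (h2 D g h b' (h.1 b hb b' hb')).symm
  refine ⟨MFn.mk f, fun a => h3.2 a ?_⟩
  induction a using hr.induction with
  | _ a ih =>
    by_contra ha
    have h4 : ∀ b, b = a ∨ b ∈ D₀ → ∀ b', r b' b → b' ∈ D₀ := by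
      rintro b (rfl | hb) b' hb'
      exacts [ih b' hb', h3.1 b hb b' hb']
    refine ha ⟨MSet.mk fun b => b = a ∨ b ∈ D₀,
      MFn.mk fun b => if b = a then Φ (MFn.mk f) a else f b, ⟨fun b hb b' hb' =>
        Or.inr (h4 b hb b' hb'), fun b hb => ?_⟩, Or.inl rfl⟩
    have h5 : Φ (MFn.mk f) b = Φ (MFn.mk fun b => if b = a then Φ (MFn.mk f) a else f b) b :=
      loc _ _ _ fun b' hb' => by
        have : b' ≠ a := fun e => ha (e ▸ h4 b hb b' hb')
        simp [this]
    rw [← h5, MFn.ap_mk]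
    split_ifs with h
    · rw [h]
    · exact h3.2 b (hb.resolve_left h)

end Pool.Agent.P.MP_f49e60_an.Md
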