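import Pool.Agent.P.MP_f49e60_an.M.St

/-! Norming functionals of seminorms are controlled by finitely many codes. -/

set_option linter.unusedSectionVars false

namespace Pool.Agent.P.MP_f49e60_an.Md

open Filter Topology Set Pool.Agent.P.MP_d06606_an

variable [W : World]

namespace CtrlP

variable {X : Type} [NormedAddCommGroup X] [NormedSpace ℝ X] {D : Submodule FF X} [Cd D] [MSp D]

/-- a bounded seminorm on the dense subspace extends to a real seminorm -/
theorem exists_ext (N : Seminorm FF D) (b : ℝ) (hb : ∀ x, N x ≤ b * ‖x‖) :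
    ∃ N' : Seminorm ℝ X, (∀ x : D, N' x = N x) ∧ ∀ x, N' x ≤ b * ‖x‖ := by
  classical
  let f : X → ℝ := fun x => if h : x ∈ D then N ⟨x, h⟩ else 0
  have hf : LipschitzOnWith (Real.toNNReal b) f (D : Set X) := by
    refine LipschitzOnWith.of_dist_le_mul fun x hx y hy => ?_
    have hx' : x ∈ D := hx
    have hy' : y ∈ D := hy
    simp only [f, dif_pos hx', dif_pos hy']
    rw [Real.dist_eq, dist_eq_norm]
    refine (abs_sub_map_le_sub N _ _).trans ((hb _).trans ?_)
    exact mul_le_mul_of_nonneg_right (Real.le_coe_toNNReal b) (norm_nonneg _)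
  obtain ⟨g, hg, hfg⟩ := hf.extend_real
  have hc : Continuous g := hg.continuous
  have h1 : ∀ x : D, g x = N x := fun x => by
    rw [← hfg x.2]
    exact dif_pos x.2
  have hd : DenseRange (fun x : D => (x : X)) := MSp.denseRange
  refine ⟨Seminorm.of g (fun x y => ?_) (fun a x => ?_), h1, fun x => ?_⟩
  · refine hd.induction_on₂ (p := fun x y => g (x + y) ≤ g x + g y)
      (isClosed_le (by fun_prop) (by fun_prop)) (fun x y => ?_) x y
    rw [← Submodule.coe_add, h1, h1, h1]
    exact map_add_le_add N x y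
  · refine (dense_FF.prodMap hd).induction_on (p := fun z : ℝ × X => g (z.1 • z.2) = ‖z.1‖ * g z.2)
      (a, x) (isClosed_eq (by fun_prop) (by fun_prop)) ?_
    rintro ⟨r, y⟩
    change g ((r • y : D) : X) = ‖r‖ * g y
    rw [h1, h1]
    exact map_smul_eq_mul N r y
  · refine hd.induction_on (p := fun x => g x ≤ b * ‖x‖) x
      (isClosed_le (by fun_prop) (by fun_prop)) fun y => ?_
    rw [h1]
    exact hb y

end CtrlP

open CtrlP in
theorem ctrl : S_Ctrl := by
  intro X _ _ D _ _ K _ _ _ ev K₀ _ κ h N b hb u hu ε hε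
  classical
  obtain ⟨N', h1, h2⟩ := exists_ext N b hb
  obtain ⟨g, hg1, hg2⟩ := exists_norming N' h2 (u := (u : X)) ((h1 u).trans hu)
  obtain ⟨F, η, hη, hF⟩ := exists_control h.cont h.le h.frag h.norming g hε
  choose c hc using fun k => h.dense k (η / 2) (half_pos hη)
  obtain ⟨η', h3, h4⟩ := exists_rat_btwn (half_pos hη)
  refine ⟨F.toList.map c, η', by exact_mod_cast h3, fun s t y hs ht hy hl => ?_⟩
  have hy' : ‖(y : X)‖ ≤ 1 := hy
  have h5 : g y < ε := hF y hy' fun k hk => by
    have a1 := hl (c k) (List.mem_map_of_mem (Finset.mem_toList.2 hk))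
    have a2 := hc k y
    have a3 : η / 2 * ‖(y : X)‖ ≤ η / 2 := mul_le_of_le_one_right (half_pos hη).le hy'
    have a4 := abs_sub_abs_le_abs_sub (ev k y) (ev (κ (c k)) y)
    linarith
  have h6 := hg2 ((s • u - t • y : D) : X)
  rw [h1] at h6
  refine le_trans ?_ h6
  have ht' : (0 : ℝ) ≤ t := ht
  change _ ≤ g ((s : ℝ) • (u : X) - (t : ℝ) • (y : X))
  rw [map_sub, map_smul, map_smul, hg1, smul_eq_mul, smul_eq_mul, mul_one]
  have := mul_le_mul_of_nonneg_left h5.le ht'
  linarith

end Pool.Agent.P.MP_f49e60_an.Md
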