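import Pool.Agent.P.MP_9a7e1f_lc.Defs

/-! Real numbers as sets. -/

namespace Pool.Agent.P.MP_f49e60_an.Md

open ZFSet Pool.Agent.P.MP_9a7e1f_lc

/-- The Dedekind cut of the real number `r` as a set: the triples `(a, b, c)` of numerals with
`(a - b) / (c + 1) < r`. -/
noncomputable def cut (r : ℝ) : ZFSet.{0} :=
  ZFSet.range fun t : {t : ℕ × ℕ × ℕ // ((t.1 : ℝ) - t.2.1) / (t.2.2 + 1) < r} =>
    pair (nm t.1.1) (pair (nm t.1.2.1) (nm t.1.2.2))

end Pool.Agent.P.MP_f49e60_an.Md
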