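import Pool.Agent.P.MP_f49e60_an.M.St

/-! The fixed point of the smoothing operator lies in the model. -/

set_option linter.unusedSectionVars false
set_option synthInstance.maxSize 100000

namespace Pool.Agent.P.MP_f49e60_an.Md

open Filter Topology Set Pool.Agent.P.MP_d06606_an

namespace Fix

/-- positive rationals -/
abbrev PQ : Type := {q : ℚ // 0 < q}

/-- a positive rational as a positive real -/
def io (q : PQ) : Pos := ⟨(q.1 : ℝ), by exact_mod_cast q.2⟩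

/-- the precision of the children -/
def chq (q : PQ) (m : ℕ) : PQ := ⟨q.1 / ((m : ℚ) + 1) / 40, by have := q.2; positivity⟩

theorem ch_io (q : PQ) (m : ℕ) : ch (io q) m = io (chq q m) :=
  Subtype.ext (by simp [ch, io, chq, MP_d06606_an.dl])

section ext
variable {X : Type} [NormedAddCommGroup X] [NormedSpace ℝ X] {s : Sys X}

theorem contr {f g : s.N × Pos × X → ℝ} (hf : f ∈ s.F) (hg : g ∈ s.F) {ρ : ℝ} (hρ : 0 ≤ ρ)
    (h : ∀ p, |f p - g p| ≤ ρ * p.2.1.1) (p : s.N × Pos × X) :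
    |s.T f p - s.T g p| ≤ ρ / 2 * p.2.1.1 := by
  obtain ⟨n, η, x⟩ := p
  obtain ⟨γ₀⟩ := Sys.ne n
  have h1 := sm_le_sm (v := fun γ => s.V f n η γ x) (s.W_pos n η) γ₀ (Sys.V_le' hg n η x)
    (r := ρ / 2 * η.1) (fun γ => by linarith [(abs_le.1 (Sys.V_sub hρ h n η γ x)).2])
  have h2 := sm_le_sm (v := fun γ => s.V g n η γ x) (s.W_pos n η) γ₀ (Sys.V_le' hf n η x)
    (r := ρ / 2 * η.1) (fun γ => by linarith [(abs_le.1 (Sys.V_sub hρ h n η γ x)).1])
  simp only [Sys.T]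
  rw [abs_le]
  constructor <;> linarith

theorem sig_mem : (fun p : s.N × Pos × X => s.σ p.1 p.2.2) ∈ s.F := by
  intro n η
  refine ⟨fun x => ⟨by linarith [η.2], le_rfl⟩, fun y z => (s.lip n y z).trans ?_⟩
  nlinarith [mul_nonneg (s.d0 n) (norm_nonneg (y - z))]

theorem iter_close {f : s.N × Pos × X → ℝ} (hf : f ∈ s.F) (hT : s.T f = f) (k : ℕ) :
    s.T^[k] (fun p => s.σ p.1 p.2.2) ∈ s.F ∧
      ∀ p, |s.T^[k] (fun p => s.σ p.1 p.2.2) p - f p| ≤ (1 / 2) ^ k * p.2.1.1 := by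
  induction k with
  | zero =>
    refine ⟨sig_mem, fun ⟨n, η, x⟩ => ?_⟩
    have h1 := (hf n η).1 x
    simp only [Function.iterate_zero, id, pow_zero, one_mul]
    rw [abs_le]
    constructor <;> linarith [h1.1, h1.2, η.2]
  | succ k ih =>
    rw [Function.iterate_succ_apply']
    refine ⟨Sys.T_mem ih.1, fun p => ?_⟩
    have := contr ih.1 hf (by positivity) ih.2 p
    rw [hT] at this
    rw [pow_succ]
    convert this using 2
    ring

theorem iter_tendsto {f : s.N × Pos × X → ℝ} (hf : f ∈ s.F) (hT : s.T f = f)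
    (p : s.N × Pos × X) :
    Tendsto (fun k => s.T^[k] (fun p => s.σ p.1 p.2.2) p) atTop (𝓝 (f p)) := by
  rw [tendsto_iff_norm_sub_tendsto_zero]
  have a : Tendsto (fun n : ℕ => (1 / 2 : ℝ) ^ n * p.2.1.1) atTop (𝓝 0) := by
    simpa using (tendsto_pow_atTop_nhds_zero_of_lt_one (r := (1 / 2 : ℝ)) (by norm_num)
      (by norm_num)).mul_const p.2.1.1
  exact squeeze_zero (fun _ => norm_nonneg _) (fun k => (iter_close hf hT k).2 p) a

theorem fix_LA {f : s.N × Pos × X → ℝ} (hf : f ∈ s.F) (hT : s.T f = f) (n : s.N) (η : Pos)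
    (x : X) : ∃ ξ, LA (fun y => f (n, η, y)) ξ x 0 := by
  have key : ∀ k : ℕ, ∀ n η x, ∃ ξ, LA (fun y => f (n, η, y)) ξ x (2 * s.d n * (1 / 2) ^ k) := by
    intro k
    induction k with
    | zero => exact fun n η x => ⟨s.b n, by simpa using LA.of_lip (hf n η).2 x⟩
    | succ k ih =>
      intro n η x
      obtain ⟨t, ht⟩ := Sys.local_eq hf n η x
      rw [hT] at ht
      obtain ⟨ξ, hξ⟩ := LA_implicit (s.W_pos n η) t (G := fun y => f (n, η, y) + η.1 / 10)
        ((LA.of_lip (hf n η).2 x).add (LA.const (η.1 / 10) x))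
        (fun γ _ => Sys.V_LA (by positivity) ih n η γ x) ht
      refine ⟨_, ((hξ.add (LA.const (-(η.1 / 10)) x)).congr
        (Eventually.of_forall fun y => by simp)).mono (le_of_eq ?_)⟩
      rw [pow_succ]; ring
  exact LA.limit (by linarith [s.d0 n]) fun k => key k n η x

end ext

theorem smSet_iff {Γ Γ' : Type*} (e : Γ' ≃ Γ) (w v : Γ → ℝ) (t : ℝ) :
    t ∈ smSet w v ↔ ∀ l : List Γ', l.Nodup →
      (l.map fun γ => psi ((v (e γ) - t) / w (e γ))).sum ≤ 1 := by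
  classical
  constructor
  · intro h l hl
    have := h (l.toFinset.map e.toEmbedding)
    rw [Finset.sum_map, List.sum_toFinset _ hl] at this
    exact this
  · intro h u
    have := h (u.map e.symm.toEmbedding).toList (Finset.nodup_toList _)
    rw [Finset.sum_map_toList, Finset.sum_map] at this
    simpa using this

variable [W : World]

instance drPsi {α : Type} [Cd α] {f : α → ℝ} [DR f] : DR (no_index (fun x => psi (f x))) :=
  DR.of_eq (fun x => (max (f x) 0) ^ 2) fun _ => rfl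

instance drTh {α : Type} [Cd α] {f : α → ℝ} [DR f] : DR (no_index (fun x => Th (f x))) :=
  DR.of_eq (fun x => psi (f x) - 2 * psi (f x - 1) + psi (f x - 2)) fun _ => rfl

instance dfChq {α : Type} [Cd α] {f : α → PQ} {g : α → ℕ} [DF f] [DF g] :
    DF (no_index (fun x => chq (f x) (g x))) := by
  unfold chq
  infer_instance

instance drDl {α : Type} [Cd α] {f : α → PQ} {g : α → ℕ} [DF f] [DF g] :
    DR (no_index (fun x => MP_d06606_an.dl (io (f x)) (g x))) :=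
  DR.of_eq (fun x => (((f x).1 : ℚ) : ℝ) / ((g x : ℝ) + 1)) fun _ => rfl

variable {X : Type} [NormedAddCommGroup X] [NormedSpace ℝ X] {D : Submodule FF X}
  (s : Sys X) {O : Type} (e : ∀ n, O ≃ s.I n)

/-- the pieces -/
noncomputable def V' (g : s.N × PQ × D → ℝ) (p : s.N × PQ × D) (γ : O × ℕ) : ℝ :=
  g (s.S p.1 (e p.1 γ.1), chq p.2.1 γ.2, p.2.2) + MP_d06606_an.dl (io p.2.1) γ.2 / 20 *
    Th ((MP_d06606_an.dl (io p.2.1) γ.2)⁻¹ * (g (s.S p.1 (e p.1 γ.1), chq p.2.1 γ.2, p.2.2) -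
      g (s.E p.1 (e p.1 γ.1), chq p.2.1 γ.2, p.2.2) + s.a p.1 (e p.1 γ.1)) - 1)

/-- the admissible levels -/
def S' (g : s.N × PQ × D → ℝ) (p : s.N × PQ × D) : Set ℝ :=
  {t | ∀ l : List (O × ℕ), l.Nodup → (l.map fun γ =>
    psi ((V' s e g p γ - t) / (MP_d06606_an.dl (io p.2.1) γ.2 / 40))).sum ≤ 1}

/-- the operator -/
noncomputable def T' (g : s.N × PQ × D → ℝ) (p : s.N × PQ × D) : ℝ :=
  sInf (S' s e g p) - ((p.2.1.1 : ℚ) : ℝ) / 10

theorem S'_up (g : s.N × PQ × D → ℝ) (p : s.N × PQ × D) (t t' : ℝ) (h : t ∈ S' s e g p)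
    (ht : t ≤ t') : t' ∈ S' s e g p := fun l hl =>
  (List.sum_le_sum fun γ _ => psi_mono (div_le_div_of_nonneg_right (by linarith)
    (by have := dl_pos (io p.2.1) γ.2; positivity))).trans (h l hl)

theorem T'_eq (f : s.N × Pos × X → ℝ) (p : s.N × PQ × D) :
    T' s e (fun p => f (p.1, io p.2.1, (p.2.2 : X))) p = s.T f (p.1, io p.2.1, (p.2.2 : X)) := by
  have : S' s e (fun p => f (p.1, io p.2.1, (p.2.2 : X))) p =
      smSet (s.W p.1 (io p.2.1)) (fun γ => s.V f p.1 (io p.2.1) γ p.2.2) := by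
    ext t
    rw [smSet_iff ((e p.1).prodCongr (Equiv.refl ℕ))]
    simp only [S', V', Sys.V, Sys.W, mem_ofPred_eq, Equiv.prodCongr_apply, Prod.map_fst,
      Prod.map_snd, Equiv.coe_refl, id, ch_io]
  simp only [T', this, Sys.T, sm]
  rfl

variable [Cd D] [Cd s.N] [Cd O]

theorem dr_T' (h : DSys D s O e) :
    DR (fun y : MFn (s.N × PQ × D) FF × (s.N × PQ × D) =>
      T' s e (fun p => (y.1.ap p : ℝ)) y.2) := by
  have := @DF.c2 _ _ _ _ _ _ _ (fun n (o : O) => s.S n (e n o)) h.1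
  have := @DF.c2 _ _ _ _ _ _ _ (fun n (o : O) => s.E n (e n o)) h.2.1
  have := @DR.c2 _ _ _ _ _ (fun n (o : O) => s.a n (e n o)) h.2.2.1
  have h1 : DR (fun y : MFn (s.N × PQ × D) FF × (s.N × PQ × D) × (O × ℕ) =>
      V' s e (fun p => (y.1.ap p : ℝ)) y.2.1 y.2.2) := by
    unfold V'
    infer_instance
  have := @DR.c3 _ _ _ _ _ _ _ (fun (g : MFn (s.N × PQ × D) FF) (p : s.N × PQ × D) (γ : O × ℕ) =>
    V' s e (fun p => (g.ap p : ℝ)) p γ) h1
  have h2 : DP (fun x : (MFn (s.N × PQ × D) FF × (s.N × PQ × D)) × ℚ =>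
      (x.2 : ℝ) ∈ S' s e (fun p => (x.1.1.ap p : ℝ)) x.1.2) := by
    simp only [S', mem_ofPred_eq]
    infer_instance
  have h3 := DR.sInf (fun y : MFn (s.N × PQ × D) FF × (s.N × PQ × D) =>
    S' s e (fun p => (y.1.ap p : ℝ)) y.2) (fun a => S'_up s e _ _)
  unfold T'
  infer_instance

end Fix

open Md.Fix in
theorem fix [W : World] : S_Fix := by
  intro X _ _ D _ s _ O _ e n₀ h
  obtain ⟨f, hf, hT⟩ := s.exists_fix
  refine ⟨fun y => f (n₀, io ⟨1, one_pos⟩, y), fun x => ?_, fix_LA hf hT _ _, ?_⟩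
  · simpa [io] using (hf n₀ (io ⟨1, one_pos⟩)).1 x
  have h1 := dr_T' s e h
  have m1 := @DR.mem _ _ _ _ h1
  have c1 := @DR.c2 _ _ _ _ _ (fun (g : MFn (s.N × PQ × D) FF) (p : s.N × PQ × D) =>
    T' s e (fun p => (g.ap p : ℝ)) p) h1
  have c2 := @DR.c2 _ _ _ _ _ (fun n (x : D) => s.σ n x) h.2.2.2
  have h2 : DR (fun p : s.N × PQ × D => s.σ p.1 p.2.2) := inferInstance
  let z : MFn (s.N × PQ × D) FF := MFn.mk fun p => ⟨s.σ p.1 p.2.2, @DR.mem _ _ _ _ h2 p⟩
  let st : MFn (s.N × PQ × D) FF → MFn (s.N × PQ × D) FF := fun g =>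
    MFn.mk fun p => ⟨T' s e (fun p => (g.ap p : ℝ)) p, m1 (g, p)⟩
  have h3 : DF st := DF.toFn (h := DF.of_eq
    (fun y => (⟨T' s e (fun p => (y.1.ap p : ℝ)) y.2, m1 y⟩ : FF)) fun _ => rfl)
  have c3 := @DF.c1 _ _ _ _ _ st h3
  have h4 := DF.natRec (fun (_ : ℕ) k => st^[k] z) (fun _ => z) (fun _ _ g => st g)
    (fun _ => rfl) fun _ k => Function.iterate_succ_apply' st k z
  have c4 := @DF.c2 _ _ _ _ _ _ _ (fun (_ : ℕ) (k : ℕ) => st^[k] z) h4
  have h5 : ∀ k p, ((st^[k] z).ap p : ℝ) =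
      s.T^[k] (fun p => s.σ p.1 p.2.2) (p.1, io p.2.1, (p.2.2 : X)) := by
    intro k
    induction k with
    | zero => exact fun p => rfl
    | succ k ih =>
      intro p
      rw [Function.iterate_succ_apply', Function.iterate_succ_apply', ← T'_eq s e, ← funext ih]
      rfl
  have h6 : DF (fun x : D × ℕ => st^[x.2] z) := c4 (fun _ : D × ℕ => 0) (fun x => x.2)
  have h7 : DR (fun x : D × ℕ => ((st^[x.2] z).ap (n₀, ⟨1, one_pos⟩, x.1) : ℝ)) := inferInstance
  exact DR.lim (fun (x : D) k => ((st^[k] z).ap (n₀, ⟨1, one_pos⟩, x) : ℝ)) fun x => by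
    simp only [h5]
    exact iter_tendsto hf hT _

end Pool.Agent.P.MP_f49e60_an.Md
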