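import Pool.Agent.P.MP_f49e60_an.M.St

/-! Hereditary separability of the powers, in the model. -/

set_option linter.unusedSectionVars false
set_option synthInstance.maxSize 100000

namespace Pool.Agent.P.MP_f49e60_an.Md

open Filter Topology Set Pool.Agent.P.MP_d06606_an

variable [W : World]

namespace HSMAux

variable {I : Type} [LinearOrder I] [Cd I] [Om I]

theorem step (J : Set I) (hJ : DP (fun β => β ∈ J)) (hB : ¬ Bd J) (t : I → Option I)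
    (ht : DF t) : ∃ J' ⊆ J, NI (DP (fun β => β ∈ J')) ∧ ¬ Bd J' ∧
      ((∀ β ∈ J', ∀ β' ∈ J', t β = t β') ∨
        ((∀ β ∈ J', t β ≠ none) ∧ ∀ δ, Bd {β | β ∈ J' ∧ (t β).getD β ≤ δ})) := by
  have := @DF.c1 _ _ _ _ _ t ht
  have := @DP.c1 _ _ _ (fun β => β ∈ J) hJ
  by_cases h : ∃ o, ¬ Bd {β | β ∈ J ∧ t β = o}
  · obtain ⟨o, h⟩ := h
    exact ⟨_, fun _ h => h.1, DP.of_iff (fun β => β ∈ J ∧ t β = o) fun _ => Iff.rfl, h,
      Or.inl fun β hβ β' hβ' => hβ.2.trans hβ'.2.symm⟩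
  · push Not at h
    refine ⟨{β | β ∈ J ∧ t β ≠ none}, fun _ h => h.1,
      DP.of_iff (fun β => β ∈ J ∧ t β ≠ none) fun _ => Iff.rfl,
      fun h6 => hB ((h6.union (h none)).mono fun β hβ => ?_),
      Or.inr ⟨fun β hβ => hβ.2, fun δ => ?_⟩⟩
    · by_cases h7 : t β = none
      · exact Or.inr ⟨hβ, h7⟩
      · exact Or.inl ⟨hβ, h7⟩
    · refine (Bd.biUnion_le δ (fun y β => β ∈ J ∧ t β = some y) fun y _ => h (some y)).mono
        fun β hβ => ?_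
      obtain ⟨y, hy⟩ := Option.ne_none_iff_exists'.1 hβ.1.2
      have h8 := hβ.2
      rw [hy] at h8
      exact ⟨y, h8, hβ.1.1, hy⟩

theorem thin {ι : Type} [Cd ι] (L : List ι) (J : Set I) (hJ : DP (fun β => β ∈ J)) (hB : ¬ Bd J)
    (t : I → ι → Option I) (ht : DF (fun p : I × ι => t p.1 p.2)) :
    ∃ J' ⊆ J, NI (DP (fun β => β ∈ J')) ∧ ¬ Bd J' ∧ ∀ i ∈ L,
      (∀ β ∈ J', ∀ β' ∈ J', t β i = t β' i) ∨
        ((∀ β ∈ J', t β i ≠ none) ∧ ∀ δ, Bd {β | β ∈ J' ∧ (t β i).getD β ≤ δ}) := by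
  have := @DF.c2 _ _ _ _ _ _ _ t ht
  induction L with
  | nil => exact ⟨J, subset_rfl, hJ, hB, by simp⟩
  | cons i u ih =>
    obtain ⟨J', h1, hJ', h2, h3⟩ := ih
    obtain ⟨J'', h5, hJ'', h6, h7⟩ := step J' hJ' h2 (fun β => t β i) inferInstance
    refine ⟨J'', h5.trans h1, hJ'', h6, fun j hj => ?_⟩
    rcases List.mem_cons.1 hj with rfl | hj
    · exact h7
    · rcases h3 j hj with h8 | ⟨h8, h9⟩
      · exact Or.inl fun β hβ β' hβ' => h8 β (h5 hβ) β' (h5 hβ')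
      · exact Or.inr ⟨fun β hβ => h8 β (h5 hβ), fun δ =>
          (h9 δ).mono fun β hβ => And.intro (h5 hβ.1) hβ.2⟩

end HSMAux

theorem hsm : S_HS := by
  classical
  intro I _ _ _ _ s hm hk ι _ _ L J hJ hB t ht S hS b hb
  obtain ⟨J', h1, hJ', h2, h3⟩ := HSMAux.thin L J hJ hB t ht
  have hJ'' : DP (fun β => β ∈ J') := hJ'
  have := @DF.c2 _ _ _ _ _ _ _ t ht
  have := @DF.c1 _ _ _ _ _ S hS
  have := @DP.c1 _ _ _ (fun β => β ∈ J') hJ''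
  have := @DP.c3 _ _ _ _ _ _ _ s.Mem hm
  obtain ⟨L', hL'⟩ : ∃ L' : List ι, ∀ i, i ∈ L' ↔
      i ∈ L ∧ ¬ ∀ β ∈ J', ∀ β' ∈ J', t β i = t β' i :=
    ⟨L.filter fun i => ¬ ∀ β ∈ J', ∀ β' ∈ J', t β i = t β' i, fun i => by
      rw [List.mem_filter, decide_eq_true_iff]⟩
  have h4 := fun i (hi : i ∈ L') => (h3 i ((hL' i).1 hi).1).resolve_left ((hL' i).1 hi).2
  obtain ⟨m, h5⟩ := pigeon (C := ℕ) h2 (fun β m => ∀ i ∈ L', ∀ γ ∈ S β, ∀ y,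
      s.Mem y ((t β i).getD β) m → (s.Mem y γ.1 γ.2 ↔ s.Mem ((t β i).getD β) γ.1 γ.2))
    fun β _ => by
      obtain ⟨m, hm⟩ := ((eventually_all_finset L'.toFinset).2 fun i _ =>
        Sc.row_nhd (s := s) ((t β i).getD β) (S β).toFinset).exists
      refine ⟨m, fun i hi γ hγ y hy => ?_⟩
      rw [← Sc.row_true, ← Sc.row_true,
        hm i (List.mem_toFinset.2 hi) γ (List.mem_toFinset.2 hγ) y hy]
  obtain ⟨α, a1, β, b1, h6, h7, h8⟩ := hk ι L' _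
    (DP.of_iff (fun β => β ∈ J' ∧ ∀ i ∈ L', ∀ γ ∈ S β, ∀ y,
      s.Mem y ((t β i).getD β) m → (s.Mem y γ.1 γ.2 ↔ s.Mem ((t β i).getD β) γ.1 γ.2))
      fun _ => Iff.rfl) h5 (fun β i => (t β i).getD β) inferInstance
    (fun i hi δ => ((h4 i hi).2 δ).mono fun β hβ => And.intro hβ.1.1 hβ.2) b hb m
  refine ⟨α, h1 a1.1, β, h1 b1.1, h6, h7, fun i hi γ hγ => ?_⟩
  by_cases h : ∀ β ∈ J', ∀ β' ∈ J', t β i = t β' i
  · rw [h α a1.1 β b1.1]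
  · have hi' := (hL' i).2 ⟨hi, h⟩
    have h9 := b1.2 i hi' γ hγ _ (h8 i hi')
    obtain ⟨x, hx⟩ := Option.ne_none_iff_exists'.1 ((h4 i hi').1 α a1.1)
    obtain ⟨y, hy⟩ := Option.ne_none_iff_exists'.1 ((h4 i hi').1 β b1.1)
    rw [hx, hy] at h9
    rw [hx, hy, Sc.col_pt, Sc.col_pt]
    exact Bool.eq_iff_iff.2 (Sc.row_true.trans (h9.trans Sc.row_true.symm))

end Pool.Agent.P.MP_f49e60_an.Md
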