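import Pool.Agent.P.MP_f49e60_an.M.St

/-! The coded points of the norming space are norm dense. -/

namespace Pool.Agent.P.MP_f49e60_an.Md

open Filter Topology Set Finset

namespace Kap

theorem rat_near (a : ℝ) {δ : ℝ} (hδ : 0 < δ) : ∃ q : ℚ, (q : ℝ) ^ 2 ≤ a ^ 2 ∧ (a - q) ^ 2 ≤ δ ^ 2 := by
  rcases lt_trichotomy a 0 with h | h | h
  · obtain ⟨q, h1, h2⟩ := exists_rat_btwn (show a < min 0 (a + δ) from lt_min h (by linarith))
    obtain ⟨h3, h4⟩ := lt_min_iff.1 h2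
    exact ⟨q, by nlinarith, by nlinarith⟩
  · exact ⟨0, by simp [h], by simpa [h] using sq_nonneg δ⟩
  · obtain ⟨q, h1, h2⟩ := exists_rat_btwn (show max 0 (a - δ) < a from max_lt h (by linarith))
    obtain ⟨h3, h4⟩ := max_lt_iff.1 h1
    exact ⟨q, by nlinarith, by nlinarith⟩

variable {T : ℕ → Type} [∀ n, TopologicalSpace (T n)] [∀ n, CompactSpace (T n)]

theorem approx (k : KK T) {ε : ℝ} (hε : 0 < ε) :
    ∃ (N : ℕ) (q : ℕ → ℚ), (∀ n, (q n : ℝ) ^ 2 ≤ k.1.1 n ^ 2) ∧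
      ∀ k' : KK T, (∀ n < N, k'.1.1 n = q n) → (∀ n, N ≤ n → k'.1.1 n = 0) →
        (∀ n < N, k'.2 n = k.2 n) → ∀ x : EE T, |evE k x - evE k' x| ≤ ε * ‖x‖ := by
  set e := ε / 2 with he
  have he0 : 0 < e := by positivity
  let S : Set ℝ := {r | ∃ N, r = ∑ n ∈ range N, k.1.1 n ^ 2}
  have hS : BddAbove S := ⟨1, by rintro _ ⟨N, rfl⟩; exact k.1.2 N⟩
  have hS' : S.Nonempty := ⟨_, 0, rfl⟩
  obtain ⟨_, ⟨N, rfl⟩, h1⟩ := exists_lt_of_lt_csSup hS'
    (show sSup S - e ^ 2 < sSup S by nlinarith)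
  have hN : (0 : ℝ) < N + 1 := by positivity
  choose q hq hq' using fun n => rat_near (k.1.1 n) (div_pos he0 hN)
  refine ⟨N, q, hq, fun k' h2 h3 h4 x => ?_⟩
  have hx : ∀ M, ∑ n ∈ range M, ‖x (n + N)‖ ^ 2 ≤ ‖x‖ ^ 2 := fun M => by
    rw [sum_shift (fun n => ‖x n‖ ^ 2)]
    have c1 : 0 ≤ ∑ n ∈ range N, ‖x n‖ ^ 2 := sum_nonneg fun _ _ => sq_nonneg _
    linarith [x.sum_le (range (N + M))]
  have b1 := evE_tail k x N he0.le (norm_nonneg x) (fun M => by
    rw [sum_shift (fun n => k.1.1 n ^ 2)]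
    have c1 : ∑ n ∈ range (N + M), k.1.1 n ^ 2 ≤ sSup S := le_csSup hS ⟨_, rfl⟩
    linarith) hx
  have b1' := evE_tail k' x N le_rfl (norm_nonneg x) (fun M => by
    rw [sum_eq_zero fun n _ => by rw [h3 _ (Nat.le_add_left N n)]; ring]
    exact sq_nonneg _) hx
  have c1 : ∑ n ∈ range N, (k.1.1 n - q n) ^ 2 ≤ e ^ 2 := by
    refine (sum_le_sum fun n _ => hq' n).trans ?_
    rw [sum_const, card_range, nsmul_eq_mul, div_pow, ← mul_div_assoc, div_le_iff₀ (by positivity)]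
    have c2 : (0 : ℝ) ≤ N := Nat.cast_nonneg N
    have c3 : (N : ℝ) ≤ (N + 1) ^ 2 := by nlinarith
    nlinarith [mul_le_mul_of_nonneg_left c3 (sq_nonneg e)]
  have b2 : |∑ n ∈ range N, (k.1.1 n - q n) * x n (k.2 n)| ≤ e * ‖x‖ := by
    refine abs_le_of_sq_le_sq' ?_ (by positivity) |> abs_le.2
    calc _ ≤ _ := sum_mul_sq_le_sq_mul_sq _ _ _
      _ ≤ e ^ 2 * ‖x‖ ^ 2 := mul_le_mul c1
          ((sum_le_sum fun n _ => x.sq_le n _).trans (x.sum_le _))
          (sum_nonneg fun _ _ => sq_nonneg _) (sq_nonneg _)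
      _ = (e * ‖x‖) ^ 2 := by ring
  have b3 : ∑ n ∈ range N, k.1.1 n * x n (k.2 n) =
      ∑ n ∈ range N, (k.1.1 n - q n) * x n (k.2 n) +
        ∑ n ∈ range N, k'.1.1 n * x n (k'.2 n) := by
    rw [← sum_add_distrib]
    refine sum_congr rfl fun n hn => ?_
    rw [h2 n (mem_range.1 hn), h4 n (mem_range.1 hn)]
    ring
  have b4 : ε * ‖x‖ = 2 * e * ‖x‖ := by rw [he]; ring
  rw [b3, abs_le] at b1
  rw [zero_mul, abs_le] at b1'
  rw [abs_le] at b2 ⊢
  constructor <;> linarith [b1.1, b1.2, b2.1, b2.2, b1'.1, b1'.2]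

theorem getD_ofFn {α : Type} {N : ℕ} (f : Fin N → α) (d : α) (i : Fin N) :
    (List.ofFn f).getD i d = f i := by
  rw [List.getD_eq_getElem _ _ (by simp)]
  simp

theorem getD_ofFn' {α : Type} {N : ℕ} (f : Fin N → α) (d : α) {n : ℕ} (h : N ≤ n) :
    (List.ofFn f).getD n d = d :=
  List.getD_eq_default _ _ (by simpa using h)

end Kap

theorem kap_dense : S_Kap := by
  intro I _ _ s k ε hε
  obtain ⟨N, q, h1, h2⟩ := Kap.approx k hε
  choose o ho using fun (n : ℕ) (i : Fin (4 ^ n)) => s.pt_surj ((k.2 n).1 i)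
  let F : ℕ → ℚ × List (Option I) × List (List Bool) := fun n =>
    (q n, List.ofFn (o n), (Finset.univ.filter fun p => (k.2 n).2 p = true).toList.map List.ofFn)
  let k₀ : K0 I := List.ofFn fun n : Fin N => F n
  have g1 : ∀ n < N, k₀.getD n (0, [], []) = F n := fun n hn =>
    Kap.getD_ofFn (fun n : Fin N => F n) _ ⟨n, hn⟩
  have g2 : ∀ n, N ≤ n → k₀.getD n (0, [], []) = (0, [], []) := fun n hn =>
    Kap.getD_ofFn' _ _ hn
  have c1 : ∀ n < N, k₀.co n = q n := fun n hn => by rw [K0.co, g1 n hn]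
  have c2 : ∀ n, N ≤ n → k₀.co n = 0 := fun n hn => by rw [K0.co, g2 n hn]; simp
  have c3 : k₀.co ∈ BL := fun M => by
    refine le_trans (sum_le_sum fun n _ => ?_) (k.1.2 M)
    rcases lt_or_ge n N with h | h
    · rw [c1 n h]
      exact h1 n
    · rw [c2 n h]
      simpa using sq_nonneg (k.1.1 n)
  have c4 : (s.kap k₀).1.1 = k₀.co := by
    simp only [Sc.kap, dif_pos c3]
  refine ⟨k₀, h2 _ (fun n hn => by rw [c4, c1 n hn]) (fun n hn => by rw [c4, c2 n hn])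
    fun n hn => ?_⟩
  simp only [Sc.kap, g1 n hn, F]
  refine Prod.ext (funext fun i => ?_) (funext fun p => ?_)
  · simp only [Kap.getD_ofFn]
    exact ho n i
  · have c5 : List.ofFn p ∈ (Finset.univ.filter fun p => (k.2 n).2 p = true).toList.map List.ofFn ↔
        (k.2 n).2 p = true := by
      rw [List.mem_map_of_injective List.ofFn_injective]
      simp
    cases h : (k.2 n).2 p
    · exact decide_eq_false (by rw [c5, h]; simp)
    · exact decide_eq_true (c5.2 h)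

end Pool.Agent.P.MP_f49e60_an.Md
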