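import Pool.Agent.P.MP_f49e60_an.M.St

/-! The neighbourhoods lie in the model, and the combinatorial core holds in the model. -/

set_option linter.unusedSectionVars false
set_option synthInstance.maxSize 100000

namespace Pool.Agent.P.MP_f49e60_an.Md

open Filter Topology Set Pool.Agent.P.MP_d06606_an

namespace KeyAux

/-- the external part of the argument -/
theorem core {I : Type} [LinearOrder I] (s : Sc I) {ι : Type} [Fintype ι] (J : Set I)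
    (x : I → ι → I) (m : ℕ) (δ : I) (P : I → Prop)
    (h2 : ∀ β ∈ J, ∀ β' ∈ J, ∀ i, (∀ α, α < δ → s.e (x β i) α = s.e (x β' i) α) ∧
      ∀ j < m, s.f (x β i) j = s.f (x β' i) j)
    (hδ : ∀ β ∈ J, ∀ i, δ < x β i) (k₀ : ℕ) (hk₀ : ∀ r, ∃ β ∈ J, ∀ i, r ≤ s.f (x β i) k₀)
    (ha : ∀ β ∈ J, ∀ k, ∃ a, P a ∧ (∀ i, x a i < δ) ∧
      ∀ i, ∀ j < k, s.f (x a i) j = s.f (x β i) j) :
    ∃ a, P a ∧ ∃ β ∈ J, ∀ i, s.Mem (x a i) (x β i) m := by
  classical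
  choose b hb hb' using hk₀
  let U := hyperfilter ℕ
  have h3 : ∀ i, ∃ k, Tendsto (fun r => s.f (x (b r) i) k) U atTop := fun i =>
    ⟨k₀, (tendsto_atTop_mono (fun r => hb' r i) tendsto_id).mono_left Nat.hyperfilter_le_atTop⟩
  have h4 : ∀ i j, j < Nat.find (h3 i) → ∃ v, ∀ᶠ r in U, s.f (x (b r) i) j = v := by
    intro i j hj
    have h5 := Nat.find_min (h3 i) hj
    rw [tendsto_atTop] at h5
    push Not at h5
    obtain ⟨R, hR⟩ := h5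
    have h6 : ∀ᶠ r in U, ∃ v ∈ Iio R, s.f (x (b r) i) j = v :=
      hR.mono fun r hr => ⟨_, hr, rfl⟩
    obtain ⟨v, -, hv⟩ := (Ultrafilter.eventually_exists_mem_iff (finite_Iio R)).1 h6
    exact ⟨v, hv⟩
  choose! v hv using h4
  have h5 : ∀ᶠ r in U, ∀ i, ∀ j ∈ Iio (Nat.find (h3 i)), s.f (x (b r) i) j = v i j :=
    eventually_all.2 fun i => (eventually_all_finite (finite_Iio _)).2 fun j hj => hv i j hj
  obtain ⟨r₀, hr₀⟩ := h5.exists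
  obtain ⟨a, h6, c1, h7⟩ := ha (b r₀) (hb r₀) (m + ∑ i, Nat.find (h3 i))
  have h8 : ∀ᶠ r in U, ∀ i, s.e (x (b r₀) i) (x a i) ≤ s.f (x (b r) i) (Nat.find (h3 i)) :=
    eventually_all.2 fun i => (Nat.find_spec (h3 i)).eventually (eventually_ge_atTop _)
  obtain ⟨r, h9, h10⟩ := (h5.and h8).exists
  refine ⟨a, h6, b r, hb r, fun i => ?_⟩
  have c2 : x a i < x (b r) i := (c1 i).trans (hδ _ (hb r) i)
  obtain ⟨k, c3, c4⟩ := Sc.split (s := s) c2.ne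
  have c5 : Nat.find (h3 i) ≤ ∑ i, Nat.find (h3 i) :=
    Finset.single_le_sum (f := fun i => Nat.find (h3 i)) (fun _ _ => Nat.zero_le _)
      (Finset.mem_univ i)
  have c6 : m ≤ k := by
    by_contra h
    exact c4 ((h7 i k (by omega)).trans ((h2 _ (hb r₀) _ (hb r) i).2 k (by omega)))
  have c7 : Nat.find (h3 i) ≤ k := by
    by_contra h
    exact c4 ((h7 i k (by omega)).trans
      ((hr₀ i k (not_le.1 h)).trans (h9 i k (not_le.1 h)).symm))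
  refine Sc.Mem.step ⟨c2, c3, c4, ?_⟩ c6 (Sc.Mem.top _ _)
  rw [← (h2 _ (hb r₀) _ (hb r) i).1 _ (c1 i)]
  exact (h10 i).trans (s.mono _ c7)

theorem pat_iff {ι : Type} (L : List ι) (F G : ι → ℕ → ℕ) (k : ℕ) :
    (L.map fun i => (List.range k).map fun j => F i j) =
      (L.map fun i => (List.range k).map fun j => G i j) ↔ ∀ i ∈ L, ∀ j < k, F i j = G i j := by
  simp only [List.map_inj_left, List.mem_range]

variable [W : World] {I : Type} [LinearOrder I] [Cd I] [Om I]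

theorem bd_list {ι : Type} (L : List ι) (S : ι → Set I) (h : ∀ i ∈ L, Bd (S i)) :
    Bd {β | ∃ i ∈ L, β ∈ S i} := by
  induction L with
  | nil => exact bd_empty.mono (by simp)
  | cons i u ih =>
    refine ((h i (List.mem_cons_self ..)).union
      (ih fun j hj => h j (List.mem_cons_of_mem _ hj))).mono ?_
    rintro β ⟨j, hj, h1⟩
    rcases List.mem_cons.1 hj with rfl | hj
    · exact Or.inl h1
    · exact Or.inr ⟨j, hj, h1⟩

theorem big {ι : Type} (L : List ι) {J J' : Set I} (x : I → ι → I)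
    (hx : ∀ i ∈ L, ∀ δ, Bd {β | β ∈ J ∧ x β i ≤ δ}) (h1 : ¬ Bd J') (h2 : J' ⊆ J) (d : I) :
    ¬ Bd {β | β ∈ J' ∧ d < β ∧ ∀ i ∈ L, d < x β i} := by
  intro h3
  refine h1 (((h3.union (bd_Iic d)).union
    (bd_list L (fun i => {β | β ∈ J ∧ x β i ≤ d}) fun i hi => hx i hi d)).mono fun β hβ => ?_)
  by_cases h4 : d < β
  · by_cases h5 : ∀ i ∈ L, d < x β i
    · exact Or.inl (Or.inl ⟨hβ, h4, h5⟩)
    · push Not at h5
      obtain ⟨i, hi, h5⟩ := h5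
      exact Or.inr ⟨i, hi, h2 hβ, h5⟩
  · exact Or.inl (Or.inr (not_lt.1 h4))

end KeyAux

variable [W : World]

theorem dmem : S_Mem := by
  intro I _ _ _ _ s hs
  have := @DF.c2 _ _ _ _ _ _ _ s.f hs.df
  have := @DF.c2 _ _ _ _ _ _ _ s.e hs.de
  obtain ⟨S, hS⟩ := rec_set (α := I × I × ℕ) (fun x y => x.2.1 < y.2.1)
    (InvImage.wf (fun x : I × I × ℕ => x.2.1) wellFounded_lt)
    (fun S y => y.1 = y.2.1 ∨ ∃ α k, (α < y.2.1 ∧ (∀ j < k, s.f α j = s.f y.2.1 j) ∧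
      s.f α k ≠ s.f y.2.1 k ∧ s.e y.2.1 α ≤ s.f y.2.1 k) ∧ y.2.2 ≤ k ∧ (y.1, α, k + 1) ∈ S)
    fun S T y h => or_congr_right (exists_congr fun α => exists_congr fun k =>
      and_congr_right fun h1 => and_congr_right fun _ => h _ h1.1)
  have h : ∀ β t n, s.Mem t β n ↔ (t, β, n) ∈ S := by
    intro β
    induction β using WellFoundedLT.induction with
    | ind β ih =>
      intro t n
      rw [hS, Sc.mem_iff]
      exact or_congr_right (exists_congr fun α => exists_congr fun k =>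
        and_congr_right fun h1 => and_congr_right fun _ => ih α h1.1 t (k + 1))
  exact DP.of_iff (fun x : I × I × ℕ => x ∈ S) fun x => h x.2.1 x.1 x.2.2

theorem key : S_Key := by
  intro I _ _ _ hI s hs ι _ _ L J hJ hB x hxd hx b hb m
  classical
  have := @DF.c2 _ _ _ _ _ _ _ s.f hs.df
  have := @DF.c2 _ _ _ _ _ _ _ s.e hs.de
  have := @DF.c2 _ _ _ _ _ _ _ x hxd
  have := @DF.c1 _ _ _ _ _ b hb
  have := @DP.c1 _ _ _ (fun β => β ∈ J) hJ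
  have := hI.ne
  obtain ⟨en, hen, hen'⟩ := hI.en
  have := @DF.c2 _ _ _ _ _ _ _ en hen
  obtain ⟨a, had, ha⟩ := skolem' (fun (p : ℕ × List (List ℕ)) (a : I) => a ∈ J ∧
    (L.map fun i => (List.range p.1).map fun j => s.f (x a i) j) = p.2)
  have := @DF.c1 _ _ _ _ _ a had
  obtain ⟨δ₁, hδ₁⟩ := Ct.bdd (fun p : ℕ × List (List ℕ) => max (a p) (b (a p)))
  obtain ⟨δ₂, hδ₂⟩ := Ct.bdd (fun q : (ℕ × List (List ℕ)) × ι => x (a q.1) q.2)
  obtain ⟨δ, hd₁, hd₂⟩ : ∃ δ, δ₁ ≤ δ ∧ δ₂ ≤ δ := ⟨_, le_max_left _ _, le_max_right _ _⟩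
  have hJ₁ : DP (fun β => β ∈ {β | β ∈ J ∧ δ < β ∧ ∀ i ∈ L, δ < x β i}) :=
    DP.of_iff (fun β => β ∈ J ∧ δ < β ∧ ∀ i ∈ L, δ < x β i) fun _ => Iff.rfl
  obtain ⟨v, hJ₂⟩ := pigeon (KeyAux.big L x hx hB subset_rfl δ)
    (fun β (v : ℕ × List (List ℕ) × List (List ℕ)) =>
      (∀ i ∈ L, ∀ α, α < δ → (∀ n < v.1, en δ n ≠ α) → s.e (x β i) α = s.e δ α) ∧
      (L.map fun i => (List.range v.1).map fun n => s.e (x β i) (en δ n)) = v.2.1 ∧
      (L.map fun i => (List.range m).map fun j => s.f (x β i) j) = v.2.2) fun β hβ => by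
    have h1 : {α | ∃ i ∈ L, α < δ ∧ s.e δ α ≠ s.e (x β i) α}.Finite :=
      ((List.finite_toSet L).biUnion fun i hi => s.coh _ _ (hβ.2.2 i hi)).subset
        fun α ⟨i, hi, h⟩ => mem_biUnion (show i ∈ {i | i ∈ L} from hi) h
    have h2 : ∀ᶠ N in atTop, ∀ α ∈ {α | ∃ i ∈ L, α < δ ∧ s.e δ α ≠ s.e (x β i) α},
        ∃ n < N, en δ n = α := by
      rw [eventually_all_finite h1]
      rintro α ⟨i, -, h, -⟩
      obtain ⟨n, hn⟩ := (hen' δ α h).2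
      exact (eventually_gt_atTop n).mono fun N hN => ⟨n, hN, hn⟩
    obtain ⟨N, hN⟩ := h2.exists
    refine ⟨(N, L.map fun i => (List.range N).map fun n => s.e (x β i) (en δ n),
      L.map fun i => (List.range m).map fun j => s.f (x β i) j),
      fun i hi α hα h => ?_, rfl, rfl⟩
    by_contra h3
    obtain ⟨n, h4, h5⟩ := hN α ⟨i, hi, hα, fun h4 => h3 h4.symm⟩
    exact h n h4 h5
  obtain ⟨J₂, hJ₂d, hJ₂b, hJ₂J, h2⟩ : ∃ J₂ : Set I, NI (DP (fun β => β ∈ J₂)) ∧ ¬ Bd J₂ ∧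
      (∀ β ∈ J₂, β ∈ J ∧ δ < β ∧ ∀ i ∈ L, δ < x β i) ∧
      ∀ β ∈ J₂, ∀ β' ∈ J₂, ∀ i ∈ L, (∀ α, α < δ → s.e (x β i) α = s.e (x β' i) α) ∧
        ∀ j < m, s.f (x β i) j = s.f (x β' i) j := by
    refine ⟨_, DP.of_iff (fun β => (β ∈ J ∧ δ < β ∧ ∀ i ∈ L, δ < x β i) ∧
      (∀ i ∈ L, ∀ α, α < δ → (∀ n < v.1, en δ n ≠ α) → s.e (x β i) α = s.e δ α) ∧
      (L.map fun i => (List.range v.1).map fun n => s.e (x β i) (en δ n)) = v.2.1 ∧
      (L.map fun i => (List.range m).map fun j => s.f (x β i) j) = v.2.2) fun _ => Iff.rfl,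
      hJ₂, fun β hβ => hβ.1, fun β hβ β' hβ' i hi => ⟨fun α hα => ?_,
        (KeyAux.pat_iff L _ _ m).1 (hβ.2.2.2.trans hβ'.2.2.2.symm) i hi⟩⟩
    by_cases h : ∀ n < v.1, en δ n ≠ α
    · exact (hβ.2.1 i hi α hα h).trans (hβ'.2.1 i hi α hα h).symm
    · push Not at h
      obtain ⟨n, hn, rfl⟩ := h
      exact (KeyAux.pat_iff L (fun i n => s.e (x β i) (en δ n)) (fun i n => s.e (x β' i) (en δ n))
        v.1).1 (hβ.2.2.1.trans hβ'.2.2.1.symm) i hi n hn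
  have := @DP.c1 _ _ _ (fun β => β ∈ J₂) hJ₂d
  obtain ⟨k₀, hk₀⟩ : ∃ k₀, ∀ r, ∃ β ∈ J₂, ∀ i ∈ L, r ≤ s.f (x β i) k₀ := by
    by_contra h
    push Not at h
    obtain ⟨g, hgd, hg⟩ := skolem (fun (k r : ℕ) => ∀ β, β ∈ J₂ → ∃ i, i ∈ L ∧ s.f (x β i) k < r) h
    obtain ⟨α₀, h3⟩ := hs.unb g hgd
    obtain ⟨β, ⟨h4, -, h5⟩, -⟩ := exists_gt_of_not_bd
      (KeyAux.big L x hx hJ₂b (fun β hβ => (hJ₂J β hβ).1) α₀) α₀
    obtain ⟨k, h6, h7⟩ := (h3.and_eventually ((eventually_all_finite (List.finite_toSet L)).2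
      fun i hi => s.lt _ _ (h5 i hi))).exists
    obtain ⟨i, hi, h8⟩ := hg k β h4
    linarith [h7 i hi]
  obtain ⟨α, ⟨h3, h4, h5⟩, β, h6, h7⟩ := KeyAux.core s (ι := {i // i ∈ L}) J₂
    (fun β i => x β i.1) m δ (fun α => α ∈ J ∧ α < δ ∧ b α < δ)
    (fun β hβ β' hβ' i => h2 β hβ β' hβ' i.1 i.2) (fun β hβ i => (hJ₂J β hβ).2.2 i.1 i.2) k₀
    (fun r => (hk₀ r).imp fun β h => ⟨h.1, fun i => h.2 i.1 i.2⟩) fun β hβ k => by
      obtain ⟨h3, h4⟩ := ha (k, L.map fun i => (List.range k).map fun j => s.f (x β i) j)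
        ⟨β, (hJ₂J β hβ).1, rfl⟩
      have h5 := max_lt_iff.1 ((hδ₁ (k, L.map fun i => (List.range k).map
        fun j => s.f (x β i) j)).trans_le hd₁)
      exact ⟨_, ⟨h3, h5.1, h5.2⟩, fun i => (hδ₂ (_, i.1)).trans_le hd₂,
        fun i => (KeyAux.pat_iff L _ _ k).1 h4 i.1 i.2⟩
  exact ⟨α, h3, β, (hJ₂J β h6).1, h4.trans (hJ₂J β h6).2.1, h5.trans (hJ₂J β h6).2.1,
    fun i hi => h7 ⟨i, hi⟩⟩

end Pool.Agent.P.MP_f49e60_an.Md
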