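import Pool.Agent.P.MP_f49e60_an.M.Ord
import Pool.Agent.P.MP_3ab3de_lc.MinCtm
import Pool.Agent.P.MP_9a7e1f_lc.LMod
import Pool.Agent.P.MP_9a7e1f_lc.Hull
import Pool.Agent.P.MP_9a7e1f_lc.Hull2

/-! A model of the continuum hypothesis. -/

namespace Pool.Agent.P.MP_f49e60_an.Md

open ZFSet Pool.Agent.P.MP_3ab3de_lc Pool.Agent.P.MP_9a7e1f_lc Cd

theorem exists_world : ∃ (_ : World) (I : Type) (_ : LinearOrder I) (_ : WellFoundedLT I)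
    (_ : Cd I), Om I ∧ ∃ g : I → ℕ → ℕ, DF (fun x : I × ℕ => g x.1 x.2) ∧
      ∀ h : ℕ → ℕ, DF h → ∃ α, g α = h := by
  obtain ⟨M₀, h₀, -⟩ := ctm
  obtain ⟨hM, hV⟩ := lmod M₀
  let W : World := ⟨LM M₀, hM⟩
  obtain ⟨k, hk⟩ := exists_hart (M := W.M) (R := om) hM.infinity
  obtain ⟨I, _, _, _, hI, h1⟩ := exists_om hk
  refine ⟨W, I, inferInstance, inferInstance, inferInstance, hI, ?_⟩
  have h2 : Le W.M (prod om om) k :=
    inf_omega.sq.trans (Le.of_subset hk.mem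
      (hk.ord.isTransitive.subset_of_mem (hk.omega inf_omega))) hk.mem
  obtain ⟨f, hf, h3⟩ := cnt (lk hull) W.M hV om k inf_omega hk (prod om om) (In.mem _) h2
  obtain ⟨g, hg, h4⟩ := exists_fn (α := I) (β := MFn ℕ ℕ) hf
  have := @DF.c1 _ _ _ _ _ g _
  refine ⟨fun α n => (g α).ap n, inferInstance, fun h hh => ?_⟩
  have h5 : c (MFn.mk h) ⊆ prod om om := fun z hz => by
    obtain ⟨x, rfl⟩ := ZFSet.mem_range.1 hz
    exact pair_mem_prod.2 ⟨num_mem_omega _, num_mem_omega _⟩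
  obtain ⟨x, h6, h7⟩ := h3 _ (mem_cs.2 ⟨⟨h5, c_mem _⟩, inf_omega.sq.mono h5⟩)
  obtain ⟨α, rfl⟩ := mem_rg.1 (h1 ▸ h6)
  exact ⟨α, funext fun n => congrArg (fun f => MFn.ap f n) (h4 α _ h7)⟩

end Pool.Agent.P.MP_f49e60_an.Md
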