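import Pool.Agent.P.MP_f49e60_an.M.St
import Pool.Agent.P.MP_f49e60_an.M.Wd

/-! Assembly of the parts. -/

namespace Pool.Agent.P.MP_f49e60_an.Md

open ZFSet Filter Topology Pool.Agent.P.MP_3ab3de_lc Pool.Agent.P.MP_9a7e1f_lc

theorem main (h1 : ∀ [World], S_Scale) (h2 : ∀ [World], S_Mem) (h3 : ∀ [World], S_Key)
    (h4 : ∀ [World], S_HS) (h5 : S_Kap) (h6 : ∀ [World], S_Space) (h7 : ∀ [World], S_Ctrl)
    (h8 : ∀ [World], S_Close) (h9 : ∀ [World], S_Van) (h10 : ∀ [World], S_NoMip)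
    (h11 : ∀ [World], S_Sg) (h12 : S_Slice) (h13 : ∀ [World], S_Sys) (h14 : ∀ [World], S_Fix)
    (h15 : ∀ [World], S_Bump) (h16 : ∀ [World], S_NoC0) :
    ∃ M : Set ZFSet.{0}, TModel M ∧ ∃ F : Subfield ℝ, (∀ r, r ∈ F ↔ cut r ∈ M) ∧
    ∃ (X : Type) (_ : NormedAddCommGroup X) (_ : NormedSpace F X) (c : X → ZFSet.{0}),
      Function.Injective c ∧ range c ∈ M ∧
      range (fun p : X × X => pair (pair (c p.1) (c p.2)) (c (p.1 + p.2))) ∈ M ∧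
      range (fun p : F × X => pair (pair (cut p.1) (c p.2)) (c (p.1 • p.2))) ∈ M ∧
      range (fun x : X => pair (c x) (cut ‖x‖)) ∈ M ∧
      (∀ u : ℕ → X, range (fun n => pair (nm n) (c (u n))) ∈ M → CauchySeq u →
        ∃ x, Tendsto u atTop (𝓝 x)) ∧
      (∃ (b : X → ℝ) (b' : X → X →L[F] ℝ), range (fun x => pair (c x) (cut (b x))) ∈ M ∧
        range (fun p : X × X => pair (pair (c p.1) (c p.2)) (cut (b' p.1 p.2))) ∈ M ∧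
        (∀ x, ∀ ε > 0, ∃ δ > 0, ∀ h, ‖h‖ < δ → |b (x + h) - b x - b' x h| ≤ ε * ‖h‖) ∧
        (∀ x, ∀ ε > 0, ∃ δ > 0, ∀ y, ‖y - x‖ < δ → ∀ h, |b' y h - b' x h| ≤ ε * ‖h‖) ∧
        b ≠ 0 ∧ Bornology.IsBounded (Function.support b)) ∧
      (∃ Z : Submodule F (ZeroAtInftyContinuousMap ℕ ℝ),
        (∀ u, u ∈ Z ↔ range (fun n : ℕ => pair (nm n) (cut (u n))) ∈ M) ∧
        ¬ ∃ T : Z →L[F] X, ∃ a : ℝ, 0 < a ∧ ∀ u, a * ‖u‖ ≤ ‖T u‖) ∧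
      ¬ ∃ N : Seminorm F X, range (fun x => pair (c x) (cut (N x))) ∈ M ∧
        (∃ a b : ℝ, 0 < a ∧ 0 < b ∧ ∀ x, a * ‖x‖ ≤ N x ∧ N x ≤ b * ‖x‖) ∧
        ∀ C : Set X, range (fun x : C => c x) ∈ M → Convex F C → IsClosed C →
          Bornology.IsBounded C → ∀ z, z ∉ C →
            ∃ (x : X) (r : ℝ), C ⊆ {y | N (y - x) ≤ r} ∧ r < N (z - x) := by
  obtain ⟨W, I, _, _, _, hI, g, hg, hg'⟩ := exists_world
  obtain ⟨s, hs⟩ := h1 I g hg hg'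
  have hm := h2 I s hs
  obtain ⟨D, _, hD, hN, hG⟩ := h6 h5 I s hm
  obtain ⟨t, _, O, _, e, n₀, a1, a2⟩ := h13 h12 _ D _ _ _ _ hN (h11 _ D _ _ _ _ hN)
  obtain ⟨G, a3, a4, a5⟩ := h14 _ D t O e n₀ a1
  obtain ⟨b, b', c1, c2, c3⟩ := h15 _ D G (by simpa only [a2] using a3) a4 a5
  obtain ⟨Z, c4, c5⟩ := h16 _ _ s.col D
  have c6 := h10 _ D _ _ _ _ [] I hN (h7 _ D _ _ _ _ hN)
    (h8 I s D (h4 I s hm (h3 I s hs)) hG) (h9 I s D hG)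
  refine ⟨W.M, W.tm, FF, fun r => mem_FF, D, inferInstance, inferInstance, Cd.c, Cd.inj, Cd.rng,
    DF.range_iff.1 hD.add, ?_, DR.range_iff.1 hD.norm, fun u hu hc => ?_,
    ⟨b, b', DR.range_iff.1 c1, DR.range_iff.1 c2, c3⟩,
    ⟨Z, fun u => (c4 u).trans (by simp only [DR.range_iff, c_nat]), c5⟩, ?_⟩
  · simpa only [c_prod, c_FF] using DF.range_iff.1 hD.smul
  · have : DF u := DF.range_iff.2 (by simpa only [c_nat] using hu)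
    obtain ⟨x, hx⟩ := cauchySeq_tendsto_of_complete
      (uniformContinuous_subtype_val.comp_cauchySeq hc)
    exact ⟨⟨x, MSp.lim_mem u hx⟩, tendsto_subtype_rng.2 hx⟩
  · rintro ⟨N, d1, d2, d3⟩
    exact c6 ⟨N, DR.range_iff.2 d1, d2, fun C hC => d3 C (DP.range_iff.1 hC)⟩

end Pool.Agent.P.MP_f49e60_an.Md
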