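import Pool.Agent.P.MP_f49e60_an.M.Core

/-! Numbers, truth values, options and lists as coded types. -/

set_option linter.unusedSectionVars false
set_option synthInstance.maxSize 100000

namespace Pool.Agent.P.MP_f49e60_an.Md

open ZFSet Pool.Agent.P.MP_3ab3de_lc Cd

variable [W : World] {α β γ : Type} [Cd α] [Cd β] [Cd γ]

/-- the strict order is in the model -/
class DLt (O : Type) [Cd O] [LT O] : Prop where
  out : DP (fun x : O × O => x.1 < x.2)

/-- the order is in the model -/
class DLe (O : Type) [Cd O] [LE O] : Prop where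
  out : DP (fun x : O × O => x.1 ≤ x.2)

instance DP.lt [LT β] [h : DLt β] {f g : α → β} [DF f] [DF g] : DP (no_index (fun x => f x < g x)) :=
  @DP.c2 _ _ _ _ _ (fun a b : β => a < b) h.out _ _ f g _ _

instance DP.le [LE β] [h : DLe β] {f g : α → β} [DF f] [DF g] : DP (no_index (fun x => f x ≤ g x)) :=
  @DP.c2 _ _ _ _ _ (fun a b : β => a ≤ b) h.out _ _ f g _ _

instance DP.gt [LT β] [DLt β] {f g : α → β} [DF f] [DF g] : DP (no_index (fun x => f x > g x)) := DP.lt

instance DP.ge [LE β] [DLe β] {f g : α → β} [DF f] [DF g] : DP (no_index (fun x => f x ≥ g x)) := DP.le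

theorem DLe.of_lt {O : Type} [Cd O] [LinearOrder O] [DLt O] : DLe O :=
  ⟨DP.of_iff (fun x : O × O => ¬ x.2 < x.1) fun _ => not_lt.symm⟩

instance (priority := low) DF.max [LinearOrder β] [DLe β] {f g : α → β} [DF f] [DF g] :
    DF (no_index (fun x => max (f x) (g x))) :=
  DF.of_eq (fun x => if f x ≤ g x then g x else f x) fun _ => max_def _ _

instance (priority := low) DF.min [LinearOrder β] [DLe β] {f g : α → β} [DF f] [DF g] :
    DF (no_index (fun x => min (f x) (g x))) :=
  DF.of_eq (fun x => if f x ≤ g x then f x else g x) fun _ => min_def _ _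

noncomputable instance cdNat : Cd ℕ where
  c := num
  inj _ _ := num_inj.1
  rng := by
    convert In.mem (M := W.M) om using 1
    ext z
    rw [ZFSet.mem_range, mem_omega]

theorem rg_nat : rg ℕ = om := by
  ext z
  rw [mem_rg, mem_omega]
  rfl

instance : DLt ℕ := ⟨DP.of_df (fun z => fst z ∈ snd z) inferInstance fun x => by
  simp only [c_prod, fst_pair, snd_pair]
  exact num_mem_num⟩

instance : DLe ℕ := DLe.of_lt

instance DP.eventually {p : α → ℕ → Prop} [DP (fun x : α × ℕ => p x.1 x.2)] :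
    DP (no_index (fun a => ∀ᶠ n in Filter.atTop, p a n)) := by
  have := @DP.c2 _ _ _ _ _ p _
  exact DP.of_iff (fun a => ∃ N, ∀ n, N ≤ n → p a n) fun _ => Filter.eventually_atTop

theorem df_succ : DF (fun n : ℕ => n + 1) :=
  DF.of_graph (fun a b => a < b ∧ ∀ k, a < k → b ≤ k) fun a b =>
    ⟨fun e => e ▸ ⟨by omega, fun _ h => h⟩, fun h => le_antisymm h.1 (h.2 _ (by omega))⟩

theorem df_pred : DF (fun n : ℕ => n - 1) := by
  have := @DF.c1 _ _ _ _ _ _ df_succ
  exact DF.of_graph (fun a b => (a = 0 ∧ b = 0) ∨ a = b + 1) fun a b => by omega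

/-- primitive recursion -/
theorem DF.natRec (F : α → ℕ → β) (z : α → β) (s : α → ℕ → β → β) [DF z]
    [DF (fun x : α × ℕ × β => s x.1 x.2.1 x.2.2)] (h0 : ∀ a, F a 0 = z a)
    (hs : ∀ a n, F a (n + 1) = s a n (F a n)) : DF (fun x : α × ℕ => F x.1 x.2) := by
  rcases isEmpty_or_nonempty α with h | ⟨⟨a₀⟩⟩
  · exact DF.of_graph (fun _ _ => False) fun a => isEmptyElim a.1
  have : Nonempty β := ⟨z a₀⟩
  have := @DF.c1 _ _ _ _ _ _ df_pred
  have := @DF.c1 _ _ _ _ _ z _
  have := @DF.c3 _ _ _ _ _ _ _ _ _ s _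
  obtain ⟨f, hf⟩ := rec_fun (α := α × ℕ) (fun x y => x.2 < y.2) (InvImage.wf Prod.snd wellFounded_lt)
    (fun f x => if x.2 = 0 then z x.1 else s x.1 (x.2 - 1) (f.ap (x.1, x.2 - 1)))
    fun f g x h => by
      split_ifs with h1
      · rfl
      · rw [h (x.1, x.2 - 1) (by dsimp only; omega)]
  refine DF.of_eq (fun x => f.ap x) fun ⟨a, n⟩ => ?_
  induction n with
  | zero => rw [hf]; simp [h0]
  | succ n ih => rw [hf]; simp [hs, ← ih]

instance DF.addN {f g : α → ℕ} [DF f] [DF g] : DF (no_index (fun x => f x + g x)) := by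
  have := @DF.c1 _ _ _ _ _ _ df_succ
  exact @DF.c2 _ _ _ _ _ _ _ (fun a b : ℕ => a + b)
    (DF.natRec (fun a b : ℕ => a + b) (fun a => a) (fun _ _ r => r + 1) (fun _ => rfl)
      fun _ _ => rfl) _ _ f g _ _

instance DF.succN {f : α → ℕ} [DF f] : DF (no_index (fun x => (f x).succ)) := DF.addN (g := fun _ => 1)

instance DF.mulN {f g : α → ℕ} [DF f] [DF g] : DF (no_index (fun x => f x * g x)) :=
  @DF.c2 _ _ _ _ _ _ _ (fun a b : ℕ => a * b)
    (DF.natRec (fun a b : ℕ => a * b) (fun _ => 0) (fun a _ r => r + a) (fun _ => rfl)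
      fun _ _ => rfl) _ _ f g _ _

instance DF.powN {f g : α → ℕ} [DF f] [DF g] : DF (no_index (fun x => f x ^ g x)) :=
  @DF.c2 _ _ _ _ _ _ _ (fun a b : ℕ => a ^ b)
    (DF.natRec (fun a b : ℕ => a ^ b) (fun _ => 1) (fun a _ r => r * a) (fun _ => rfl)
      fun _ _ => rfl) _ _ f g _ _

instance DF.subN {f g : α → ℕ} [DF f] [DF g] : DF (no_index (fun x => f x - g x)) :=
  @DF.c2 _ _ _ _ _ _ _ (fun a b : ℕ => a - b)
    (DF.of_graph (fun a b => (a.1 ≤ a.2 ∧ b = 0) ∨ a.1 = a.2 + b) fun a b => by omega) _ _ f g _ _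

instance DF.sumN {n : α → ℕ} {g : α → ℕ → ℕ} [DF n] [DF (fun x : α × ℕ => g x.1 x.2)] :
    DF (no_index (fun x => ∑ i ∈ Finset.range (n x), g x i)) := by
  have := @DF.c2 _ _ _ _ _ _ _ g _
  exact @DF.c2 _ _ _ _ _ _ _ (fun a m => ∑ i ∈ Finset.range m, g a i)
    (DF.natRec (fun a m => ∑ i ∈ Finset.range m, g a i) (fun _ => 0) (fun a m r => r + g a m)
      (fun _ => rfl) fun _ _ => Finset.sum_range_succ _ _) _ _ (fun x => x) n _ _

instance DF.find {p : α → ℕ → Prop} {d : ∀ a, DecidablePred (p a)} {h : ∀ a, ∃ n, p a n}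
    [DP (fun x : α × ℕ => p x.1 x.2)] : DF (no_index (fun a => @Nat.find (fun n => p a n) (d a) (h a))) := by
  have := @DP.c2 _ _ _ _ _ p _
  exact DF.of_graph (fun a n => p a n ∧ ∀ m, m < n → ¬ p a m) fun a n => Nat.find_eq_iff _

instance DF.pairN {f g : α → ℕ} [DF f] [DF g] : DF (no_index (fun x => Nat.pair (f x) (g x))) := by
  unfold Nat.pair
  infer_instance

/-! ### truth values -/

noncomputable instance cdBool : Cd Bool :=
  Cd.ofInj Bool.toNat (by intro a b; cases a <;> cases b <;> simp)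
    (DP.of_iff (fun n => n = 0 ∨ n = 1) fun n => by simp [eq_comm])

instance DF.decide {p : α → Prop} {d : ∀ x, Decidable (p x)} [DP p] :
    DF (no_index (fun x => @decide (p x) (d x))) :=
  DF.of_eq (fun x => if p x then true else false) fun x => by by_cases h : p x <;> simp [h]

instance DF.cond {p : α → Bool} {f g : α → β} [DF p] [DF f] [DF g] :
    DF (no_index (fun x => cond (p x) (f x) (g x))) :=
  DF.of_eq (fun x => if p x = true then f x else g x) fun x => by cases p x <;> simp

/-- recursion for predicates -/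
theorem rec_set (r : α → α → Prop) (hr : WellFounded r) [DP (fun x : α × α => r x.1 x.2)]
    (R : MSet α → α → Prop) [DP (fun x : MSet α × α => R x.1 x.2)]
    (loc : ∀ S T a, (∀ b, r b a → (b ∈ S ↔ b ∈ T)) → (R S a ↔ R T a)) :
    ∃ S : MSet α, ∀ a, a ∈ S ↔ R S a := by
  classical
  have := @DP.c2 _ _ _ _ _ R _
  obtain ⟨f, hf⟩ := rec_fun (β := Bool) r hr
    (fun f a => decide (R (MSet.mk fun b => f.ap b = true) a))
    fun f g a h => decide_eq_decide.2 (loc _ _ _ fun b hb => by simp [h b hb])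
  exact ⟨MSet.mk fun b => f.ap b = true, fun a => by rw [MSet.mem_mk, hf]; simp⟩

/-! ### options -/

/-- an option as a set -/
def optSet (o : Option α) : MSet α :=
  ⟨{a | o = some a}, by
    cases o with
    | none => exact DP.of_iff (fun _ => False) (by simp)
    | some b => exact DP.of_iff (fun a => b = a) fun a => by simp [eq_comm]⟩

theorem optSet_inj : Function.Injective (optSet : Option α → _) := fun _ _ h =>
  Option.ext fun a => iff_of_eq (congrArg (fun S : MSet α => a ∈ S) h)

noncomputable instance cdOption : Cd (Option α) :=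
  Cd.ofInj optSet optSet_inj (DP.of_iff (fun S => ∀ a b, a ∈ S → b ∈ S → a = b) fun S => by
    constructor
    · rintro ⟨o, rfl⟩ a b ha hb
      exact Option.some_injective _ (Eq.trans (Eq.symm ha) hb)
    · intro h
      by_cases h1 : ∃ a, a ∈ S
      · obtain ⟨a, ha⟩ := h1
        exact ⟨some a, MSet.ext fun b =>
          ⟨fun e => Option.some_injective _ e ▸ ha, fun hb => congrArg some (h a b ha hb)⟩⟩
      · exact ⟨none, MSet.ext fun b => ⟨fun e => (by cases e), fun hb => absurd ⟨b, hb⟩ h1⟩⟩)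

theorem dp_some : DP (fun x : Option α × α => x.1 = some x.2) := by
  have : DF (optSet : Option α → _) := DF.of_c fun _ => rfl
  have := @DF.c1 _ _ _ _ _ (optSet : Option α → _) _
  exact DP.of_iff (fun x => x.2 ∈ optSet x.1) fun _ => Iff.rfl

instance DF.some {f : α → β} [DF f] : DF (no_index (fun x => some (f x))) := by
  have := @DP.c2 _ _ _ _ _ (fun (o : Option β) b => o = Option.some b) dp_some
  have := @DF.c1 _ _ _ _ _ f _
  exact DF.of_graph (fun a o => o = Option.some (f a)) fun _ _ => eq_comm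

instance DF.elim {f : α → Option β} {g : α → γ} {k : α → β → γ} [DF f] [DF g]
    [DF (fun x : α × β => k x.1 x.2)] : DF (no_index (fun x => (f x).elim (g x) (fun b => k x b))) := by
  have := @DF.c1 _ _ _ _ _ f _
  have := @DF.c1 _ _ _ _ _ g _
  have := @DF.c2 _ _ _ _ _ _ _ k _
  refine DF.of_graph (fun a y => (f a = none ∧ g a = y) ∨ ∃ b, f a = Option.some b ∧ k a b = y)
    fun a y => ?_
  cases f a <;> simp

instance DF.getD {f : α → Option β} {g : α → β} [DF f] [DF g] :
    DF (no_index (fun x => (f x).getD (g x))) :=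
  DF.of_eq (fun x => (f x).elim (g x) (fun b => b)) fun x => by cases f x <;> rfl

/-! ### lists -/

theorem dp_list (l : List α) : DP (fun x : ℕ × α => l[x.1]? = some x.2) := by
  induction l with
  | nil => exact DP.of_iff (fun _ => False) (by simp)
  | cons a l ih =>
    have := @DP.c2 _ _ _ _ _ (fun (n : ℕ) b => l[n]? = some b) ih
    refine DP.of_iff (fun x => (x.1 = 0 ∧ a = x.2) ∨ ∃ m, x.1 = m + 1 ∧ l[m]? = some x.2) ?_
    rintro ⟨n, b⟩
    cases n <;> simp

/-- a list as a set -/
def listSet (l : List α) : MSet (ℕ × α) := ⟨{x | l[x.1]? = some x.2}, dp_list l⟩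

theorem listSet_inj : Function.Injective (listSet : List α → _) := fun _ _ h =>
  List.ext_getElem? fun n => Option.ext fun a =>
    iff_of_eq (congrArg (fun S : MSet (ℕ × α) => (n, a) ∈ S) h)

noncomputable instance cdList : Cd (List α) :=
  Cd.ofInj listSet listSet_inj (DP.of_iff (fun S => ∃ N, (∀ n, n < N → ∃! a, (n, a) ∈ S) ∧
      ∀ n a, (n, a) ∈ S → n < N) fun S => by
    constructor
    · rintro ⟨l, rfl⟩
      refine ⟨l.length, fun n hn => ⟨l[n], List.getElem?_eq_getElem hn, fun b hb => ?_⟩,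
        fun n a h => (List.getElem?_eq_some_iff.1 h).1⟩
      exact (List.getElem?_eq_some_iff.1 hb).2.symm
    · rintro ⟨N, h1, h2⟩
      choose f hf hf' using h1
      refine ⟨List.ofFn fun i : Fin N => f i.1 i.2, MSet.ext fun ⟨n, a⟩ => ?_⟩
      change (List.ofFn fun i : Fin N => f i.1 i.2)[n]? = some a ↔ _
      rw [List.getElem?_eq_some_iff]
      constructor
      · rintro ⟨h3, rfl⟩
        simpa using hf n (by simpa using h3)
      · intro h
        exact ⟨by simpa using h2 n a h, by simpa using (hf' n (h2 n a h) a h).symm⟩)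

instance DF.getElem? {l : α → List β} {n : α → ℕ} [DF l] [DF n] : DF (no_index (fun x => (l x)[n x]?)) := by
  have : DF (listSet : List β → _) := DF.of_c fun _ => rfl
  have := @DF.c1 _ _ _ _ _ (listSet : List β → _) _
  have := @DF.c1 _ _ _ _ _ l _
  have := @DF.c1 _ _ _ _ _ n _
  exact DF.of_graph (fun a o => ∀ b, (n a, b) ∈ listSet (l a) ↔ o = Option.some b) fun a o =>
    ⟨fun e _ => e ▸ Iff.rfl, fun h => Option.ext h⟩

theorem DF.toList {l : α → List β} [h : DF (fun x : α × ℕ => (l x.1)[x.2]?)] : DF l := by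
  have := @DF.c2 _ _ _ _ _ _ _ (fun a (n : ℕ) => (l a)[n]?) h
  exact DF.of_graph (fun a l' => ∀ n : ℕ, (l a)[n]? = l'[n]?) fun a l' =>
    ⟨fun e _ => e ▸ rfl, List.ext_getElem?⟩

instance DF.getDL {l : α → List β} {n : α → ℕ} {b : α → β} [DF l] [DF n] [DF b] :
    DF (no_index (fun x => (l x).getD (n x) (b x))) :=
  DF.of_eq (fun x => (l x)[n x]?.getD (b x)) fun _ => List.getD_eq_getElem?_getD

instance DF.length {l : α → List β} [DF l] : DF (no_index (fun x => (l x).length)) := by
  have := @DF.c1 _ _ _ _ _ l _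
  refine DF.of_graph (fun a m => ∀ n : ℕ, (l a)[n]? = none ↔ m ≤ n) fun a m => ?_
  simp only [List.getElem?_eq_none_iff]
  exact ⟨fun e _ => e ▸ Iff.rfl, fun h => le_antisymm ((h _).2 le_rfl) ((h _).1 le_rfl)⟩

instance DP.memL {f : α → β} {l : α → List β} [DF f] [DF l] : DP (no_index (fun x => f x ∈ l x)) := by
  have := @DF.c1 _ _ _ _ _ l _
  have := @DF.c1 _ _ _ _ _ f _
  exact DP.of_iff (fun x => ∃ n : ℕ, (l x)[n]? = some (f x)) fun _ => List.mem_iff_getElem?

instance DP.nodup {l : α → List β} [DF l] : DP (no_index (fun x => (l x).Nodup)) := by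
  have := @DF.c1 _ _ _ _ _ l _
  exact DP.of_iff (fun x => ∀ i j : ℕ, i < j → j < (l x).length → (l x)[i]? ≠ (l x)[j]?)
    fun _ => List.nodup_iff_getElem?_ne_getElem?

instance DF.cons {f : α → β} {l : α → List β} [DF f] [DF l] : DF (no_index (fun x => f x :: l x)) := by
  have := @DF.c1 _ _ _ _ _ l _
  have := @DF.c1 _ _ _ _ _ f _
  refine DF.toList (h := DF.of_eq
    (fun x => if x.2 = 0 then Option.some (f x.1) else (l x.1)[x.2 - 1]?) ?_)
  rintro ⟨a, n⟩
  cases n <;> simp

instance DF.append {l l' : α → List β} [DF l] [DF l'] : DF (no_index (fun x => l x ++ l' x)) := by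
  have := @DF.c1 _ _ _ _ _ l _
  have := @DF.c1 _ _ _ _ _ l' _
  exact DF.toList (h := DF.of_eq (fun x => if x.2 < (l x.1).length then (l x.1)[x.2]?
    else (l' x.1)[x.2 - (l x.1).length]?) fun _ => List.getElem?_append)

instance DF.map {l : α → List β} {k : α → β → γ} [DF l] [DF (fun x : α × β => k x.1 x.2)] :
    DF (no_index (fun x => (l x).map (fun b => k x b))) := by
  have := @DF.c1 _ _ _ _ _ l _
  have := @DF.c2 _ _ _ _ _ _ _ k _
  refine DF.toList (h := DF.of_eq
    (fun x => (l x.1)[x.2]?.elim none (fun b => Option.some (k x.1 b))) fun x => ?_)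
  rw [List.getElem?_map]
  cases (l x.1)[x.2]? <;> rfl

instance DF.range {n : α → ℕ} [DF n] : DF (no_index (fun x => List.range (n x))) := by
  have := @DF.c1 _ _ _ _ _ n _
  refine DF.toList (h := DF.of_eq (fun x => if x.2 < n x.1 then Option.some x.2 else none)
    fun x => ?_)
  split_ifs with h
  · exact List.getElem?_range h
  · simpa using h

instance DF.drop {l : α → List β} {n : α → ℕ} [DF l] [DF n] : DF (no_index (fun x => (l x).drop (n x))) := by
  have := @DF.c1 _ _ _ _ _ l _
  have := @DF.c1 _ _ _ _ _ n _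
  exact DF.toList (h := DF.of_eq (fun x => (l x.1)[n x.1 + x.2]?) fun _ => List.getElem?_drop)

instance DF.take {l : α → List β} {n : α → ℕ} [DF l] [DF n] : DF (no_index (fun x => (l x).take (n x))) := by
  have := @DF.c1 _ _ _ _ _ l _
  have := @DF.c1 _ _ _ _ _ n _
  exact DF.toList (h := DF.of_eq (fun x => if x.2 < n x.1 then (l x.1)[x.2]? else none)
    fun _ => List.getElem?_take)

/-- recursion on lists -/
theorem DF.listRec (F : α → List β → γ) (z : α → γ) (s : α → β → γ → γ) [DF z]
    [DF (fun x : α × β × γ => s x.1 x.2.1 x.2.2)] (h0 : ∀ a, F a [] = z a)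
    (hs : ∀ a b l, F a (b :: l) = s a b (F a l)) : DF (fun x : α × List β => F x.1 x.2) := by
  have := @DF.c1 _ _ _ _ _ z _
  have := @DF.c3 _ _ _ _ _ _ _ _ _ s _
  have h1 := DF.natRec (fun (x : α × List β) n => F x.1 (x.2.drop (x.2.length - n)))
    (fun x => z x.1) (fun x n r => if n < x.2.length then
      x.2[x.2.length - (n + 1)]?.elim r (fun b => s x.1 b r) else r) (fun x => by simp [h0])
    (fun x n => by
      split_ifs with h
      · have h2 : x.2.length - (n + 1) < x.2.length := by omega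
        rw [List.drop_eq_getElem_cons h2, hs, List.getElem?_eq_getElem h2,
          show x.2.length - (n + 1) + 1 = x.2.length - n by omega]
        rfl
      · rw [show x.2.length - (n + 1) = x.2.length - n by omega])
  have := @DF.c2 _ _ _ _ _ _ _
    (fun (x : α × List β) (n : ℕ) => F x.1 (x.2.drop (x.2.length - n))) h1
  exact DF.of_eq (fun x => F x.1 (x.2.drop (x.2.length - x.2.length))) fun x => by simp

instance DF.sumL {l : α → List ℕ} [DF l] : DF (no_index (fun x => (l x).sum)) :=
  @DF.c2 _ _ _ _ _ _ _ (fun (_ : ℕ) (l : List ℕ) => l.sum)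
    (DF.listRec (fun (_ : ℕ) (l : List ℕ) => l.sum) (fun _ => 0) (fun _ b r => b + r)
      (fun _ => rfl) fun _ _ _ => List.sum_cons) _ _ (fun _ => 0) l _ _

instance DF.flatten {l : α → List (List β)} [DF l] : DF (no_index (fun x => (l x).flatten)) :=
  @DF.c2 _ _ _ _ _ _ _ (fun (_ : ℕ) (l : List (List β)) => l.flatten)
    (DF.listRec (fun (_ : ℕ) (l : List (List β)) => l.flatten) (fun _ => []) (fun _ b r => b ++ r)
      (fun _ => rfl) fun _ _ _ => List.flatten_cons) _ _ (fun _ => 0) l _ _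

/-- finite sets are in the model -/
theorem DP.finite {S : Set α} (h : S.Finite) : DP (fun a => a ∈ S) :=
  DP.of_iff (fun a => a ∈ h.toFinset.toList) fun a => by simp

end Pool.Agent.P.MP_f49e60_an.Md
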