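import Pool.Agent.P.MP_f49e60_an.M.St

/-! No copy of the space of null sequences of the model. -/

set_option synthInstance.maxSize 100000

namespace Pool.Agent.P.MP_f49e60_an.Md

open Filter Topology Finset

namespace NoC0

theorem conv01 {E : Type} [NormedAddCommGroup E] [NormedSpace ℝ E] (v : ℕ → E) (C : ℝ)
    (ε : ℕ → ℝ) (h0 : ∀ n, 0 ≤ ε n) (h1 : ∀ n, ε n ≤ 1) (s : Finset ℕ) :
    ∀ y : E, (∀ t ⊆ s, ‖y + ∑ n ∈ t, v n‖ ≤ C) → ‖y + ∑ n ∈ s, ε n • v n‖ ≤ C := by
  classical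
  induction s using Finset.induction_on with
  | empty => intro y h; simpa using h ∅ (Finset.Subset.refl _)
  | insert a s ha ih =>
    intro y h
    have a1 := ih y fun t ht => h t (ht.trans (subset_insert _ _))
    have a2 := ih (y + v a) fun t ht => by
      have := h (insert a t) (insert_subset_insert _ ht)
      rwa [sum_insert fun h' => ha (ht h'), ← add_assoc] at this
    have e : y + ∑ n ∈ insert a s, ε n • v n = ε a • (y + v a + ∑ n ∈ s, ε n • v n) +
        (1 - ε a) • (y + ∑ n ∈ s, ε n • v n) := by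
      rw [sum_insert ha]
      module
    rw [e]
    refine (norm_add_le _ _).trans ?_
    rw [norm_smul, norm_smul, Real.norm_of_nonneg (h0 a), Real.norm_of_nonneg (by linarith [h1 a])]
    have b1 := mul_le_mul_of_nonneg_left a2 (h0 a)
    have b2 := mul_le_mul_of_nonneg_left a1 (show 0 ≤ 1 - ε a by linarith [h1 a])
    linarith

theorem conv {E : Type} [NormedAddCommGroup E] [NormedSpace ℝ E] (v : ℕ → E) (C : ℝ)
    (h : ∀ t : Finset ℕ, ‖∑ n ∈ t, v n‖ ≤ C) (s : Finset ℕ) (ε : ℕ → ℝ) (hε : ∀ n, |ε n| ≤ 1) :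
    ‖∑ n ∈ s, ε n • v n‖ ≤ 2 * C := by
  have a1 := conv01 v C (fun n => max (ε n) 0) (fun n => le_max_right _ _)
    (fun n => max_le (abs_le.1 (hε n)).2 zero_le_one) s 0 fun t _ => by rw [zero_add]; exact h t
  have a2 := conv01 v C (fun n => max (- ε n) 0) (fun n => le_max_right _ _)
    (fun n => max_le (by linarith [(abs_le.1 (hε n)).1]) zero_le_one) s 0
    fun t _ => by rw [zero_add]; exact h t
  rw [zero_add] at a1 a2
  have e : ∑ n ∈ s, ε n • v n = ∑ n ∈ s, max (ε n) 0 • v n - ∑ n ∈ s, max (- ε n) 0 • v n := by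
    rw [← sum_sub_distrib]
    refine sum_congr rfl fun n _ => ?_
    rw [← sub_smul, max_zero_sub_max_neg_zero_eq_self]
  rw [e]
  refine (norm_sub_le _ _).trans ?_
  linarith

theorem core {K Γ : Type} [TopologicalSpace K] [CompactSpace K] [Nonempty K]
    (c : Γ → C(K, Bool)) (x : ℕ → Sp c) {b C : ℝ} (hb : 0 < b) (h1 : ∀ n, b ≤ ‖x n‖)
    (h2 : ∀ t : Finset ℕ, ‖∑ n ∈ t, x n‖ ≤ C) : False := by
  have h3 : ∀ n, ∃ μ, ‖Sp.v c (x n) - emb c μ‖ < b / 2 * (1 / 2) ^ n := fun n =>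
    exists_emb c (Sp.v_mem c (x n)) (by positivity)
  choose μ hμ using h3
  have h4 : ∀ t : Finset ℕ, ‖∑ n ∈ t, emb c (μ n)‖ ≤ C + b := by
    intro s
    have a1 : ‖∑ n ∈ s, Sp.v c (x n)‖ ≤ C := by
      rw [← map_sum, Sp.norm_v]
      exact h2 s
    have a2 : ‖∑ n ∈ s, (Sp.v c (x n) - emb c (μ n))‖ ≤ b := by
      refine (norm_sum_le _ _).trans ((sum_le_sum (g := fun n => b / 2 * (1 / 2) ^ n)
        fun n _ => (hμ n).le).trans ?_)
      rw [← mul_sum]
      have b1 := sum_le_hasSum s (fun _ _ => by positivity) hasSum_geometric_two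
      nlinarith
    have a3 : ∑ n ∈ s, emb c (μ n) = ∑ n ∈ s, Sp.v c (x n) -
        ∑ n ∈ s, (Sp.v c (x n) - emb c (μ n)) := by
      rw [← sum_sub_distrib]
      exact sum_congr rfl fun n _ => by rw [sub_sub_cancel]
    rw [a3]
    exact (norm_sub_le _ _).trans (add_le_add a1 a2)
  refine EE.hump (f := fun n => emb c (μ n)) (c := b / 2) (C := C + b) (by linarith)
    (fun n => ?_) h4 (coord_tendsto c (conv _ _ h4))
  have a1 := h1 n
  have a2 : ‖x n‖ ≤ ‖Sp.v c (x n) - emb c (μ n)‖ + ‖emb c (μ n)‖ := by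
    have b1 := norm_add_le (Sp.v c (x n) - emb c (μ n)) (emb c (μ n))
    rwa [sub_add_cancel, Sp.norm_v] at b1
  have a3 : b / 2 * (1 / 2) ^ n ≤ b / 2 :=
    mul_le_of_le_one_right (by linarith) (pow_le_one₀ (by norm_num) (by norm_num))
  linarith [hμ n]

variable [W : World]

/-- the null sequences of the model -/
def ZZ : Submodule FF (ZeroAtInftyContinuousMap ℕ ℝ) where
  carrier := {u | DR (fun n => u n)}
  zero_mem' := DR.of_eq (fun _ : ℕ => (0 : ℝ)) fun _ => rfl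
  add_mem' {u v} hu hv := by
    have h1 : DR (fun n => u n) := hu
    have h2 : DR (fun n => v n) := hv
    exact DR.of_eq (fun n : ℕ => u n + v n) fun _ => rfl
  smul_mem' r u hu := by
    have h1 : DR (fun n => u n) := hu
    have h2 : DR (fun _ : ℕ => (r : ℝ)) := DR.const r.2
    exact DR.of_eq (fun n : ℕ => (r : ℝ) * u n) fun _ => rfl

theorem ee_mem (n : ℕ) : ee n ∈ ZZ :=
  DR.of_eq (fun j : ℕ => if j = n then (1 : ℝ) else 0) fun _ => rfl

end NoC0

variable [W : World]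

theorem noC0 : S_NoC0 := by
  intro K Γ _ _ _ c D
  refine ⟨NoC0.ZZ, fun u => Iff.rfl, ?_⟩
  rintro ⟨T, a, ha, hT⟩
  obtain ⟨δ, hδ, h1⟩ := Metric.continuousAt_iff.1 (T.continuous.continuousAt (x := 0)) 1 one_pos
  obtain ⟨q, hq0, hq⟩ := exists_rat_btwn hδ
  let e : ℕ → NoC0.ZZ := fun n => ⟨ee n, NoC0.ee_mem n⟩
  let r : FF := ⟨q, SubfieldClass.ratCast_mem _ q⟩
  refine NoC0.core c (fun n => (T (e n) : Sp c)) (C := 1 / q) ha (fun n => ?_) fun t => ?_
  · have h2 : 1 ≤ ‖e n‖ := ee_norm n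
    have h3 := hT (e n)
    change a ≤ ‖T (e n)‖
    nlinarith
  · have h2 : ‖∑ n ∈ t, e n‖ ≤ 1 := by
      have := ee_sum t (fun _ => 1) (by simp)
      simp only [one_smul] at this
      change ‖((∑ n ∈ t, e n : NoC0.ZZ) : ZeroAtInftyContinuousMap ℕ ℝ)‖ ≤ 1
      rw [Submodule.coe_sum]
      exact this
    have h3 : dist (NoC0.ZZ.smul.smul r (∑ n ∈ t, e n)) 0 < δ := by
      change dist ((q : ℝ) • ((∑ n ∈ t, e n : NoC0.ZZ) : ZeroAtInftyContinuousMap ℕ ℝ)) 0 < δ
      rw [dist_zero_right, norm_smul, Real.norm_of_nonneg hq0.le]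
      exact (mul_le_of_le_one_right hq0.le h2).trans_lt hq
    have h4 := h1 h3
    have h5 := T.map_smul r (∑ n ∈ t, e n)
    rw [map_sum] at h5
    rw [map_zero] at h4
    erw [h5] at h4
    change dist ((q : ℝ) • ((∑ n ∈ t, T (e n) : D) : Sp c)) 0 < 1 at h4
    rw [dist_zero_right, norm_smul, Real.norm_of_nonneg hq0.le, Submodule.coe_sum] at h4
    rw [le_div_iff₀ hq0]
    linarith

end Pool.Agent.P.MP_f49e60_an.Md
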