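import Pool.Agent.P.MP_f49e60_an.M.St

/-! No equivalent norm of the model has the intersection property in the model. -/

set_option linter.unusedSectionVars false
set_option synthInstance.maxSize 100000

namespace Pool.Agent.P.MP_f49e60_an.Md

open Filter Topology Set Pool.Agent.P.MP_d06606_an

variable [W : World]

namespace NoMipP

variable {X : Type} [NormedAddCommGroup X] [NormedSpace ℝ X] {D : Submodule FF X}

theorem smul_eq (N : Seminorm FF D) (r : FF) (hr : (0 : ℝ) ≤ r) (x : D) :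
    N (r • x) = r * N x := by
  rw [map_smul_eq_mul]
  congr 1
  exact abs_of_nonneg hr

theorem norm_smul_eq (r : FF) (hr : (0 : ℝ) ≤ r) (x : D) : ‖r • x‖ = r * ‖x‖ := by
  change ‖(r : ℝ) • (x : X)‖ = r * ‖(x : X)‖
  rw [norm_smul, Real.norm_of_nonneg hr]

theorem ap_smul (f : X →L[ℝ] ℝ) (r : FF) (x : D) : f (r • x : D) = r * f x := by
  change f ((r : ℝ) • (x : X)) = _
  rw [map_smul, smul_eq_mul]

theorem cont (N : Seminorm FF D) {b : ℝ} (h : ∀ x, N x ≤ b * ‖x‖) : Continuous N :=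
  (LipschitzWith.of_dist_le' (K := b) fun x y => by
    rw [Real.dist_eq, dist_eq_norm]
    exact (abs_sub_map_le_sub N x y).trans (h _)).continuous

theorem convex (N : Seminorm FF D) (f : X →L[ℝ] ℝ) :
    Convex FF {y : D | N y ≤ 1 ∧ f y = 0} := by
  intro x hx y hy s t hs ht hst
  have hs' : (0 : ℝ) ≤ s := hs
  have ht' : (0 : ℝ) ≤ t := ht
  have e : (s : ℝ) + t = 1 := congrArg (fun r : FF => (r : ℝ)) hst
  constructor
  · refine (map_add_le_add N _ _).trans ?_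
    rw [smul_eq N s hs', smul_eq N t ht']
    nlinarith [mul_le_mul_of_nonneg_left hx.1 hs', mul_le_mul_of_nonneg_left hy.1 ht']
  · rw [Submodule.coe_add, map_add, ap_smul, ap_smul, hx.2, hy.2]
    simp

end NoMipP

open NoMipP

theorem noMip : S_NoMip := by
  intro X _ _ D _ _ K _ _ ev K₀ _ κ k₀ I _ _ _ hN hC hcl hV
  rintro ⟨N, dN, ⟨a, b, ha, hb, hab⟩, mip⟩
  obtain ⟨ψ, z, dψ, dz, hz, hvan⟩ := hV
  obtain ⟨a', ha0, ha1⟩ := exists_rat_btwn ha
  obtain ⟨c, hc0, hc1⟩ := exists_rat_btwn (show (0 : ℝ) < 1 / (4 * b) by positivity)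
  have := @DR.c1 _ _ _ (fun x : D => N x) dN
  have := @DR.c2 _ _ _ _ _ (fun k (x : D) => ev (κ k) x) hN.dr
  have := @DF.c1 _ _ _ _ _ ψ dψ
  have := @DF.c1 _ _ _ _ _ z dz
  obtain ⟨w, hw⟩ : ∃ w : I → D, w = fun j => (c : FF) • z j := ⟨_, rfl⟩
  have dw : DF w := by
    rw [hw]
    infer_instance
  have := @DF.c1 _ _ _ _ _ w dw
  have hcF : (((c : FF)) : ℝ) = c := rfl
  have hw1 : ∀ j, N (w j) ≤ 1 / 2 := fun j => by
    rw [hw]
    simp only
    rw [smul_eq N _ (hcF ▸ hc0.le), hcF]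
    have h1 := ((hab (z j)).2).trans (mul_le_mul_of_nonneg_left (hz j).1 hb.le)
    rw [lt_div_iff₀ (by positivity)] at hc1
    nlinarith [mul_le_mul_of_nonneg_left h1 hc0.le]
  have hw2 : ∀ j, ev (κ (ψ j)) (w j) ≠ 0 := fun j => by
    rw [hw]
    simp only
    rw [ap_smul, (hz j).2, hcF, mul_one]
    exact hc0.ne'
  obtain ⟨P, dP, hP⟩ := skolem (fun (j : I) (p : D × ℚ) =>
      (∀ y : D, N y ≤ 1 → ev (κ (ψ j)) y = 0 → N (y - p.1) ≤ p.2) ∧ (p.2 : ℝ) < N (w j - p.1))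
      fun j => by
    obtain ⟨x, r, h1, h2⟩ := mip {y : D | N y ≤ 1 ∧ ev (κ (ψ j)) y = 0}
      (DP.of_iff (fun y : D => N y ≤ 1 ∧ ev (κ (ψ j)) y = 0) fun _ => Iff.rfl) (convex N _)
      ((isClosed_le (cont N fun x => (hab x).2) continuous_const).inter
        (isClosed_eq ((ev (κ (ψ j))).continuous.comp continuous_subtype_val) continuous_const))
      (isBounded_iff_forall_norm_le.2 ⟨1 / a, fun y hy => by
        rw [le_div_iff₀ ha]
        linarith [(hab y).1, hy.1]⟩) (w j) fun h => hw2 j h.2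
    obtain ⟨q, h3, h4⟩ := exists_rat_btwn h2
    exact ⟨(x, q), fun y h5 h6 => (h1 ⟨h5, h6⟩).trans h3.le, h4⟩
  have := @DF.c1 _ _ _ _ _ P dP
  obtain ⟨R, hR⟩ : ∃ R : I → ℝ, R = fun j => N (w j - (P j).1) := ⟨_, rfl⟩
  have dR : DR R := by
    rw [hR]
    infer_instance
  have := @DR.c1 _ _ _ R dR
  have hR1 : ∀ j, ((P j).2 : ℝ) < R j := fun j => by
    rw [hR]
    exact (hP j).2
  have hR0 : ∀ j, 0 < R j := fun j =>
    ((apply_nonneg N _).trans ((hP j).1 0 (by simp) (by simp))).trans_lt (hR1 j)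
  obtain ⟨u, hu⟩ : ∃ u : I → D,
      u = fun j => (⟨R j, DR.mem R j⟩ : FF)⁻¹ • (w j - (P j).1) := ⟨_, rfl⟩
  have du : DF u := by
    rw [hu]
    infer_instance
  have := @DF.c1 _ _ _ _ _ u du
  have hu1 : ∀ j, N (u j) = 1 := fun j => by
    rw [hu]
    simp only
    rw [smul_eq N _ (inv_nonneg.2 (hR0 j).le)]
    have : N (w j - (P j).1) = R j := by rw [hR]
    rw [this]
    exact inv_mul_cancel₀ (hR0 j).ne'
  have hu2 : ∀ j, (R j) • (u j : X) = w j - (P j).1 := fun j => by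
    rw [hu]
    change R j • (R j)⁻¹ • ((w j : X) - (P j).1) = _
    rw [smul_smul, mul_inv_cancel₀ (hR0 j).ne', one_smul]
  have hu3 : ∀ j, a' * ‖u j‖ ≤ 1 := fun j => by
    nlinarith [(hab (u j)).1, hu1 j, norm_nonneg (u j)]
  obtain ⟨bd, dbd, hbd⟩ := skolem (fun (α δ : I) => ∀ j, δ < j → ev (κ (ψ j)) (u α) = 0)
    fun α => hvan (u α)
  have : DP (fun β : I => β ∈ (univ : Set I)) := DP.of_iff (fun _ => True) fun _ => Iff.rfl
  obtain ⟨n₀, hn⟩ := pigeon (not_bd_univ (I := I)) (fun β (n : ℕ) => R β < n)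
    fun β _ => exists_nat_gt _
  have hn0 : (0 : ℝ) < n₀ := by
    obtain ⟨β, hβ, -⟩ := exists_gt_of_not_bd hn (Om.ne (I := I)).some
    exact (hR0 β).trans hβ.2
  obtain ⟨ε, hε⟩ : ∃ ε : ℚ, (ε : ℝ) = a' / 2 * (1 / (2 * n₀)) :=
    ⟨a' / 2 * (1 / (2 * n₀)), by push_cast; rfl⟩
  obtain ⟨L, dL, hL⟩ := skolem (fun (α : I) (p : List K₀ × ℚ) => 0 < p.2 ∧
      ∀ (s t : FF) (h : D), 0 ≤ s → 0 ≤ t → ‖h‖ ≤ 1 → (∀ k ∈ p.1, |ev (κ k) h| < p.2) →
        (s : ℝ) - t * ε ≤ N (s • u α - t • h)) fun α => by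
    obtain ⟨l, η, h⟩ := hC N b (fun x => (hab x).2) (u α) (hu1 α) ε (by rw [hε]; positivity)
    exact ⟨(l, η), h⟩
  have := @DF.c1 _ _ _ _ _ L dL
  have : DP (fun β : I => β ∈ {β | β ∈ (univ : Set I) ∧ R β < n₀}) :=
    DP.of_iff (fun β => R β < n₀) fun _ => by simp
  obtain ⟨v, hv⟩ := pigeon hn (fun β (v : ℚ × List ℚ) => (L β).2 = v.1 ∧
      (L β).1.length = v.2.length ∧ ∀ j, j < v.2.length →
        |ev (κ ((L β).1.getD j k₀)) (u β) - (v.2.getD j 0 : ℚ)| < ((v.1 / a' / 2 : ℚ) : ℝ))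
      fun β _ => by
    have h0 : (0 : ℝ) < (((L β).2 / a' / 2 : ℚ) : ℝ) := by
      have : (0 : ℝ) < (L β).2 := by exact_mod_cast (hL β).1
      push_cast
      positivity
    choose q hq using fun k : K₀ => exists_rat_near (ev (κ k) (u β)) h0
    refine ⟨((L β).2, (L β).1.map q), rfl, by simp, fun j hj => ?_⟩
    have hj' : j < (L β).1.length := by simpa using hj
    simpa [List.getD_eq_getElem?_getD, List.getElem?_eq_getElem hj'] using hq ((L β).1[j])
  have hv0 : (0 : ℝ) < v.1 := by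
    obtain ⟨β, hβ, -⟩ := exists_gt_of_not_bd hv (Om.ne (I := I)).some
    rw [← hβ.2.1]
    exact_mod_cast (hL β).1
  obtain ⟨α, hα, β, hβ, -, h1, h2⟩ := hcl _
    (DP.of_iff (fun β => R β < n₀ ∧ (L β).2 = v.1 ∧
      (L β).1.length = v.2.length ∧ ∀ j, j < v.2.length →
        |ev (κ ((L β).1.getD j k₀)) (u β) - (v.2.getD j 0 : ℚ)| < ((v.1 / a' / 2 : ℚ) : ℝ))
      fun _ => by simp) hv (fun β => (L β).1) inferInstance u du bd dbd (v.1 / a')
      (by positivity)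
  have hRβ := hR0 β
  have k1 := (hL α).2 ⟨1 + R β, FF.add_mem FF.one_mem (DR.mem R β)⟩
    ⟨2 * R β / a', DR.mem (fun j => 2 * R j / a') β⟩ (((a' / 2 : ℚ) : FF) • (u α - u β))
    (show (0 : ℝ) ≤ 1 + R β by positivity) (show (0 : ℝ) ≤ 2 * R β / a' by positivity) ?_ ?_
  · have e : (⟨1 + R β, FF.add_mem FF.one_mem (DR.mem R β)⟩ : FF) • u α -
        (⟨2 * R β / a', DR.mem (fun j => 2 * R j / a') β⟩ : FF) •
          ((a' / 2 : ℚ) : FF) • (u α - u β) = (u α - (P β).1) + w β := by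
      refine Subtype.ext ?_
      change (1 + R β) • (u α : X) - (2 * R β / a') • ((a' / 2 : ℚ) : ℝ) • ((u α : X) - u β) =
        ((u α : X) - (P β).1) + w β
      have e1 : 2 * R β / a' * ((a' / 2 : ℚ) : ℝ) = R β := by
        push_cast
        field_simp
      rw [smul_smul, e1, smul_sub, hu2 β, add_smul, one_smul]
      abel
    rw [e] at k1
    have k2 := map_add_le_add N (u α - (P β).1) (w β)
    have k3 := (hP β).1 (u α) (hu1 α).le (hbd α β h1)
    have k4 : 2 * R β / a' * ε = R β / (2 * n₀) := by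
      rw [hε]
      field_simp
    have k5 : R β / (2 * n₀) < 1 / 2 := by
      rw [div_lt_iff₀ (by positivity)]
      linarith [hβ.1.2]
    change 1 + R β - 2 * R β / a' * ε ≤ _ at k1
    linarith [hw1 β, hR1 β]
  · have e : (((a' / 2 : ℚ) : FF) : ℝ) = a' / 2 := by
      change ((a' / 2 : ℚ) : ℝ) = _
      push_cast
      rfl
    rw [norm_smul_eq _ (by rw [e]; positivity), e]
    nlinarith [norm_sub_le (u α) (u β), hu3 α, hu3 β]
  · intro k hk
    have e : (((a' / 2 : ℚ) : FF) : ℝ) = a' / 2 := by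
      change ((a' / 2 : ℚ) : ℝ) = _
      push_cast
      rfl
    obtain ⟨j, hj, rfl⟩ := List.getElem_of_mem hk
    have b1 := hα.2.2.2 j (hα.2.2.1 ▸ hj)
    have b2 := hβ.2.2.2 j (hα.2.2.1 ▸ hj)
    have b3 := h2 j
    rw [List.getD_eq_getElem _ _ hj] at b1 b3
    rw [ap_smul, e, Submodule.coe_sub, map_sub, hα.2.1, abs_mul, abs_of_pos (by positivity)]
    have b4 : |ev (κ (L α).1[j]) (u α) - ev (κ (L α).1[j]) (u β)| < 2 * (v.1 / a') := by
      push_cast at b1 b2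
      rw [abs_lt] at b1 b2 b3 ⊢
      constructor <;> linarith [b1.1, b1.2, b2.1, b2.2, b3.1, b3.2]
    calc (a' : ℝ) / 2 * _ < a' / 2 * (2 * (v.1 / a')) := by gcongr
      _ = v.1 := by field_simp

end Pool.Agent.P.MP_f49e60_an.Md
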