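import Pool.Agent.P.MP_f49e60_an.M.Nat

/-! Ordinals of the model as types, countable types, bounded sets. -/

set_option linter.unusedSectionVars false
set_option synthInstance.maxSize 100000

namespace Pool.Agent.P.MP_f49e60_an.Md

open ZFSet Pool.Agent.P.MP_3ab3de_lc Cd

variable [W : World] {α β γ : Type} [Cd α] [Cd β] [Cd γ]

theorem exists_ord {o : ZF} (hm : o ∈ W.M) (ho : IsOrdinal o) :
    ∃ (O : Type) (_ : LinearOrder O) (_ : WellFoundedLT O) (_ : Cd O), rg O = o ∧ DLt O ∧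
      ∀ a b : O, a < b ↔ c a ∈ c b := by
  obtain ⟨O, v, hi, hr⟩ : ∃ (O : Type) (v : O → ZF), Function.Injective v ∧
      ZFSet.range v = o := by
    refine ⟨Shrink.{0} {x // x ∈ o}, fun x => ((equivShrink _).symm x).1,
      Subtype.val_injective.comp (equivShrink _).symm.injective, ?_⟩
    ext z
    rw [ZFSet.mem_range]
    exact ⟨fun ⟨x, e⟩ => e ▸ ((equivShrink _).symm x).2,
      fun h => ⟨equivShrink _ ⟨z, h⟩, by simp⟩⟩
  have hv : ∀ x, v x ∈ o := fun x => hr ▸ ZFSet.mem_range.2 ⟨x, rfl⟩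
  let _ : LinearOrder O := LinearOrder.lift' (fun x => rank (v x)) fun x y h =>
    hi (((ho.mem (hv x)).rank_inj (ho.mem (hv y))).1 h)
  let _ : Cd O := ⟨v, hi, hr.symm ▸ hm⟩
  have h1 : ∀ a b : O, a < b ↔ c a ∈ c b := fun a b =>
    (ho.mem (hv a)).rank_lt_iff_mem (ho.mem (hv b))
  refine ⟨O, inferInstance, ⟨InvImage.wf (fun x => rank (v x)) wellFounded_lt⟩, inferInstance, hr,
    ⟨DP.of_df (fun z => fst z ∈ snd z) inferInstance fun x => ?_⟩, h1⟩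
  simp only [c_prod, fst_pair, snd_pair, h1]

/-- a well-order that does not inject into a given type -/
theorem exists_hartogs (H : Type) [Cd H] :
    ∃ (O : Type) (_ : LinearOrder O) (_ : WellFoundedLT O) (_ : Cd O), DLt O ∧
      ∀ f : O → H, DF f → ¬ Function.Injective f := by
  obtain ⟨k, hk⟩ := exists_hart (M := W.M) (R := rg H) Cd.rng
  obtain ⟨O, _, _, _, h1, h2, -⟩ := exists_ord hk.mem hk.ord
  refine ⟨O, inferInstance, inferInstance, inferInstance, h2, fun f hf hi => hk.not_le ?_⟩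
  obtain ⟨g, hg, h⟩ := DF.tm f
  refine le_of_inj hk.mem hg Cd.rng (fun η hη => ?_) fun η hη η' hη' e => ?_
  · obtain ⟨a, rfl⟩ := mem_rg.1 (h1 ▸ hη)
    rw [h]
    exact c_mem_rg _
  · obtain ⟨a, rfl⟩ := mem_rg.1 (h1 ▸ hη)
    obtain ⟨b, rfl⟩ := mem_rg.1 (h1 ▸ hη')
    rw [h, h, c_inj] at e
    rw [hi e]

/-- the first uncountable ordinal of the model -/
class Om (I : Type) [LinearOrder I] [Cd I] : Prop where
  ne : Nonempty I
  lt : DLt I
  en : ∃ en : I → ℕ → I, DF (fun x : I × ℕ => en x.1 x.2) ∧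
    ∀ δ α, α < δ → (∀ n, en δ n < δ) ∧ ∃ n, en δ n = α
  bdd : ∀ f : ℕ → I, DF f → ∃ δ, ∀ n, f n < δ

theorem exists_om {k : ZF} (hk : Hart W.M om k) :
    ∃ (I : Type) (_ : LinearOrder I) (_ : WellFoundedLT I) (_ : Cd I), Om I ∧ rg I = k := by
  classical
  obtain ⟨I, _, _, _, h1, h2, h3⟩ := exists_ord hk.mem hk.ord
  obtain ⟨z, -⟩ := mem_rg.1 (h1 ▸ hk.zero inf_omega)
  have : Nonempty I := ⟨z⟩
  refine ⟨I, inferInstance, inferInstance, inferInstance, ⟨this, h2, ?_, fun f hf => ?_⟩, h1⟩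
  · obtain ⟨g, hg, h⟩ := skolem (fun (δ : I) (g : MFn ℕ I) => ∀ α, α < δ →
        (∀ n, g.ap n < δ) ∧ ∃ n, g.ap n = α) fun δ => by
      obtain ⟨f, hf, h⟩ := hk.le (c δ) (h1 ▸ c_mem_rg δ)
      obtain ⟨g, hg, h'⟩ := exists_fn (α := ℕ) (β := I) hf
      by_cases h0 : ∃ α₀, α₀ < δ
      · obtain ⟨α₀, h0⟩ := h0
        have := @DF.c1 _ _ _ _ _ g _
        refine ⟨MFn.mk fun n => if g n < δ then g n else α₀, fun α hα => ⟨fun n => ?_, ?_⟩⟩
        · rw [MFn.ap_mk]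
          split_ifs with h4
          exacts [h4, h0]
        · obtain ⟨_, h4, h5⟩ := h _ ((h3 _ _).1 hα)
          obtain ⟨n, rfl⟩ := mem_omega.1 h4
          refine ⟨n, ?_⟩
          rw [MFn.ap_mk, h' n α h5, if_pos hα]
      · exact ⟨MFn.mk g, fun α hα => absurd ⟨α, hα⟩ h0⟩
    have := @DF.c1 _ _ _ _ _ g _
    exact ⟨fun δ n => (g δ).ap n, inferInstance, h⟩
  · obtain ⟨g, hg, h⟩ := DF.tm f
    have := In.mk' hg
    obtain ⟨η, h4, h5⟩ := hk.bdd inf_omega (c := img (app g) om) (In.mem _) (fun y hy => by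
      obtain ⟨_, h4, rfl⟩ := mem_img.1 hy
      obtain ⟨n, rfl⟩ := mem_omega.1 h4
      exact h1 ▸ (h n).symm ▸ c_mem_rg _) (le_img _ inferInstance (In.mem _))
    obtain ⟨δ, rfl⟩ := mem_rg.1 (h1 ▸ h4)
    exact ⟨δ, fun n => (h3 _ _).2 (h5 (mem_img.2 ⟨_, num_mem_omega n, h n⟩))⟩

/-! ### countable types -/

/-- countable in the model -/
class Ct (C : Type) [Cd C] : Prop where
  out : ∃ e : C → ℕ, DF e ∧ Function.Injective e

theorem Ct.of_inj [h : Ct β] (i : α → β) [DF i] (hi : Function.Injective i) : Ct α := by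
  obtain ⟨e, he, h⟩ := h
  exact ⟨fun a => e (i a), DF.comp e i, h.comp hi⟩

theorem Ct.of_surj [Ct α] (i : α → β) [DF i] (hi : Function.Surjective i) : Ct β := by
  have := @DF.c1 _ _ _ _ _ i _
  obtain ⟨j, hj, h⟩ := skolem (fun b a => i a = b) hi
  exact Ct.of_inj j (Function.LeftInverse.injective h)

instance : Ct ℕ := ⟨fun n => n, inferInstance, fun _ _ h => h⟩

instance : Ct Bool :=
  Ct.of_inj (fun b => cond b 1 0 : Bool → ℕ) (by intro a b; cases a <;> cases b <;> simp)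

instance [h : Ct α] [h' : Ct β] : Ct (α × β) := by
  obtain ⟨e, he, h⟩ := h
  obtain ⟨e', he', h'⟩ := h'
  have := @DF.c1 _ _ _ _ _ e _
  have := @DF.c1 _ _ _ _ _ e' _
  exact ⟨fun x => Nat.pair (e x.1) (e' x.2), inferInstance, fun x y hxy =>
    Prod.ext (h (Nat.pair_eq_pair.1 hxy).1) (h' (Nat.pair_eq_pair.1 hxy).2)⟩

instance [h : Ct α] : Ct (Option α) := by
  obtain ⟨e, he, h⟩ := h
  have := @DF.c1 _ _ _ _ _ e _
  refine ⟨fun o => o.elim 0 (fun a => e a + 1), inferInstance, fun x y hxy => ?_⟩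
  cases x <;> cases y <;> simp_all [h.eq_iff]

instance [h : Ct α] : Ct (List α) := by
  obtain ⟨e, he, h⟩ := h
  have := @DF.c1 _ _ _ _ _ e _
  have h1 := DF.listRec (fun (_ : ℕ) (l : List α) => l.foldr (fun a r => Nat.pair (e a) r + 1) 0)
    (fun _ => 0) (fun _ a r => Nat.pair (e a) r + 1) (fun _ => rfl) fun _ _ _ => rfl
  refine ⟨fun l => l.foldr (fun a r => Nat.pair (e a) r + 1) 0, @DF.comp _ _ _ _ _ _ _ _ h1
    (fun l => (0, l)) _, fun x => ?_⟩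
  induction x with
  | nil => intro y hy; cases y <;> simp_all
  | cons a l ih =>
    intro y hy
    cases y with
    | nil => simp at hy
    | cons b l' =>
      simp only [List.foldr_cons, Nat.add_right_cancel_iff, Nat.pair_eq_pair] at hy
      rw [h hy.1, ih hy.2]

instance [Ct α] {p : α → Prop} [DP p] : Ct {a // p a} :=
  Ct.of_inj (fun a => a.1) Subtype.val_injective

/-! ### bounded sets -/

variable {I : Type} [LinearOrder I] [Cd I]

instance [h : Om I] : DLt I := h.lt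

instance [Om I] : DLe I := DLe.of_lt

/-- bounded sets -/
def Bd (S : Set I) : Prop := ∃ δ, ∀ β ∈ S, β < δ

theorem Bd.mono {S T : Set I} (h : Bd T) (hS : S ⊆ T) : Bd S :=
  h.imp fun _ h β hβ => h β (hS hβ)

theorem Bd.union {S T : Set I} (h : Bd S) (h' : Bd T) : Bd (S ∪ T) := by
  obtain ⟨δ, h⟩ := h
  obtain ⟨δ', h'⟩ := h'
  exact ⟨max δ δ', fun β hβ => hβ.elim (fun h1 => (h β h1).trans_le (le_max_left _ _))
    fun h1 => (h' β h1).trans_le (le_max_right _ _)⟩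

theorem not_bd_univ : ¬ Bd (Set.univ : Set I) := fun ⟨δ, h⟩ => lt_irrefl δ (h δ trivial)

theorem exists_gt_of_not_bd {J : Set I} (h : ¬ Bd J) (δ : I) : ∃ β ∈ J, δ ≤ β := by
  by_contra h1
  push Not at h1
  exact h ⟨δ, h1⟩

variable [hI : Om I]

instance DP.bd {p : α → I → Prop} [DP (fun x : α × I => p x.1 x.2)] :
    DP (no_index (fun a => Bd {β | p a β})) := by
  have := @DP.c2 _ _ _ _ _ p _
  exact DP.of_iff (fun a => ∃ δ, ∀ β, p a β → β < δ) fun _ => Iff.rfl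

theorem bd_Iic (δ : I) : Bd (Set.Iic δ) := by
  obtain ⟨η, h⟩ := hI.bdd (fun _ => δ) inferInstance
  exact ⟨η, fun β hβ => lt_of_le_of_lt hβ (h 0)⟩

theorem bd_empty : Bd (∅ : Set I) := (bd_Iic hI.ne.some).mono (Set.empty_subset _)

theorem Ct.bdd {C : Type} [Cd C] [h : Ct C] (f : C → I) [DF f] : ∃ δ, ∀ v, f v < δ := by
  obtain ⟨e, he, h⟩ := h
  have := @DF.c1 _ _ _ _ _ e _
  have := @DF.c1 _ _ _ _ _ f _
  have := hI.ne
  obtain ⟨g, hg, h1⟩ := skolem' (fun (n : ℕ) (i : I) => ∃ v, e v = n ∧ f v = i)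
  obtain ⟨δ, h2⟩ := hI.bdd g hg
  refine ⟨δ, fun v => ?_⟩
  obtain ⟨w, h3, h4⟩ := h1 (e v) ⟨_, v, rfl, rfl⟩
  rw [← h h3, h4]
  exact h2 _

theorem Bd.iUnion {C : Type} [Cd C] [Ct C] (p : C → I → Prop) [DP (fun x : C × I => p x.1 x.2)]
    (h : ∀ v, Bd {β | p v β}) : Bd {β | ∃ v, p v β} := by
  have := @DP.c2 _ _ _ _ _ p _
  obtain ⟨f, hf, h1⟩ := skolem (fun v δ => ∀ β, p v β → β < δ) h
  obtain ⟨δ, h2⟩ := Ct.bdd f
  exact ⟨δ, fun β ⟨v, hv⟩ => (h1 v β hv).trans (h2 v)⟩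

theorem Bd.biUnion_le (δ : I) (p : I → I → Prop) [DP (fun x : I × I => p x.1 x.2)]
    (h : ∀ y, y ≤ δ → Bd {β | p y β}) : Bd {β | ∃ y, y ≤ δ ∧ p y β} := by
  obtain ⟨en, he, h1⟩ := hI.en
  obtain ⟨η, h2⟩ := bd_Iic δ
  have := @DP.c2 _ _ _ _ _ p _
  have := @DF.c2 _ _ _ _ _ _ _ en _
  refine (Bd.iUnion (fun (n : ℕ) β => en η n ≤ δ ∧ p (en η n) β) fun n => ?_).mono ?_
  · by_cases h3 : en η n ≤ δ
    · exact (h _ h3).mono fun _ h4 => h4.2
    · exact bd_empty.mono fun _ h4 => h3 h4.1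
  · rintro β ⟨y, h3, h4⟩
    obtain ⟨n, rfl⟩ := (h1 η y (h2 y h3)).2
    exact ⟨n, h3, h4⟩

/-- pigeonhole principle -/
theorem pigeon {C : Type} [Cd C] [Ct C] {J : Set I} (hJ : ¬ Bd J) [DP (fun β => β ∈ J)]
    (R : I → C → Prop) [DP (fun x : I × C => R x.1 x.2)] (h : ∀ β ∈ J, ∃ v, R β v) :
    ∃ v, ¬ Bd {β | β ∈ J ∧ R β v} := by
  have := @DP.c2 _ _ _ _ _ R _
  have := @DP.c1 _ _ _ (fun β => β ∈ J) _
  by_contra h1
  push Not at h1
  exact hJ ((Bd.iUnion (fun v β => β ∈ J ∧ R β v) h1).mono fun β hβ =>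
    (h β hβ).imp fun _ hv => ⟨hβ, hv⟩)

end Pool.Agent.P.MP_f49e60_an.Md
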