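import Pool.Agent.P.MP_f49e60_an.M.Real

/-! The points of the model in a Banach space. -/

set_option linter.unusedSectionVars false
set_option synthInstance.maxSize 100000

namespace Pool.Agent.P.MP_f49e60_an.Md

open Cd Filter Topology

variable [W : World] {α β γ : Type} [Cd α] [Cd β] [Cd γ]

section
variable {f g : α → FF}

instance DF.addF [DF f] [DF g] : DF (no_index (fun x => f x + g x)) :=
  @DF.toFF _ _ _ _ (DR.of_eq (fun x => (f x : ℝ) + g x) fun _ => rfl)

instance DF.subF [DF f] [DF g] : DF (no_index (fun x => f x - g x)) :=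
  @DF.toFF _ _ _ _ (DR.of_eq (fun x => (f x : ℝ) - g x) fun _ => rfl)

instance DF.mulF [DF f] [DF g] : DF (no_index (fun x => f x * g x)) :=
  @DF.toFF _ _ _ _ (DR.of_eq (fun x => (f x : ℝ) * g x) fun _ => rfl)

instance DF.negF [DF f] : DF (no_index (fun x => - f x)) :=
  @DF.toFF _ _ _ _ (DR.of_eq (fun x => - (f x : ℝ)) fun _ => rfl)

instance DF.invF [DF f] : DF (no_index (fun x => (f x)⁻¹)) :=
  @DF.toFF _ _ _ _ (DR.of_eq (fun x => (f x : ℝ)⁻¹) fun _ => rfl)

instance DF.divF [DF f] [DF g] : DF (no_index (fun x => f x / g x)) :=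
  @DF.toFF _ _ _ _ (DR.of_eq (fun x => (f x : ℝ) / g x) fun _ => rfl)

instance DF.ratF {k : α → ℚ} [DF k] : DF (no_index (fun x => (k x : FF))) :=
  @DF.toFF _ _ _ _ (DR.of_eq (fun x => (k x : ℝ)) fun _ => rfl)

instance : DLt FF := ⟨DP.of_iff (fun x => (x.1 : ℝ) < x.2) fun _ => Iff.rfl⟩

instance : DLe FF := ⟨DP.of_iff (fun x => (x.1 : ℝ) ≤ x.2) fun _ => Iff.rfl⟩

end

theorem dense_FF : DenseRange (fun r : FF => (r : ℝ)) :=
  Rat.denseRange_cast.mono (by rintro _ ⟨q, rfl⟩; exact ⟨(q : FF), rfl⟩)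

variable {X : Type} [NormedAddCommGroup X] [NormedSpace ℝ X]

noncomputable instance : NormedSpace FF X := ⟨fun a b => norm_smul_le (a : ℝ) b⟩

theorem FF_smul (r : FF) (x : X) : r • x = (r : ℝ) • x := rfl

/-- `D` is the set of points of the model -/
class MSp (D : Submodule FF X) [Cd D] : Prop where
  dense : Dense (D : Set X)
  add : DF (fun p : D × D => p.1 + p.2)
  smul : DF (fun p : FF × D => p.1 • p.2)
  norm : DR (fun x : D => ‖x‖)
  mem : ∀ x : X, DR (fun a : D => ‖x - a‖) → x ∈ D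

section
variable {D : Submodule FF X} [Cd D] [hD : MSp D] {f g : α → D}

instance DF.addD [DF f] [DF g] : DF (no_index (fun x => f x + g x)) :=
  @DF.c2 _ _ _ _ _ _ _ (fun a b : D => a + b) hD.add _ _ f g _ _

instance DF.smulD {r : α → FF} [DF r] [DF g] : DF (no_index (fun x => r x • g x)) :=
  @DF.c2 _ _ _ _ _ _ _ (fun (a : FF) (b : D) => a • b) hD.smul _ _ r g _ _

instance DF.negD [DF g] : DF (no_index (fun x => - g x)) :=
  DF.of_eq (fun x => (-1 : FF) • g x) fun _ => (neg_one_smul _ _).symm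

instance DF.subD [DF f] [DF g] : DF (no_index (fun x => f x - g x)) :=
  DF.of_eq (fun x => f x + - g x) fun _ => sub_eq_add_neg _ _

instance DR.normD [DF f] : DR (no_index (fun x => ‖f x‖)) := @DR.comp _ _ _ _ _ _ hD.norm f _

instance DR.normD' [DF f] : DR (no_index (fun x => ‖(f x : X)‖)) := DR.normD

instance DR.distD [DF f] [DF g] : DR (no_index (fun x => ‖(f x : X) - g x‖)) :=
  DR.of_eq (fun x => ‖f x - g x‖) fun _ => rfl

theorem MSp.denseRange : DenseRange (fun x : D => (x : X)) := by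
  simpa [DenseRange] using hD.dense

/-- continuous functions on the points of the model -/
theorem DR.of_denseD {Q : Type} [Cd Q] (d : Q → D) [DF d] (hd : DenseRange fun k => (d k : X))
    (G : α → X → ℝ) (hG : ∀ a, Continuous (G a)) [DR (fun x : α × Q => G x.1 (d x.2))] :
    DR (fun p : α × D => G p.1 p.2) := by
  have := @DF.c1 _ _ _ _ _ d _
  have := @DR.c2 _ _ _ _ _ (fun a k => G a (d k)) _
  have : DP (fun x : (α × D) × Q × ℚ => dist (x.1.2 : X) (d x.2.1) < x.2.2) := by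
    simp only [dist_eq_norm]
    infer_instance
  exact DR.of_dense hd (fun p : α × D => (p.2 : X)) (fun p => G p.1) fun p => hG p.1

theorem MSp.lim_mem (u : ℕ → D) [DF u] {x : X} (h : Tendsto (fun n => (u n : X)) atTop (𝓝 x)) :
    x ∈ D := by
  have := @DF.c1 _ _ _ _ _ u _
  exact hD.mem x (DR.lim (fun a n => ‖(u n : X) - a‖) fun a => (h.sub_const _).norm)

end

variable {Γ : Type} [Cd Γ]

/-- rational combinations -/
noncomputable def lc (e : Γ → X) (l : List (ℚ × Γ)) : X := (l.map fun p => (p.1 : ℝ) • e p.2).sum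

omit [Cd Γ] W in
theorem lc_append (e : Γ → X) (l l' : List (ℚ × Γ)) : lc e (l ++ l') = lc e l + lc e l' := by
  simp [lc]

omit [Cd Γ] W in
theorem lc_smul (e : Γ → X) (q : ℚ) (l : List (ℚ × Γ)) :
    lc e (l.map fun p => (q * p.1, p.2)) = (q : ℝ) • lc e l := by
  induction l with
  | nil => simp [lc]
  | cons p l ih =>
    simp only [lc, List.map_cons, List.sum_cons, smul_add] at ih ⊢
    rw [ih, smul_smul, Rat.cast_mul]

omit [Cd Γ] W in
theorem denseRange_lc (e : Γ → X) (h : Dense (Submodule.span ℝ (Set.range e) : Set X)) :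
    DenseRange (lc e) := by
  have h1 : ∀ x ∈ closure (Set.range (lc e)), ∀ y ∈ closure (Set.range (lc e)),
      x + y ∈ closure (Set.range (lc e)) := fun x hx y hy =>
    map_mem_closure₂ continuous_add hx hy (by
      rintro _ ⟨l, rfl⟩ _ ⟨l', rfl⟩
      exact ⟨_, lc_append e l l'⟩)
  have h2 : ∀ (r : ℝ), ∀ x ∈ closure (Set.range (lc e)), r • x ∈ closure (Set.range (lc e)) :=
    fun r x hx => map_mem_closure₂ continuous_smul (Rat.denseRange_cast r) hx (by
      rintro _ ⟨q, rfl⟩ _ ⟨l, rfl⟩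
      exact ⟨_, lc_smul e q l⟩)
  refine fun x => closure_minimal (fun y hy => ?_) isClosed_closure (h x)
  induction hy using Submodule.span_induction with
  | mem y hy =>
    obtain ⟨γ, rfl⟩ := hy
    exact subset_closure ⟨[(1, γ)], by simp [lc]⟩
  | zero => exact subset_closure ⟨[], by simp [lc]⟩
  | add x y _ _ hx hy => exact h1 x hx y hy
  | smul r x _ hx => exact h2 r x hx

theorem exists_msp [CompleteSpace X] (e : Γ → X) (hd : DenseRange (lc e))
    [DR (fun l => ‖lc e l‖)] : ∃ (D : Submodule FF X) (_ : Cd D), MSp D ∧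
      ∃ h : ∀ l, lc e l ∈ D, DF (fun l => (⟨lc e l, h l⟩ : D)) := by
  let Q := List (ℚ × Γ)
  have := @DR.c1 _ _ _ (fun l => ‖lc e l‖) _
  have h0 : DR (fun p : ℚ × Q × Q × Q =>
      ‖(p.1 : ℝ) • lc e p.2.1 + lc e p.2.2.1 - lc e p.2.2.2‖) :=
    DR.of_eq (fun p => ‖lc e ((p.2.1.map fun x => (p.1 * x.1, x.2)) ++ p.2.2.1 ++
      p.2.2.2.map fun x => (-1 * x.1, x.2))‖) fun p => by
        rw [lc_append, lc_append, lc_smul, lc_smul]
        simp [sub_eq_add_neg]
  have h1 : DR (fun p : Q × Q => ‖lc e p.1 - lc e p.2‖) :=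
    (DR.comp _ (fun p : Q × Q => ((0 : ℚ), p.1, p.1, p.2)) (h := h0)).congr fun p => by simp
  have := @DR.c2 _ _ _ _ _ (fun a b => ‖lc e a - lc e b‖) h1
  -- families of points
  have key : ∀ {δ : Type} [Cd δ] (r : δ → ℝ) (x y : δ → X), DR r →
      DR (fun p : δ × Q => ‖x p.1 - lc e p.2‖) → DR (fun p : δ × Q => ‖y p.1 - lc e p.2‖) →
      NI (DR (fun p : δ × Q => ‖r p.1 • x p.1 + y p.1 - lc e p.2‖)) := by
    intro δ _ r x y hr hx hy
    have := @DR.c1 _ _ _ r _
    have := @DR.c2 _ _ _ _ _ (fun a b => ‖x a - lc e b‖) hx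
    have := @DR.c2 _ _ _ _ _ (fun a b => ‖y a - lc e b‖) hy
    have a0 : DR (fun p : (((δ × Q) × ℚ) × Q) × Q =>
        ‖(p.1.1.2 : ℝ) • lc e p.1.2 + lc e p.2 - lc e p.1.1.1.2‖) :=
      DR.comp _ (fun p : (((δ × Q) × ℚ) × Q) × Q => (p.1.1.2, p.1.2, p.2, p.1.1.1.2)) (h := h0)
    have a1 : DP (fun p : (((δ × Q) × ℚ) × Q) × Q × ℚ =>
        dist (y p.1.1.1.1) (lc e p.2.1) < p.2.2) := by
      simp only [dist_eq_norm]
      infer_instance
    have a2 := DR.of_dense hd (fun p : ((δ × Q) × ℚ) × Q => y p.1.1.1)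
      (fun p z => ‖(p.1.2 : ℝ) • lc e p.2 + z - lc e p.1.1.2‖) (fun p => by fun_prop)
    have a3 : DP (fun p : ((δ × Q) × ℚ) × Q × ℚ => dist (x p.1.1.1) (lc e p.2.1) < p.2.2) := by
      simp only [dist_eq_norm]
      infer_instance
    have a4 := DR.of_dense hd (fun p : (δ × Q) × ℚ => x p.1.1)
      (fun p z => ‖(p.2 : ℝ) • z + y p.1.1 - lc e p.1.2‖) (fun p => by fun_prop)
    exact DR.cont (fun (p : δ × Q) t => ‖t • x p.1 + y p.1 - lc e p.2‖) (fun p => by fun_prop)
      (fun p => r p.1)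
  have k0 : ∀ {δ : Type} [Cd δ], DR (fun p : δ × Q => ‖(0 : X) - lc e p.2‖) :=
    DR.of_eq (fun p => ‖lc e p.2‖) (by simp)
  have k1 : ∀ {δ : Type} [Cd δ] {x : X}, DR (fun a : Q => ‖x - lc e a‖) →
      NI (DR (fun p : δ × Q => ‖x - lc e p.2‖)) := fun {δ} _ _ h => DR.comp _ (fun p : δ × Q => p.2) (h := h)
  let D : Submodule FF X :=
    { carrier := {x | DR (fun a : Q => ‖x - lc e a‖)}
      zero_mem' := DR.of_eq (fun p => ‖lc e p‖) (by simp)
      add_mem' := fun {x y} hx hy => (DR.comp _ (fun a : Q => ((0 : ℕ), a))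
        (h := key (fun _ => 1) (fun _ => x) (fun _ => y) inferInstance (k1 hx) (k1 hy))).congr
          fun a => by simp
      smul_mem' := fun r x hx => (DR.comp _ (fun a : Q => ((0 : ℕ), a))
        (h := key (fun _ => r) (fun _ => x) (fun _ => 0) inferInstance (k1 hx) k0)).congr
          fun a => by simp [FF_smul] }
  have hm : ∀ x : D, DR (fun a : Q => ‖(x : X) - lc e a‖) := fun x => x.2
  let i : D → MSet (Q × ℚ) := fun x =>
    have := @DR.c1 _ _ _ _ (hm x)
    MSet.mk fun p => ‖(x : X) - lc e p.1‖ < p.2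
  have hi' : ∀ x p, p ∈ i x ↔ ‖(x : X) - lc e p.1‖ < p.2 := fun _ _ => Iff.rfl
  have hi : Function.Injective i := fun x y h => Subtype.ext (by
    refine eq_of_forall_dist_le fun ε hε => ?_
    obtain ⟨q, h2, h3⟩ := exists_rat_btwn (half_pos hε)
    obtain ⟨a, ha⟩ := hd.exists_dist_lt (x : X) h2
    have h4 : (a, q) ∈ i x := (hi' _ _).2 (by rwa [← dist_eq_norm])
    rw [h, hi', ← dist_eq_norm] at h4
    linarith [dist_triangle_right (x : X) y (lc e a)])
  have hr : DP (fun S => ∃ x, i x = S) := by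
    refine DP.of_iff (fun S => (∀ q : ℚ, 0 < q → ∃ a, (a, q) ∈ S) ∧
      (∀ a q a' q', (a, q) ∈ S → (a', q') ∈ S → ‖lc e a - lc e a'‖ ≤ (q : ℝ) + q') ∧
      ∀ a q, (a, q) ∈ S ↔ ∃ a' q', (a', q') ∈ S ∧ ‖lc e a' - lc e a‖ + q' < q) fun S => ⟨?_, ?_⟩
    · rintro ⟨x, rfl⟩
      simp only [hi', ← dist_eq_norm]
      refine ⟨fun q hq => hd.exists_dist_lt _ (by exact_mod_cast hq), fun a q a' q' h2 h3 => by
        linarith [dist_triangle_left (lc e a) (lc e a') x], fun a q => ⟨fun h => ?_, ?_⟩⟩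
      · obtain ⟨q', h2, h3⟩ := exists_rat_btwn h
        exact ⟨a, q', h2, by simpa using h3⟩
      · rintro ⟨a', q', h2, h3⟩
        linarith [dist_triangle (x : X) (lc e a') (lc e a)]
    · rintro ⟨h2, h3, h4⟩
      choose u hu using fun n : ℕ => h2 (1 / (n + 1)) (by positivity)
      have h5 : Tendsto (fun n : ℕ => (1 : ℝ) / (n + 1)) atTop (𝓝 0) :=
        tendsto_one_div_add_atTop_nhds_zero_nat
      obtain ⟨x, hx⟩ : ∃ x, Tendsto (fun n => lc e (u n)) atTop (𝓝 x) := by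
        refine cauchySeq_tendsto_of_complete (cauchySeq_of_le_tendsto_0
          (fun n : ℕ => 2 * ((1 : ℝ) / (n + 1))) (fun n m N hn hm => ?_) (by simpa using h5.const_mul 2))
        have b1 := h3 _ _ _ _ (hu n) (hu m)
        have b2 := Nat.one_div_le_one_div (α := ℝ) hn
        have b3 := Nat.one_div_le_one_div (α := ℝ) hm
        push_cast at b1
        rw [dist_eq_norm]
        linarith
      have h6 : ∀ a q, (a, q) ∈ S → ‖x - lc e a‖ ≤ q := fun a q h =>
        le_of_tendsto_of_tendsto' (hx.sub_const _).norm (by simpa using h5.add_const (q : ℝ))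
          fun n => by simpa using h3 _ _ _ _ (hu n) h
      have h7 : ∀ a (q : ℚ), ‖x - lc e a‖ < q ↔ (a, q) ∈ S := fun a q => by
        rw [h4]
        constructor
        · intro h
          obtain ⟨n, hn⟩ := (((hx.sub_const (lc e a)).norm.add h5).eventually
            (gt_mem_nhds (by simpa using h))).exists
          exact ⟨u n, _, hu n, by simpa using hn⟩
        · rintro ⟨a', q', b1, b2⟩
          linarith [h6 _ _ b1, norm_sub_le_norm_sub_add_norm_sub x (lc e a') (lc e a)]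
      refine ⟨⟨x, DR.of_iff (fun a q => ∃ q', q < q' ∧ ¬ (a, q') ∈ S) fun a q => ?_⟩,
        MSet.ext fun p => h7 _ _⟩
      simp only [← h7, not_lt]
      refine ⟨fun h => ?_, fun ⟨q', b1, b2⟩ => lt_of_lt_of_le (by exact_mod_cast b1) b2⟩
      obtain ⟨q', b1, b2⟩ := exists_rat_btwn h
      exact ⟨q', by exact_mod_cast b1, b2.le⟩
  let _ : Cd D := Cd.ofInj i hi hr
  have : DF i := DF.of_c fun _ => rfl
  have := @DF.c1 _ _ _ _ _ i _
  have b1 : DR (fun p : D × Q => ‖(p.1 : X) - lc e p.2‖) := by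
    refine DR.of_iff (fun a q => ∃ q', q < q' ∧ ¬ (a.2, q') ∈ i a.1) fun a q => ?_
    simp only [hi', not_lt]
    refine ⟨fun h => ?_, fun ⟨q', b1, b2⟩ => lt_of_lt_of_le (by exact_mod_cast b1) b2⟩
    obtain ⟨q', b1, b2⟩ := exists_rat_btwn h
    exact ⟨q', by exact_mod_cast b1, b2.le⟩
  have := @DR.c2 _ _ _ _ _ (fun (x : D) a => ‖(x : X) - lc e a‖) b1
  have b2 : ∀ {δ : Type} [Cd δ] (f : δ → D), DR (fun p : δ × Q => ‖(f p.1 : X) - lc e p.2‖) →
      NI (DF f) := by
    intro δ _ f hf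
    have := @DR.c2 _ _ _ _ _ (fun a b => ‖(f a : X) - lc e b‖) hf
    have : DF (fun a => i (f a)) :=
      DF.toSet (h := DP.of_iff (fun x => ‖(f x.1 : X) - lc e x.2.1‖ < x.2.2) fun _ => Iff.rfl)
    exact DF.of_inj i hi
  have b3 : ∀ l, lc e l ∈ D := fun l => DR.comp _ (fun a : Q => (l, a)) (h := h1)
  have b4 : DF (fun l => (⟨lc e l, b3 l⟩ : D)) := b2 _ h1
  refine ⟨D, inferInstance, ⟨hd.mono ?_, b2 _ ?_, b2 _ ?_, ?_, fun x hx => ?_⟩, b3, b4⟩
  · rintro _ ⟨l, rfl⟩
    exact b3 l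
  · exact DR.congr (key (fun _ => 1) (fun p : D × D => p.1) (fun p => p.2) inferInstance
      inferInstance inferInstance) fun a => by simp
  · exact DR.congr (key (fun p : FF × D => p.1) (fun p => p.2) (fun _ => 0) inferInstance
      inferInstance k0) fun a => by simp [FF_smul]
  · exact DR.of_eq (fun x : D => ‖(x : X) - lc e []‖) fun x => by simp [lc]
  · exact DR.comp _ (fun l => (⟨lc e l, b3 l⟩ : D)) (h := hx)

end Pool.Agent.P.MP_f49e60_an.Md
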