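import Pool.Agent.P.MP_f49e60_an.M.Ord
import Pool.Agent.P.MP_f49e60_an.M.Defs

/-! Rational numbers, real-valued functions of the model and the field of reals of the model. -/

set_option linter.unusedSectionVars false
set_option synthInstance.maxSize 100000

namespace Pool.Agent.P.MP_f49e60_an.Md

open ZFSet Pool.Agent.P.MP_3ab3de_lc Cd Filter Topology

variable [W : World] {α β γ : Type} [Cd α] [Cd β] [Cd γ]

/-- the value of a triple -/
def tq (t : ℕ × ℕ × ℕ) : ℚ := ((t.1 : ℚ) - t.2.1) / (t.2.2 + 1)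

omit W in
theorem tq_surj : Function.Surjective tq := fun q => by
  refine ⟨(q.num.toNat, (-q.num).toNat, q.den - 1), ?_⟩
  have h1 : ((q.num.toNat : ℚ) - ((-q.num).toNat : ℕ)) = q.num := by
    exact_mod_cast Int.toNat_sub_toNat_neg q.num
  have h2 : ((q.den - 1 : ℕ) : ℚ) + 1 = q.den := by
    exact_mod_cast Nat.sub_add_cancel q.pos
  simp only [tq]
  rw [h1, h2, Rat.num_div_den]

theorem dp_tq : DP (fun x : (ℕ × ℕ × ℕ) × (ℕ × ℕ × ℕ) => tq x.1 < tq x.2) :=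
  DP.of_iff (fun x => x.1.1 * (x.2.2.2 + 1) + x.2.2.1 * (x.1.2.2 + 1) <
      x.2.1 * (x.1.2.2 + 1) + x.1.2.1 * (x.2.2.2 + 1)) fun x => by
    simp only [tq]
    rw [div_lt_div_iff₀ (by positivity) (by positivity), ← Nat.cast_lt (α := ℚ)]
    push_cast
    constructor <;> intro h <;> linarith

/-- the cut of a rational number -/
def ratSet (q : ℚ) : MSet (ℕ × ℕ × ℕ) :=
  ⟨{t | tq t < q}, by
    obtain ⟨s, rfl⟩ := tq_surj q
    exact @DP.comp _ _ _ _ _ _ dp_tq (fun t => (t, s)) _⟩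

theorem ratSet_inj : Function.Injective ratSet := fun q r h => by
  have h1 : ∀ t, tq t < q ↔ tq t < r := fun t => iff_of_eq (congrArg (fun S => t ∈ S) h)
  refine eq_of_forall_lt_iff fun a => ?_
  obtain ⟨t, rfl⟩ := tq_surj a
  exact h1 t

noncomputable instance cdRat : Cd ℚ :=
  Cd.ofInj ratSet ratSet_inj (by
    have := @DP.c2 _ _ _ _ _ (fun s t => tq s < tq t) dp_tq
    refine DP.of_iff (fun S => ∃ s, ∀ t, t ∈ S ↔ tq t < tq s) fun S => ⟨?_, ?_⟩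
    · rintro ⟨q, rfl⟩
      obtain ⟨s, rfl⟩ := tq_surj q
      exact ⟨s, fun _ => Iff.rfl⟩
    · exact fun ⟨s, h⟩ => ⟨tq s, MSet.ext fun t => (h t).symm⟩)

instance DF.tq {f : α → ℕ × ℕ × ℕ} [DF f] : DF (no_index (fun x => tq (f x))) := by
  have := @DP.c2 _ _ _ _ _ (fun s t => Md.tq s < Md.tq t) dp_tq
  have : DF ratSet := DF.of_c fun _ => rfl
  have h : DF (fun s => ratSet (Md.tq s)) :=
    DF.toSet (h := DP.of_iff (fun x => Md.tq x.2 < Md.tq x.1) fun _ => Iff.rfl)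
  have : DF Md.tq := DF.of_inj ratSet ratSet_inj
  exact DF.comp Md.tq f

instance : Ct ℚ := Ct.of_surj (fun t => tq t) tq_surj

instance : DLt ℚ := ⟨by
  have := @DP.c2 _ _ _ _ _ (fun s t => tq s < tq t) dp_tq
  refine DP.of_iff (fun x => ∃ s t, tq s = x.1 ∧ tq t = x.2 ∧ tq s < tq t) fun x => ⟨fun h => ?_, ?_⟩
  · obtain ⟨s, hs⟩ := tq_surj x.1
    obtain ⟨t, ht⟩ := tq_surj x.2
    exact ⟨s, t, hs, ht, hs ▸ ht ▸ h⟩
  · rintro ⟨s, t, hs, ht, h⟩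
    exact hs ▸ ht ▸ h⟩

instance : DLe ℚ := DLe.of_lt

theorem df_rat2 (φ : ℚ → ℚ → ℚ) (k : ℕ × ℕ × ℕ → ℕ × ℕ × ℕ → ℕ × ℕ × ℕ)
    [DF (fun x : (ℕ × ℕ × ℕ) × (ℕ × ℕ × ℕ) => k x.1 x.2)]
    (h : ∀ s t, tq (k s t) = φ (tq s) (tq t)) (f g : α → ℚ) [DF f] [DF g] :
    DF (fun x => φ (f x) (g x)) := by
  have := @DF.c2 _ _ _ _ _ _ _ k _
  have := @DF.c1 _ _ _ _ _ f _
  have := @DF.c1 _ _ _ _ _ g _
  refine DF.of_graph (fun a r => ∃ s t, tq s = f a ∧ tq t = g a ∧ tq (k s t) = r) fun a r =>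
    ⟨fun e => ?_, ?_⟩
  · obtain ⟨s, hs⟩ := tq_surj (f a)
    obtain ⟨t, ht⟩ := tq_surj (g a)
    exact ⟨s, t, hs, ht, by rw [h, hs, ht, e]⟩
  · rintro ⟨s, t, hs, ht, e⟩
    rw [← hs, ← ht, ← h, e]

instance DF.addQ {f g : α → ℚ} [DF f] [DF g] : DF (no_index (fun x => f x + g x)) :=
  df_rat2 (· + ·) (fun s t => (s.1 * (t.2.2 + 1) + t.1 * (s.2.2 + 1),
    s.2.1 * (t.2.2 + 1) + t.2.1 * (s.2.2 + 1), s.2.2 * t.2.2 + s.2.2 + t.2.2)) (fun s t => by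
      simp only [Md.tq]
      push_cast
      rw [div_add_div _ _ (by positivity) (by positivity)]
      congr 1 <;> ring) f g

instance DF.subQ {f g : α → ℚ} [DF f] [DF g] : DF (no_index (fun x => f x - g x)) :=
  df_rat2 (· - ·) (fun s t => (s.1 * (t.2.2 + 1) + t.2.1 * (s.2.2 + 1),
    s.2.1 * (t.2.2 + 1) + t.1 * (s.2.2 + 1), s.2.2 * t.2.2 + s.2.2 + t.2.2)) (fun s t => by
      simp only [Md.tq]
      push_cast
      rw [div_sub_div _ _ (by positivity) (by positivity)]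
      congr 1 <;> ring) f g

instance DF.mulQ {f g : α → ℚ} [DF f] [DF g] : DF (no_index (fun x => f x * g x)) :=
  df_rat2 (· * ·) (fun s t => (s.1 * t.1 + s.2.1 * t.2.1,
    s.1 * t.2.1 + s.2.1 * t.1, s.2.2 * t.2.2 + s.2.2 + t.2.2)) (fun s t => by
      simp only [Md.tq]
      push_cast
      rw [div_mul_div_comm]
      congr 1 <;> ring) f g

instance DF.negQ {f : α → ℚ} [DF f] : DF (no_index (fun x => - f x)) :=
  DF.of_eq (fun x => 0 - f x) fun _ => (zero_sub _).symm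

instance DF.castQ {f : α → ℕ} [DF f] : DF (no_index (fun x => (f x : ℚ))) :=
  DF.of_eq (fun x => Md.tq (f x, 0, 0)) fun _ => by simp [Md.tq]

/-! ### real-valued functions -/

/-- real-valued functions of the model -/
class DR (f : α → ℝ) : Prop where
  out : DP (fun x : α × ℚ => (x.2 : ℝ) < f x.1)

theorem DR.congr {f g : α → ℝ} (h : DR f) (H : ∀ a, g a = f a) : DR g := by
  rwa [funext H]

theorem DR.of_eq {g : α → ℝ} (f : α → ℝ) [h : DR f] (H : ∀ a, g a = f a) : DR g := h.congr H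

theorem DR.of_iff {f : α → ℝ} (p : α → ℚ → Prop) [h : DP (fun x : α × ℚ => p x.1 x.2)]
    (H : ∀ a (q : ℚ), (q : ℝ) < f a ↔ p a q) : DR f := ⟨h.congr fun x => H x.1 x.2⟩

theorem DR.comp (g : β → ℝ) [h : DR g] (f : α → β) [DF f] : DR (fun x => g (f x)) := by
  have := @DF.c1 _ _ _ _ _ f _
  exact ⟨@DP.comp _ _ _ _ _ _ h.out (fun x : α × ℚ => (f x.1, x.2)) _⟩

theorem DR.c1 (k : β → ℝ) [DR k] : ∀ {δ : Type} [Cd δ] (f : δ → β) [DF f],
    DR (fun x => k (f x)) := fun f _ => DR.comp k f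

theorem DR.c2 (k : α → β → ℝ) [DR (fun x : α × β => k x.1 x.2)] :
    ∀ {δ : Type} [Cd δ] (f : δ → α) (g : δ → β) [DF f] [DF g], DR (fun x => k (f x) (g x)) :=
  fun f g _ _ => DR.comp (fun x : α × β => k x.1 x.2) (fun x => (f x, g x))

theorem DR.c3 (k : α → β → γ → ℝ) [DR (fun x : α × β × γ => k x.1 x.2.1 x.2.2)] :
    ∀ {δ : Type} [Cd δ] (f : δ → α) (g : δ → β) (h : δ → γ) [DF f] [DF g] [DF h],
      DR (fun x => k (f x) (g x) (h x)) :=
  fun f g h _ _ _ => DR.comp (fun x : α × β × γ => k x.1 x.2.1 x.2.2) (fun x => (f x, g x, h x))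

instance DR.rat {f : α → ℚ} [DF f] : DR (no_index (fun x => (f x : ℝ))) := by
  have := @DF.c1 _ _ _ _ _ f _
  exact DR.of_iff (fun a q => q < f a) fun _ _ => Rat.cast_lt

instance DR.nat {f : α → ℕ} [DF f] : DR (no_index (fun x => (f x : ℝ))) :=
  DR.of_eq (fun x => ((f x : ℚ) : ℝ)) fun _ => (Rat.cast_natCast _).symm

instance DR.zero : DR (no_index (fun _ : α => (0 : ℝ))) := DR.of_eq (fun _ => ((0 : ℚ) : ℝ)) (by simp)

instance DR.one : DR (no_index (fun _ : α => (1 : ℝ))) := DR.of_eq (fun _ => ((1 : ℚ) : ℝ)) (by simp)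

instance DR.ofNat {n : ℕ} [n.AtLeastTwo] : DR (no_index (fun _ : α => (OfNat.ofNat n : ℝ))) :=
  DR.of_eq (fun _ => ((n : ℕ) : ℝ)) fun _ => rfl

section
variable {f g : α → ℝ}

instance DP.ltR [hf : DR f] [hg : DR g] : DP (no_index (fun x => f x < g x)) := by
  have := @DP.c2 _ _ _ _ _ (fun a (q : ℚ) => (q : ℝ) < f a) hf.out
  have := @DP.c2 _ _ _ _ _ (fun a (q : ℚ) => (q : ℝ) < g a) hg.out
  refine DP.of_iff (fun x => ∃ q : ℚ, ¬ (q : ℝ) < f x ∧ (q : ℝ) < g x) fun x => ⟨fun h => ?_, ?_⟩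
  · obtain ⟨q, h1, h2⟩ := exists_rat_btwn h
    exact ⟨q, not_lt.2 h1.le, h2⟩
  · exact fun ⟨q, h1, h2⟩ => (not_lt.1 h1).trans_lt h2

instance DP.leR [DR f] [DR g] : DP (no_index (fun x => f x ≤ g x)) :=
  DP.of_iff (fun x => ¬ g x < f x) fun _ => not_lt.symm

instance DP.gtR [DR f] [DR g] : DP (no_index (fun x => f x > g x)) := DP.ltR

instance DP.geR [DR f] [DR g] : DP (no_index (fun x => f x ≥ g x)) := DP.leR

instance DP.eqR [DR f] [DR g] : DP (no_index (fun x => f x = g x)) :=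
  DP.of_iff (fun x => f x ≤ g x ∧ g x ≤ f x) fun _ => le_antisymm_iff

instance DP.neR [DR f] [DR g] : DP (no_index (fun x => f x ≠ g x)) := DP.not

instance DR.ite {p : α → Prop} {d : ∀ x, Decidable (p x)} [DP p] [DR f] [DR g] :
    DR (no_index (fun x => @ite _ (p x) (d x) (f x) (g x))) := by
  have := @DP.c1 _ _ _ p _
  have := @DR.c1 _ _ _ f _
  have := @DR.c1 _ _ _ g _
  refine DR.of_iff (fun a q => (p a ∧ (q : ℝ) < f a) ∨ (¬ p a ∧ (q : ℝ) < g a)) fun a b => ?_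
  by_cases h : p a <;> simp [h]

end

/-- continuous functions are determined on a dense set -/
theorem DR.of_dense {Y Q : Type} [PseudoMetricSpace Y] [Cd Q] {d : Q → Y} (hd : DenseRange d)
    (y : α → Y) [DP (fun x : α × Q × ℚ => dist (y x.1) (d x.2.1) < x.2.2)] (g : α → Y → ℝ)
    (hg : ∀ a, Continuous (g a)) [DR (fun x : α × Q => g x.1 (d x.2))] :
    DR (fun a => g a (y a)) := by
  have := @DP.c3 _ _ _ _ _ _ _ (fun a k (q : ℚ) => dist (y a) (d k) < q) _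
  have := @DR.c2 _ _ _ _ _ (fun a k => g a (d k)) _
  refine DR.of_iff (fun a q => ∃ q' δ : ℚ, q < q' ∧ 0 < δ ∧
    ∀ k, dist (y a) (d k) < δ → (q' : ℝ) < g a (d k)) fun a q => ⟨fun h => ?_, ?_⟩
  · obtain ⟨q', h1, h2⟩ := exists_rat_btwn h
    obtain ⟨ε, h3, h4⟩ := Metric.eventually_nhds_iff.1
      ((hg a).continuousAt.eventually (lt_mem_nhds h2))
    obtain ⟨δ, h5, h6⟩ := exists_rat_btwn h3
    exact ⟨q', δ, by exact_mod_cast h1, by exact_mod_cast h5, fun k hk =>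
      h4 (by rw [dist_comm]; exact hk.trans h6)⟩
  · rintro ⟨q', δ, h1, h2, h3⟩
    by_contra h4
    have h5 : g a (y a) < q' := (not_lt.1 h4).trans_lt (by exact_mod_cast h1)
    obtain ⟨k, h6, h7⟩ := hd.exists_mem_open
      (Metric.isOpen_ball.inter (isOpen_lt (hg a) (continuous_const (y := (q' : ℝ)))))
      ⟨y a, Metric.mem_ball_self (ε := δ) (by exact_mod_cast h2), h5⟩
    exact lt_asymm h7 (h3 k (Metric.mem_ball'.1 h6))

theorem DR.cont (φ : α → ℝ → ℝ) (h : ∀ a, Continuous (φ a)) [DR (fun x : α × ℚ => φ x.1 x.2)]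
    (f : α → ℝ) [DR f] : DR (fun a => φ a (f a)) := by
  have := @DR.c1 _ _ _ f _
  have : DP (fun x : α × ℚ × ℚ => dist (f x.1) (x.2.1 : ℝ) < x.2.2) :=
    DP.of_iff (fun x => ((x.2.1 - x.2.2 : ℚ) : ℝ) < f x.1 ∧ f x.1 < ((x.2.1 + x.2.2 : ℚ) : ℝ))
      fun x => by
        rw [Real.dist_eq, abs_lt]
        push_cast
        constructor <;> intro h <;> constructor <;> linarith [h.1, h.2]
  exact DR.of_dense (d := fun q : ℚ => (q : ℝ)) Rat.denseRange_cast f φ h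

theorem DR.cont2 (φ : ℝ → ℝ → ℝ) (h : Continuous fun p : ℝ × ℝ => φ p.1 p.2)
    [DR (fun x : ℚ × ℚ => φ x.1 x.2)] (f g : α → ℝ) [DR f] [DR g] :
    DR (fun a => φ (f a) (g a)) := by
  have := @DR.c1 _ _ _ g _
  have := @DR.c2 _ _ _ _ _ (fun s t : ℚ => φ s t) _
  have := DR.cont (fun (x : α × ℚ) t => φ x.2 t) (fun x => h.comp (Continuous.prodMk_right _))
    (fun x => g x.1)
  exact DR.cont (fun a s => φ s (g a)) (fun a => h.comp (Continuous.prodMk_left _)) f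

section
variable {f g : α → ℝ}

instance DR.add [DR f] [DR g] : DR (no_index (fun x => f x + g x)) :=
  @DR.cont2 _ _ _ (· + ·) (by fun_prop)
    (DR.of_eq (fun x => ((x.1 + x.2 : ℚ) : ℝ)) (by simp)) f g _ _

instance DR.sub [DR f] [DR g] : DR (no_index (fun x => f x - g x)) :=
  @DR.cont2 _ _ _ (· - ·) (by fun_prop)
    (DR.of_eq (fun x => ((x.1 - x.2 : ℚ) : ℝ)) (by simp)) f g _ _

instance DR.mul [DR f] [DR g] : DR (no_index (fun x => f x * g x)) :=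
  @DR.cont2 _ _ _ (· * ·) (by fun_prop)
    (DR.of_eq (fun x => ((x.1 * x.2 : ℚ) : ℝ)) (by simp)) f g _ _

instance DR.neg [DR f] : DR (no_index (fun x => - f x)) :=
  DR.of_eq (fun x => 0 - f x) fun _ => (zero_sub _).symm

instance DR.max [DR f] [DR g] : DR (no_index (fun x => max (f x) (g x))) :=
  DR.of_eq (fun x => if f x ≤ g x then g x else f x) fun _ => max_def _ _

instance DR.min [DR f] [DR g] : DR (no_index (fun x => min (f x) (g x))) :=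
  DR.of_eq (fun x => if f x ≤ g x then f x else g x) fun _ => min_def _ _

instance DR.abs [DR f] : DR (no_index (fun x => |f x|)) :=
  DR.of_eq (fun x => Max.max (f x) (- f x)) fun _ => abs_eq_max_neg

instance DR.inv [DR f] : DR (no_index (fun x => (f x)⁻¹)) := by
  have := @DR.c1 _ _ _ f _
  refine DR.of_iff (fun a q => (f a = 0 ∧ (q : ℝ) < 0) ∨ (0 < f a ∧ q * f a < 1) ∨
    (f a < 0 ∧ 1 < q * f a)) fun a q => ?_
  rcases lt_trichotomy (f a) 0 with h | h | h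
  · rw [inv_eq_one_div, lt_div_iff_of_neg h]
    simp [h, h.ne, h.not_gt]
  · simp [h]
  · rw [inv_eq_one_div, lt_div_iff₀ h]
    simp [h, h.ne', h.not_gt]

instance DR.div [DR f] [DR g] : DR (no_index (fun x => f x / g x)) :=
  DR.of_eq (fun x => f x * (g x)⁻¹) fun _ => div_eq_mul_inv _ _

instance DR.cond {p : α → Bool} [DF p] [DR f] [DR g] : DR (no_index (fun x => cond (p x) (f x) (g x))) :=
  DR.of_eq (fun x => if p x = true then f x else g x) fun x => by cases p x <;> simp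

end

theorem DF.toRat {f : α → ℚ} [DR (fun x => (f x : ℝ))] : DF f := by
  have := @DR.c1 _ _ _ (fun x => (f x : ℝ)) _
  exact DF.of_graph (fun a q => (f a : ℝ) = q) fun _ _ => Rat.cast_inj.symm

instance DF.invQ {f : α → ℚ} [DF f] : DF (no_index (fun x => (f x)⁻¹)) :=
  @DF.toRat _ _ _ _ (DR.of_eq (fun x => (f x : ℝ)⁻¹) (by simp))

instance DF.divQ {f g : α → ℚ} [DF f] [DF g] : DF (no_index (fun x => f x / g x)) :=
  DF.of_eq (fun x => f x * (g x)⁻¹) fun _ => div_eq_mul_inv _ _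

/-- limits of sequences -/
theorem DR.lim {f : α → ℝ} (u : α → ℕ → ℝ) [DR (fun x : α × ℕ => u x.1 x.2)]
    (h : ∀ a, Tendsto (u a) atTop (𝓝 (f a))) : DR f := by
  have := @DR.c2 _ _ _ _ _ u _
  refine DR.of_iff (fun a q => ∃ q' : ℚ, q < q' ∧ ∀ᶠ n in atTop, (q' : ℝ) < u a n) fun a q =>
    ⟨fun h1 => ?_, ?_⟩
  · obtain ⟨q', h2, h3⟩ := exists_rat_btwn h1
    exact ⟨q', by exact_mod_cast h2, (h a).eventually (lt_mem_nhds h3)⟩
  · rintro ⟨q', h1, h2⟩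
    exact lt_of_lt_of_le (by exact_mod_cast h1) (ge_of_tendsto (h a) (h2.mono fun _ => le_of_lt))

/-- infima of upper sets -/
theorem DR.sInf (S : α → Set ℝ) (hS : ∀ a s t, s ∈ S a → s ≤ t → t ∈ S a)
    [DP (fun x : α × ℚ => (x.2 : ℝ) ∈ S x.1)] : DR (fun a => sInf (S a)) := by
  have := @DP.c2 _ _ _ _ _ (fun a (q : ℚ) => (q : ℝ) ∈ S a) _
  refine DR.of_iff (fun a q => (((∀ r : ℚ, (r : ℝ) ∈ S a) ∨ ∀ r : ℚ, ¬ (r : ℝ) ∈ S a) ∧ q < 0) ∨
    ((∃ r : ℚ, (r : ℝ) ∈ S a) ∧ ∃ r : ℚ, q < r ∧ ¬ (r : ℝ) ∈ S a)) fun a q => ?_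
  by_cases h1 : ∀ r : ℚ, (r : ℝ) ∈ S a
  · have h2 : ¬ BddBelow (S a) := fun ⟨b, hb⟩ => by
      obtain ⟨r, hr⟩ := exists_rat_lt b
      exact absurd (hb (h1 r)) (not_le.2 hr)
    rw [Real.sInf_of_not_bddBelow h2]
    simp [h1]
  by_cases h2 : ∀ r : ℚ, ¬ (r : ℝ) ∈ S a
  · have h3 : S a = ∅ := Set.eq_empty_of_forall_notMem fun s hs => by
      obtain ⟨r, hr⟩ := exists_rat_gt s
      exact h2 r (hS a s r hs hr.le)
    simp [h3]
  simp only [h1, h2, false_or, false_and]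
  push Not at h1 h2
  obtain ⟨r₁, h1⟩ := h1
  obtain ⟨r₂, h2⟩ := h2
  have h3 : ∀ r : ℝ, r ∉ S a → r ∈ lowerBounds (S a) := fun r hr s hs =>
    le_of_not_gt fun h => hr (hS a s r hs h.le)
  constructor
  · intro h
    obtain ⟨r, h4, h5⟩ := exists_rat_btwn h
    exact ⟨⟨r₂, h2⟩, r, by exact_mod_cast h4, fun h6 =>
      absurd (csInf_le ⟨_, h3 _ h1⟩ h6) (not_le.2 h5)⟩
  · rintro ⟨-, r, h4, h5⟩
    exact lt_of_lt_of_le (by exact_mod_cast h4) (le_csInf ⟨_, h2⟩ (h3 _ h5))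

/-! ### the field of reals of the model -/

theorem DR.mem' (f : α → ℝ) [h : DR f] (a : α) : DP (fun q : ℚ => (q : ℝ) < f a) :=
  @DP.comp _ _ _ _ _ _ h.out (fun q : ℚ => (a, q)) _

theorem DR.const' {r : ℝ} (h : DP (fun q : ℚ => (q : ℝ) < r)) : DR (fun _ : α => r) :=
  ⟨@DP.comp _ _ _ _ _ _ h (fun x : α × ℚ => x.2) _⟩

/-- the reals of the model -/
def FF : Subfield ℝ where
  carrier := {r | DP (fun q : ℚ => (q : ℝ) < r)}
  zero_mem' := DR.mem' (fun _ : ℕ => 0) 0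
  one_mem' := DR.mem' (fun _ : ℕ => 1) 0
  add_mem' {a b} ha hb := by
    have := DR.const' (α := ℕ) ha
    have := DR.const' (α := ℕ) hb
    exact DR.mem' (fun _ : ℕ => a + b) 0
  mul_mem' {a b} ha hb := by
    have := DR.const' (α := ℕ) ha
    have := DR.const' (α := ℕ) hb
    exact DR.mem' (fun _ : ℕ => a * b) 0
  neg_mem' {a} ha := by
    have := DR.const' (α := ℕ) ha
    exact DR.mem' (fun _ : ℕ => - a) 0
  inv_mem' a ha := by
    have := DR.const' (α := ℕ) ha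
    exact DR.mem' (fun _ : ℕ => a⁻¹) 0

theorem DR.mem (f : α → ℝ) [DR f] (a : α) : f a ∈ FF := DR.mem' f a

/-- constants: `have := @DR.const _ r hr` -/
theorem DR.const {r : ℝ} (h : r ∈ FF) : ∀ {δ : Type} [Cd δ], DR (fun _ : δ => r) := DR.const' h

/-- the cut of a real of the model -/
def realSet (r : FF) : MSet (ℕ × ℕ × ℕ) :=
  ⟨{t | (tq t : ℝ) < r}, @DP.comp _ _ _ _ _ _ r.2 (fun t => tq t) _⟩

theorem realSet_inj : Function.Injective realSet := fun q r h => by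
  have h1 : ∀ t, (tq t : ℝ) < q ↔ (tq t : ℝ) < r := fun t =>
    iff_of_eq (congrArg (fun S => t ∈ S) h)
  refine Subtype.ext (eq_of_forall_rat_lt_iff_lt fun a => ?_)
  obtain ⟨t, rfl⟩ := tq_surj a
  exact h1 t

noncomputable instance cdFF : Cd FF :=
  Cd.ofInj realSet realSet_inj (DP.of_iff (fun S => (∃ t, t ∈ S) ∧ (∃ t, ¬ t ∈ S) ∧
      (∀ s t, t ∈ S → tq s ≤ tq t → s ∈ S) ∧ ∀ t, t ∈ S → ∃ s, s ∈ S ∧ tq t < tq s) fun S => by
    constructor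
    · rintro ⟨r, rfl⟩
      refine ⟨?_, ?_, fun s t ht h => lt_of_le_of_lt (Rat.cast_le.2 h : (tq s : ℝ) ≤ tq t) ht, fun t ht => ?_⟩
      · obtain ⟨q, hq⟩ := exists_rat_lt (r : ℝ)
        obtain ⟨t, rfl⟩ := tq_surj q
        exact ⟨t, hq⟩
      · obtain ⟨q, hq⟩ := exists_rat_gt (r : ℝ)
        obtain ⟨t, rfl⟩ := tq_surj q
        exact ⟨t, not_lt.2 hq.le⟩
      · obtain ⟨q, h1, h2⟩ := exists_rat_btwn (show (tq t : ℝ) < r from ht)
        obtain ⟨s, rfl⟩ := tq_surj q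
        exact ⟨s, h2, by exact_mod_cast h1⟩
    · rintro ⟨⟨t₁, h1⟩, ⟨t₂, h2⟩, h3, h4⟩
      let A : Set ℝ := {y | ∃ t, t ∈ S ∧ (tq t : ℝ) = y}
      have hb : BddAbove A := ⟨tq t₂, by
        rintro _ ⟨t, ht, rfl⟩
        exact_mod_cast le_of_not_gt fun h => h2 (h3 _ _ ht h.le)⟩
      have h5 : ∀ t, (tq t : ℝ) < sSup A ↔ t ∈ S := fun t => by
        rw [lt_csSup_iff hb ⟨_, t₁, h1, rfl⟩]
        constructor
        · rintro ⟨_, ⟨s, hs, rfl⟩, h⟩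
          exact h3 _ _ hs (by exact_mod_cast h.le)
        · intro h
          obtain ⟨s, hs, h⟩ := h4 t h
          exact ⟨_, ⟨s, hs, rfl⟩, by exact_mod_cast h⟩
      refine ⟨⟨sSup A, DP.of_iff (fun q => ∃ t, t ∈ S ∧ tq t = q) fun q => ?_⟩, MSet.ext h5⟩
      obtain ⟨t, rfl⟩ := tq_surj q
      rw [h5]
      exact ⟨fun h => ⟨t, h, rfl⟩, fun ⟨s, hs, e⟩ => h3 _ _ hs e.ge⟩)

instance DR.coe {f : α → FF} [DF f] : DR (no_index (fun x => (f x : ℝ))) := by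
  have : DF realSet := DF.of_c fun _ => rfl
  have := @DF.c1 _ _ _ _ _ realSet _
  have := @DF.c1 _ _ _ _ _ f _
  refine DR.of_iff (fun a q => ∃ t, tq t = q ∧ t ∈ realSet (f a)) fun a q => ?_
  obtain ⟨t, rfl⟩ := tq_surj q
  exact ⟨fun h => ⟨t, rfl, h⟩, fun ⟨s, e, h⟩ => e ▸ h⟩

theorem DF.toFF {f : α → FF} [DR (fun x => (f x : ℝ))] : DF f := by
  have := @DR.c1 _ _ _ (fun x => (f x : ℝ)) _
  exact DF.of_graph (fun a q => (f a : ℝ) = q) fun _ _ => Subtype.ext_iff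

instance DF.mkFF {f : α → ℝ} {h : ∀ x, f x ∈ FF} [DR f] : DF (no_index (fun x => (⟨f x, h x⟩ : FF))) :=
  @DF.toFF _ _ _ _ ‹_›

/-- real recursion -/
theorem DR.natRec (F : α → ℕ → ℝ) (z : α → ℝ) (s : α → ℕ → ℝ → ℝ) [DR z]
    [DR (fun x : α × ℕ × FF => s x.1 x.2.1 x.2.2)] (h0 : ∀ a, F a 0 = z a)
    (hs : ∀ a n, F a (n + 1) = s a n (F a n)) : DR (fun x : α × ℕ => F x.1 x.2) := by
  have h1 := DR.mem (fun x : α × ℕ × FF => s x.1 x.2.1 x.2.2)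
  have h2 : ∀ a n, F a n ∈ FF := fun a n => by
    induction n with
    | zero => exact h0 a ▸ DR.mem z a
    | succ n ih => exact hs a n ▸ h1 (a, n, ⟨_, ih⟩)
  have := DF.natRec (β := FF) (fun a n => ⟨F a n, h2 a n⟩) (fun a => ⟨z a, DR.mem z a⟩)
    (fun a n r => ⟨s a n r, h1 (a, n, r)⟩) (fun a => Subtype.ext (h0 a))
    fun a n => Subtype.ext (hs a n)
  exact DR.coe (f := fun x : α × ℕ => ⟨F x.1 x.2, h2 _ _⟩)

instance DR.pow {f : α → ℝ} {n : α → ℕ} [DR f] [DF n] : DR (no_index (fun x => f x ^ n x)) := by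
  have := @DR.c1 _ _ _ f _
  exact @DR.c2 _ _ _ _ _ (fun a (m : ℕ) => f a ^ m)
    (DR.natRec (fun a (m : ℕ) => f a ^ m) (fun _ => 1) (fun a _ r => r * f a) (fun _ => pow_zero _)
      fun _ _ => pow_succ _ _) _ _ (fun x => x) n _ _

instance DR.sum {n : α → ℕ} {g : α → ℕ → ℝ} [DF n] [DR (fun x : α × ℕ => g x.1 x.2)] :
    DR (no_index (fun x => ∑ i ∈ Finset.range (n x), g x i)) := by
  have := @DR.c2 _ _ _ _ _ g _
  exact @DR.c2 _ _ _ _ _ (fun a m => ∑ i ∈ Finset.range m, g a i)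
    (DR.natRec (fun a m => ∑ i ∈ Finset.range m, g a i) (fun _ => 0) (fun a m r => r + g a m)
      (fun _ => rfl) fun _ _ => Finset.sum_range_succ _ _) _ _ (fun x => x) n _ _

instance DR.elim {f : α → Option β} {g : α → ℝ} {k : α → β → ℝ} [DF f] [DR g]
    [DR (fun x : α × β => k x.1 x.2)] : DR (no_index (fun x => (f x).elim (g x) (fun b => k x b))) := by
  have := @DF.c1 _ _ _ _ _ f _
  have := @DR.c1 _ _ _ g _
  have := @DR.c2 _ _ _ _ _ k _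
  refine DR.of_iff (fun a q => (f a = none ∧ (q : ℝ) < g a) ∨
    ∃ b, f a = some b ∧ (q : ℝ) < k a b) fun a y => ?_
  cases f a <;> simp

instance DR.sumL {l : α → List β} {k : α → β → ℝ} [DF l] [DR (fun x : α × β => k x.1 x.2)] :
    DR (no_index (fun x => ((l x).map (fun b => k x b)).sum)) := by
  have := @DF.c1 _ _ _ _ _ l _
  have := @DR.c2 _ _ _ _ _ k _
  refine DR.of_eq (fun x => ∑ i ∈ Finset.range (l x).length, (l x)[i]?.elim 0 (fun b => k x b))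
    fun x => ?_
  induction l x with
  | nil => simp
  | cons b l ih => rw [List.length_cons, Finset.sum_range_succ']; simp [ih, add_comm]

theorem c_FF (r : FF) : c r = cut r := by
  ext z
  have h : ∀ t : ℕ × ℕ × ℕ, (tq t : ℝ) = ((t.1 : ℝ) - t.2.1) / (t.2.2 + 1) := fun t => by simp [tq]
  have h' : ∀ t : ℕ × ℕ × ℕ, c t = pair (MP_9a7e1f_lc.nm t.1) (pair (MP_9a7e1f_lc.nm t.2.1)
      (MP_9a7e1f_lc.nm t.2.2)) := fun t => by
    simp only [MP_9a7e1f_lc.nm, ← num_toZFSet]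
    rfl
  refine ZFSet.mem_range.trans (Iff.trans ?_ ZFSet.mem_range.symm)
  exact ⟨fun ⟨t, e⟩ => ⟨⟨t.1, h _ ▸ t.2⟩, h' _ ▸ e⟩,
    fun ⟨t, e⟩ => ⟨⟨t.1, show (tq t.1 : ℝ) < r from h _ ▸ t.2⟩, (h' _).trans e⟩⟩

theorem c_nat (n : ℕ) : @c W ℕ _ n = MP_9a7e1f_lc.nm n := num_toZFSet n

theorem mem_cut (r : ℝ) (t : ℕ × ℕ × ℕ) : c t ∈ cut r ↔ (tq t : ℝ) < r := by
  have h : ∀ t : ℕ × ℕ × ℕ, (tq t : ℝ) = ((t.1 : ℝ) - t.2.1) / (t.2.2 + 1) := fun t => by simp [tq]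
  have h' : ∀ t : ℕ × ℕ × ℕ, pair (MP_9a7e1f_lc.nm t.1) (pair (MP_9a7e1f_lc.nm t.2.1)
      (MP_9a7e1f_lc.nm t.2.2)) = c t := fun t => by
    simp only [MP_9a7e1f_lc.nm, ← num_toZFSet]
    rfl
  simp only [cut, ZFSet.mem_range, h', c_inj, h]
  exact ⟨fun ⟨s, e⟩ => e ▸ s.2, fun h => ⟨⟨t, h⟩, rfl⟩⟩

theorem mem_FF {r : ℝ} : r ∈ FF ↔ cut r ∈ W.M := by
  refine ⟨fun h => c_FF ⟨r, h⟩ ▸ c_mem _, fun h => ?_⟩
  have : DP (fun t => (tq t : ℝ) < r) := ⟨_, h, mem_cut r⟩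
  have := @DP.c1 _ _ _ (fun t => (tq t : ℝ) < r) _
  refine DP.of_iff (fun q => ∃ t, tq t = q ∧ (tq t : ℝ) < r) fun q => ?_
  obtain ⟨t, rfl⟩ := tq_surj q
  exact ⟨fun h => ⟨t, rfl, h⟩, fun ⟨s, e, h⟩ => e ▸ h⟩

theorem DR.range_iff {f : α → ℝ} :
    DR f ↔ ZFSet.range (fun a => pair (c a) (cut (f a))) ∈ W.M := by
  have key : ∀ h : ∀ a, f a ∈ FF, DF (fun a => (⟨f a, h a⟩ : FF)) ↔
      ZFSet.range (fun a => pair (c a) (cut (f a))) ∈ W.M := fun h => by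
    simp only [DF.range_iff, c_FF]
  refine ⟨fun h => (key (DR.mem f)).1 inferInstance, fun h => ?_⟩
  have := (key fun a => mem_FF.2 (snd_mem (tr h (ZFSet.mem_range.2 ⟨a, rfl⟩)))).2 h
  exact DR.coe (f := fun a => ⟨f a, _⟩)

end Pool.Agent.P.MP_f49e60_an.Md
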