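import Pool.Agent.P.MP_f49e60_an.Mip
import Pool.Agent.P.MP_f49e60_an.M.Pts

/-! The scattered compact space of an increasing family of sequences (after Todorcevic). -/

set_option linter.unusedSectionVars false

namespace Pool.Agent.P.MP_f49e60_an.Md

open Filter Topology Set

/-- an increasing family of sequences with a coherent family of finite-to-one maps -/
structure Sc (I : Type) [LinearOrder I] where
  f : I → ℕ → ℕ
  e : I → I → ℕ
  mono : ∀ α, Monotone (f α)
  lt : ∀ α β, α < β → ∀ᶠ n in atTop, f α n < f β n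
  fin : ∀ β r, {α | α < β ∧ e β α ≤ r}.Finite
  coh : ∀ β β', β < β' → {α | α < β ∧ e β α ≠ e β' α}.Finite

variable {I : Type} [LinearOrder I]

namespace Sc

variable (s : Sc I)

/-- `α` is a term of the sequence attached to `β`, branching off at level `k` -/
def H (β α : I) (k : ℕ) : Prop :=
  α < β ∧ (∀ j < k, s.f α j = s.f β j) ∧ s.f α k ≠ s.f β k ∧ s.e β α ≤ s.f β k

/-- membership in the basic neighbourhoods -/
inductive Mem : I → I → ℕ → Prop
  | top (β n) : Mem β β n
  | step {t α β n k} : s.H β α k → n ≤ k → Mem t α (k + 1) → Mem t β n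

variable {s}

theorem split {α β : I} (h : α ≠ β) :
    ∃ k, (∀ j < k, s.f α j = s.f β j) ∧ s.f α k ≠ s.f β k := by
  classical
  have h1 : ∃ k, s.f α k ≠ s.f β k := by
    rcases lt_or_gt_of_ne h with h | h
    · exact (s.lt _ _ h).exists.imp fun k hk => hk.ne
    · exact (s.lt _ _ h).exists.imp fun k hk => hk.ne'
  exact ⟨Nat.find h1, fun j hj => not_not.1 (Nat.find_min h1 hj), Nat.find_spec h1⟩

theorem Mem.le {t β : I} {n : ℕ} (h : s.Mem t β n) : t ≤ β := by
  induction h with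
  | top => exact le_rfl
  | step h _ _ ih => exact ih.trans h.1.le

theorem Mem.agree {t β : I} {n : ℕ} (h : s.Mem t β n) : ∀ j < n, s.f t j = s.f β j := by
  induction h with
  | top => exact fun _ _ => rfl
  | step h hn _ ih => exact fun j hj => (ih j (by omega)).trans (h.2.1 j (by omega))

theorem mem_iff {t β : I} {n : ℕ} :
    s.Mem t β n ↔ t = β ∨ ∃ α k, s.H β α k ∧ n ≤ k ∧ s.Mem t α (k + 1) := by
  constructor
  · intro h
    cases h with
    | top => exact Or.inl rfl
    | step h1 h2 h3 => exact Or.inr ⟨_, _, h1, h2, h3⟩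
  · rintro (rfl | ⟨α, k, h1, h2, h3⟩)
    · exact Mem.top _ _
    · exact Mem.step h1 h2 h3

theorem Mem.mono {t β : I} {n n' : ℕ} (h : s.Mem t β n') (hn : n ≤ n') : s.Mem t β n := by
  rcases mem_iff.1 h with rfl | ⟨α, k, h1, h2, h3⟩
  · exact Mem.top _ _
  · exact Mem.step h1 (hn.trans h2) h3

theorem Mem.nhd {t β : I} {n : ℕ} (h : s.Mem t β n) :
    ∀ᶠ m in atTop, ∀ x, s.Mem x t m → s.Mem x β n := by
  induction h with
  | top n => exact (eventually_ge_atTop n).mono fun m hm x hx => hx.mono hm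
  | step h hn _ ih => exact ih.mono fun m hm x hx => Mem.step h hn (hm x hx)

theorem finite_H (β : I) (k : ℕ) : {p : I × ℕ | s.H β p.1 p.2 ∧ p.2 ≤ k}.Finite :=
  ((s.fin β (s.f β k)).prod (finite_Iic k)).subset fun _ hp =>
    ⟨⟨hp.1.1, hp.1.2.2.2.trans (s.mono β hp.2)⟩, hp.2⟩

variable [WellFoundedLT I]

theorem not_mem_nhd {t β : I} {n : ℕ} (h : ¬ s.Mem t β n) :
    ∀ᶠ m in atTop, ∀ x, s.Mem x t m → ¬ s.Mem x β n := by
  induction β using WellFoundedLT.induction generalizing n with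
  | ind β ih =>
    obtain ⟨k, -, hk⟩ := split (s := s) (show t ≠ β from fun h' => h (h' ▸ Mem.top _ _))
    have h1 : ∀ᶠ m in atTop, ∀ p ∈ {p : I × ℕ | s.H β p.1 p.2 ∧ p.2 ≤ k}, n ≤ p.2 →
        ∀ x, s.Mem x t m → ¬ s.Mem x p.1 (p.2 + 1) := by
      rw [eventually_all_finite (finite_H β k)]
      intro p hp
      by_cases hn : n ≤ p.2
      · exact (ih p.1 hp.1.1 fun h' => h (Mem.step hp.1 hn h')).mono fun m hm _ => hm
      · exact Eventually.of_forall fun m h' => absurd h' hn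
    filter_upwards [h1, eventually_gt_atTop k] with m hm hm' x hx hx'
    have h2 := hx.agree k hm'
    rcases mem_iff.1 hx' with rfl | ⟨α, j, h3, h4, h5⟩
    · exact hk h2.symm
    · rcases le_or_gt j k with h6 | h6
      · exact hm (α, j) ⟨h3, h6⟩ h4 x hx h5
      · exact hk (h2.symm.trans ((h5.agree k (by omega)).trans (h3.2.1 k h6)))

open Classical in
/-- the row of a point -/
noncomputable def row (s : Sc I) (t : I) (γ : I × ℕ) : Bool := decide (s.Mem t γ.1 γ.2)

omit [WellFoundedLT I] in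
theorem row_true {t : I} {γ : I × ℕ} : s.row t γ = true ↔ s.Mem t γ.1 γ.2 := by simp [row]

theorem row_nhd (t : I) (S : Finset (I × ℕ)) :
    ∀ᶠ m in atTop, ∀ γ ∈ S, ∀ x, s.Mem x t m → s.row x γ = s.row t γ := by
  rw [eventually_all_finset]
  intro γ _
  by_cases h : s.Mem t γ.1 γ.2
  · exact h.nhd.mono fun m hm x hx => by rw [row_true.2 h, row_true.2 (hm x hx)]
  · exact (not_mem_nhd h).mono fun m hm x hx => by simp [row, h, hm x hx]

/-- the compact space -/
def KS (s : Sc I) : Set (I × ℕ → Bool) := insert (fun _ => false) (range s.row)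

theorem isClosed_KS : IsClosed s.KS := by
  classical
  refine isClosed_of_closure_subset fun ρ hρ => ?_
  have h1 : ∀ S : Set (I × ℕ), S.Finite → ∀ γ₀ ∈ S, ρ γ₀ = true →
      ∃ x, ∀ γ ∈ S, s.row x γ = ρ γ := by
    intro S hS γ₀ h₀ h₀'
    obtain ⟨κ, h2, h3⟩ := mem_closure_iff.1 hρ (⋂ γ ∈ S, {κ | κ γ = ρ γ})
      (hS.isOpen_biInter fun γ _ => (isOpen_discrete {ρ γ}).preimage
        (continuous_apply (A := fun _ => Bool) γ))
      (by simp)
    simp only [mem_iInter, mem_ofPred_eq] at h2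
    rcases h3 with rfl | ⟨x, rfl⟩
    · exact absurd ((h2 γ₀ h₀).trans h₀') (by simp)
    · exact ⟨x, h2⟩
  by_cases h0 : ∃ β n, ρ (β, n) = true
  · obtain ⟨β, ⟨n, hn⟩, hβ⟩ := (wellFounded_lt (α := I)).has_min {β | ∃ n, ρ (β, n) = true} h0
    have h2 : ∀ m, n ≤ m → ρ (β, m) = true := by
      intro m hm
      induction m, hm using Nat.le_induction with
      | base => exact hn
      | succ m _ ih =>
        obtain ⟨x, hx⟩ := h1 (insert (β, m) (insert (β, m + 1)
          ((fun p : I × ℕ => (p.1, p.2 + 1)) '' {p : I × ℕ | s.H β p.1 p.2 ∧ p.2 ≤ m})))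
          ((((finite_H β m).image _).insert _).insert _) _ (mem_insert _ _) ih
        rw [← hx _ (mem_insert_of_mem _ (mem_insert _ _)), row_true]
        rcases mem_iff.1 (row_true.1 ((hx _ (mem_insert _ _)).trans ih)) with
          rfl | ⟨α, j, h3, h4, h5⟩
        · exact Mem.top _ _
        · rcases le_or_gt j m with h6 | h6
          · refine absurd h3.1 (hβ α ⟨j + 1, ?_⟩)
            rw [← hx _ (mem_insert_of_mem _ (mem_insert_of_mem _ ⟨(α, j), ⟨h3, h6⟩, rfl⟩))]
            exact row_true.2 h5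
          · exact Mem.step h3 h6 h5
    refine Or.inr ⟨β, funext fun γ => ?_⟩
    obtain ⟨m, h3, h4⟩ := ((row_nhd (s := s) β {γ}).and (eventually_ge_atTop n)).exists
    obtain ⟨x, hx⟩ := h1 {(β, m), γ} (toFinite _) _ (mem_insert _ _) (h2 m h4)
    rw [← hx γ (by simp)]
    exact (h3 γ (by simp) x (row_true.1 ((hx _ (mem_insert _ _)).trans (h2 m h4)))).symm
  · push Not at h0
    exact Or.inl (funext fun γ => by simpa using h0 γ.1 γ.2)

instance : CompactSpace s.KS := isCompact_iff_compactSpace.1 isClosed_KS.isCompact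

instance : Nonempty s.KS := ⟨⟨_, mem_insert _ _⟩⟩

/-- the columns -/
def col (s : Sc I) (γ : I × ℕ) : C(s.KS, Bool) :=
  ⟨fun κ => κ.1 γ, (continuous_apply γ).comp continuous_subtype_val⟩

theorem iso_KS : Iso (id : s.KS → s.KS) := by
  intro S hS
  by_cases h : ∃ t, ∃ κ ∈ S, κ.1 = s.row t
  · obtain ⟨t, ⟨κ, h1, h2⟩, ht⟩ := (wellFounded_lt (α := I)).has_min
      {t | ∃ κ ∈ S, κ.1 = s.row t} h
    have h3 : ∀ z ∈ s.col (t, 0) ⁻¹' {true} ∩ S, z.1 = s.row t := by
      rintro ⟨z, rfl | ⟨x, rfl⟩⟩ ⟨hz, hz'⟩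
      · exact absurd hz (by simp [col])
      · rw [le_antisymm (row_true.1 hz).le (not_lt.1 (ht x ⟨_, hz', rfl⟩))]
    refine ⟨s.col (t, 0) ⁻¹' {true}, (isOpen_discrete _).preimage (s.col _).continuous,
      ⟨κ, ?_, h1⟩, fun z hz z' hz' => Subtype.ext ((h3 z hz).trans (h3 z' hz').symm)⟩
    change κ.1 (t, 0) = true
    rw [h2]
    exact row_true.2 (Mem.top _ _)
  · push Not at h
    have h3 : ∀ z ∈ S, z.1 = fun _ => false := by
      rintro ⟨z, rfl | ⟨x, rfl⟩⟩ hz
      · rfl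
      · exact absurd rfl (h x _ hz)
    exact ⟨univ, isOpen_univ, by simpa using hS, fun z hz z' hz' =>
      Subtype.ext ((h3 z hz.2).trans (h3 z' hz'.2).symm)⟩

omit [WellFoundedLT I] in
theorem col_sep (i j : I) (h : i ≠ j) : ∃ t, s.col (i, 0) t ≠ s.col (j, 0) t := by
  wlog hij : i < j generalizing i j
  · obtain ⟨t, ht⟩ := this j i h.symm (lt_of_le_of_ne (not_lt.1 hij) h.symm)
    exact ⟨t, ht.symm⟩
  refine ⟨⟨s.row j, Or.inr ⟨j, rfl⟩⟩, fun h1 => ?_⟩
  have h2 : s.row j (i, 0) = s.row j (j, 0) := h1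
  exact absurd (row_true.1 (h2.trans (row_true.2 (Mem.top _ _)))).le (not_le.2 hij)

/-- the points of the compact space -/
noncomputable def pt (s : Sc I) (o : Option I) : s.KS :=
  o.elim ⟨fun _ => false, Or.inl rfl⟩ fun t => ⟨s.row t, Or.inr ⟨t, rfl⟩⟩

omit [WellFoundedLT I] in
theorem pt_surj : Function.Surjective s.pt := by
  rintro ⟨_, rfl | ⟨t, rfl⟩⟩
  exacts [⟨none, rfl⟩, ⟨some t, rfl⟩]

omit [WellFoundedLT I] in
theorem col_pt (γ : I × ℕ) (o : Option I) :
    s.col γ (s.pt o) = o.elim false fun t => s.row t γ := by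
  cases o <;> rfl

end Sc

section
variable {K Γ : Type} [TopologicalSpace K] [CompactSpace K] (c : Γ → C(K, Bool))

/-- the space, as a type of its own -/
def Sp : Type := XX c

noncomputable instance : NormedAddCommGroup (Sp c) := inferInstanceAs (NormedAddCommGroup (XX c))

noncomputable instance : NormedSpace ℝ (Sp c) := inferInstanceAs (NormedSpace ℝ (XX c))

instance : CompleteSpace (Sp c) := inferInstanceAs (CompleteSpace (XX c))

/-- the inclusion into the ambient space -/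
noncomputable def Sp.v : Sp c →L[ℝ] EE (TT K) := (XX c).subtypeL

theorem Sp.norm_v (x : Sp c) : ‖Sp.v c x‖ = ‖x‖ := rfl

theorem Sp.v_mem (x : Sp c) : Sp.v c x ∈ XX c := x.2

/-- the generators -/
noncomputable def Sp.gen (γ : Γ) : Sp c := ⟨dl c γ, dl_mem c γ⟩

theorem Sp.v_gen (γ : Γ) : Sp.v c (Sp.gen c γ) = dl c γ := rfl

/-- the norming functionals -/
noncomputable def Sp.ev (k : KK (TT K)) : Sp c →L[ℝ] ℝ := (evE k).comp (Sp.v c)

theorem Sp.ev_apply (k : KK (TT K)) (x : Sp c) : Sp.ev c k x = evE k (Sp.v c x) := rfl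

theorem Sp.ev_lc (k : KK (TT K)) (l : List (ℚ × Γ)) :
    Sp.ev c k (lc (Sp.gen c) l) = (l.map fun p => (p.1 : ℝ) * evE k (dl c p.2)).sum := by
  induction l with
  | nil => simp [lc]
  | cons p l ih =>
    simp only [lc, List.map_cons, List.sum_cons, map_add, map_smul, smul_eq_mul] at ih ⊢
    rw [ih]
    rfl

theorem Sp.dense_lc : DenseRange (lc (Sp.gen c)) := by
  refine denseRange_lc _ (Metric.dense_iff.2 fun x ε hε => ?_)
  obtain ⟨μ, hμ⟩ := exists_emb c (Sp.v_mem c x) hε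
  refine ⟨Finsupp.linearCombination ℝ (Sp.gen c) μ, ?_, ?_⟩
  · rw [Metric.mem_ball', dist_eq_norm, ← Sp.norm_v, map_sub]
    have h3 := Finsupp.apply_linearCombination ℝ (Sp.v c).toLinearMap (Sp.gen c) μ
    exact h3 ▸ hμ
  · rw [SetLike.mem_coe, ← Finsupp.range_linearCombination]
    exact ⟨μ, rfl⟩

end

end Pool.Agent.P.MP_f49e60_an.Md
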