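import Pool.Agent.P.MP_f49e60_an.M.St

/-! A scale that lies in the model. -/

set_option linter.unusedSectionVars false
set_option synthInstance.maxSize 100000

namespace Pool.Agent.P.MP_f49e60_an.Md

open Filter Topology Set

variable [W : World]

namespace ScaleAux

variable {I : Type} [LinearOrder I] [WellFoundedLT I] [Cd I] [hI : Om I]

theorem coherent : ∃ e : I → I → ℕ, NI (DF (fun x : I × I => e x.1 x.2)) ∧
    (∀ β r, {α | α < β ∧ e β α ≤ r}.Finite) ∧
      ∀ β β', β < β' → {α | α < β ∧ e β α ≠ e β' α}.Finite := by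
  classical
  obtain ⟨en, hd, hen⟩ := hI.en
  have := @DF.c2 _ _ _ _ _ _ _ en hd
  have h0 : ∀ x : I × I, ∃ n, x.2 < x.1 → x.2 ≤ en x.1 n := by
    intro x
    by_cases h : x.2 < x.1
    · obtain ⟨n, hn⟩ := (hen _ _ h).2
      exact ⟨n, fun _ => hn.ge⟩
    · exact ⟨0, fun h' => absurd h' h⟩
  obtain ⟨nf, hnf, hn⟩ : ∃ nf : I × I → ℕ, NI (DF nf) ∧ ∀ δ α, α < δ →
      α ≤ en δ (nf (δ, α)) ∧ ∀ m, α ≤ en δ m → nf (δ, α) ≤ m := by
    refine ⟨fun x => Nat.find (h0 x), ?_, fun δ α h => ⟨Nat.find_spec (h0 (δ, α)) h,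
      fun m hm => Nat.find_min' _ fun _ => hm⟩⟩
    unfold NI
    exact DF.find (p := fun (x : I × I) n => x.2 < x.1 → x.2 ≤ en x.1 n)
  have := @DF.c1 _ _ _ _ _ nf hnf
  obtain ⟨E, hE⟩ := rec_fun (α := I × I) (β := ℕ) (fun x y => x.1 < y.1)
    (InvImage.wf Prod.fst wellFounded_lt)
    (fun E x => if x.2 < x.1 then max (nf x) (E.ap (en x.1 (nf x), x.2)) else 0)
    fun f g x h => by
      split_ifs with h1
      · rw [h (en x.1 (nf x), x.2) ((hen _ _ h1).1 _)]
      · rfl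
  let e : I → I → ℕ := fun δ α => E.ap (δ, α)
  have he : ∀ δ α (h : α < δ), ∃ n, α ≤ en δ n ∧ (∀ m, α ≤ en δ m → n ≤ m) ∧
      e δ α = max n (e (en δ n) α) := by
    intro δ α h
    refine ⟨nf (δ, α), (hn δ α h).1, (hn δ α h).2, ?_⟩
    have := hE (δ, α)
    rw [if_pos h] at this
    exact this
  have hf : ∀ β r, {α | α < β ∧ e β α ≤ r}.Finite := by
    intro β
    induction β using WellFoundedLT.induction with
    | ind β ih =>
      intro r
      rcases (Iio β).eq_empty_or_nonempty with h | ⟨α₀, h⟩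
      · exact finite_empty.subset fun α hα => h ▸ hα.1
      refine ((finite_Iic r).biUnion fun n _ =>
        (ih _ ((hen β α₀ h).1 n) r).insert (en β n)).subset fun α hα => ?_
      obtain ⟨n, h1, -, h3⟩ := he β α hα.1
      have h4 := hα.2
      rw [h3, max_le_iff] at h4
      exact mem_biUnion h4.1 (h1.eq_or_lt.imp id fun h5 => ⟨h5, h4.2⟩)
  refine ⟨e, ?_, hf, fun β β' => ?_⟩
  · unfold NI
    exact DF.of_eq (fun x : I × I => E.ap (x.1, x.2)) fun _ => rfl
  induction β' using WellFoundedLT.induction generalizing β with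
  | ind δ ih =>
    intro h
    obtain ⟨h1, N, hN⟩ := hen δ β h
    have h2 : ∀ n, {α | α < β ∧ α < en δ n ∧ e β α ≠ e (en δ n) α}.Finite := by
      intro n
      rcases lt_trichotomy β (en δ n) with h3 | h3 | h3
      · exact (ih _ (h1 n) β h3).subset fun α hα => ⟨hα.1, hα.2.2⟩
      · exact finite_empty.subset fun α hα => hα.2.2 (by rw [← h3])
      · exact (ih _ h _ h3).subset fun α hα => ⟨hα.2.1, hα.2.2.symm⟩
    refine ((finite_Iic N).biUnion fun n _ =>
      ((h2 n).union (hf (en δ n) n)).insert (en δ n)).subset fun α hα => ?_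
    obtain ⟨n, h3, h4, h5⟩ := he δ α (hα.1.trans h)
    refine mem_biUnion (h4 N (hN ▸ hα.1.le)) (h3.eq_or_lt.imp id fun h6 => ?_)
    rcases le_total (e (en δ n) α) n with h7 | h7
    · exact Or.inr ⟨h6, h7⟩
    · exact Or.inl ⟨hα.1, h6, by rw [← max_eq_right h7, ← h5]; exact hα.2⟩

theorem dominating (g : I → ℕ → ℕ) (hg : DF (fun x : I × ℕ => g x.1 x.2)) :
    ∃ f : I → ℕ → ℕ, NI (DF (fun x : I × ℕ => f x.1 x.2)) ∧ (∀ α, Monotone (f α)) ∧
      (∀ α β, α < β → ∀ᶠ n in atTop, f α n < f β n) ∧ ∀ α n, g α n < f α n := by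
  classical
  obtain ⟨en, hd, hen⟩ := hI.en
  have := @DF.c2 _ _ _ _ _ _ _ en hd
  have := @DF.c2 _ _ _ _ _ _ _ g hg
  obtain ⟨F, hF⟩ := rec_fun (α := I × ℕ) (β := ℕ) (fun x y => x.1 < y.1)
    (InvImage.wf Prod.fst wellFounded_lt)
    (fun F x => (∑ i ∈ Finset.range (x.2 + 1), ∑ j ∈ Finset.range (x.2 + 1),
      if en x.1 i < x.1 then F.ap (en x.1 i, j) else 0) +
        (∑ j ∈ Finset.range (x.2 + 1), g x.1 j) + 1)
    fun f f' x h => by
      congr 2
      refine Finset.sum_congr rfl fun i _ => Finset.sum_congr rfl fun j _ => ?_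
      split_ifs with h1
      · exact h (en x.1 i, j) h1
      · rfl
  refine ⟨fun δ n => F.ap (δ, n), ?_, fun δ m n hmn => ?_, fun α δ h => ?_, fun δ n => ?_⟩
  · unfold NI
    exact DF.of_eq (fun x : I × ℕ => F.ap (x.1, x.2)) fun _ => rfl
  · have h1 : Finset.range (m + 1) ⊆ Finset.range (n + 1) := Finset.range_mono (by omega)
    change F.ap (δ, m) ≤ F.ap (δ, n)
    rw [hF (δ, m), hF (δ, n)]
    refine Nat.succ_le_succ (Nat.add_le_add ?_ (Finset.sum_le_sum_of_subset h1))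
    exact (Finset.sum_le_sum fun i _ => Finset.sum_le_sum_of_subset h1).trans
      (Finset.sum_le_sum_of_subset h1)
  · obtain ⟨h1, i, rfl⟩ := hen δ α h
    filter_upwards [eventually_ge_atTop i] with n hn
    rw [hF (δ, n)]
    refine Nat.lt_succ_of_le (le_trans ?_ (Nat.le_add_right _ _))
    refine le_trans ?_ (Finset.single_le_sum
      (f := fun i => ∑ j ∈ Finset.range (n + 1), if en δ i < δ then F.ap (en δ i, j) else 0)
      (fun _ _ => Nat.zero_le _) (Finset.mem_range.2 (Nat.lt_succ_of_le hn)))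
    refine le_trans ?_ (Finset.single_le_sum
      (f := fun j => if en δ i < δ then F.ap (en δ i, j) else 0) (fun _ _ => Nat.zero_le _)
      (Finset.self_mem_range_succ n))
    exact (if_pos h).ge
  · change g δ n < F.ap (δ, n)
    rw [hF (δ, n)]
    refine Nat.lt_succ_of_le (le_trans ?_ (Nat.le_add_left _ _))
    exact Finset.single_le_sum (f := fun j => g δ j) (fun _ _ => Nat.zero_le _)
      (Finset.self_mem_range_succ n)

end ScaleAux

theorem scale : S_Scale := by
  intro I _ _ _ _ g hg hs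
  obtain ⟨e, he, h1, h2⟩ := ScaleAux.coherent (I := I)
  obtain ⟨f, hf, h3, h4, h5⟩ := ScaleAux.dominating g hg
  refine ⟨⟨f, e, h3, h4, h1, h2⟩, hf, he, fun h hh => ?_⟩
  obtain ⟨α, rfl⟩ := hs h hh
  exact ⟨α, Frequently.of_forall (h5 α)⟩

end Pool.Agent.P.MP_f49e60_an.Md
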