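import Pool.Agent.P.MP_f49e60_an.M.St

/-! Support functions of intersections of half-spaces lie in the model. -/

set_option linter.unusedSectionVars false
set_option synthInstance.maxSize 100000

namespace Pool.Agent.P.MP_f49e60_an.Md

open Filter Topology Set Pool.Agent.P.MP_d06606_an

variable [W : World]

namespace Sg

omit W in
theorem exists_lower {ι R : Type} [LinearOrder R] [Zero R] [One R] (h01 : (0 : R) < 1)
    (f : ι → R) (l : List ι) (h : ∀ i ∈ l, 0 < f i) : ∃ η, 0 < η ∧ ∀ i ∈ l, η ≤ f i := by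
  induction l with
  | nil => exact ⟨1, h01, by simp⟩
  | cons a l ih =>
    obtain ⟨η, h1, h2⟩ := ih fun i hi => h i (List.mem_cons_of_mem _ hi)
    refine ⟨min η (f a), lt_min h1 (h a List.mem_cons_self), fun i hi => ?_⟩
    rcases List.mem_cons.1 hi with rfl | hi
    · exact min_le_right _ _
    · exact (min_le_left _ _).trans (h2 i hi)

variable {X : Type} [NormedAddCommGroup X] [NormedSpace ℝ X] {D : Submodule FF X} [Cd D] [MSp D]
  {K : Type} [TopologicalSpace K] [CompactSpace K] {ev : K → X →L[ℝ] ℝ} {K₀ : Type} [Cd K₀]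
  {κ : K₀ → K}

theorem closed (hev : ∀ x, Continuous fun k => ev k x) (A : MSet (D × ℚ)) :
    IsClosed (Hs D ev A) := by
  simp only [Hs, ofPred_forall]
  exact isClosed_iInter fun p => isClosed_iInter fun _ => isClosed_le (hev _) continuous_const

theorem empty_iff (h : Nrm D ev κ) (A : MSet (D × ℚ)) :
    (Hs D ev A).Nonempty ↔ ¬ ∃ (l : List (D × ℚ)) (η : ℚ), 0 < η ∧ (∀ p, p ∈ l → p ∈ A) ∧
      ∀ k₀, ∃ p, p ∈ l ∧ ((p.2 + η : ℚ) : ℝ) < ev (κ k₀) p.1 := by
  constructor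
  · rintro ⟨k, hk⟩ ⟨l, η, h1, h2, h3⟩
    have h4 : (0 : ℝ) < η := by exact_mod_cast h1
    obtain ⟨ε, h5, h6⟩ := exists_lower one_pos (fun p : D × ℚ => (η : ℝ) / (‖(p.1 : X)‖ + 1)) l
      fun p _ => by positivity
    obtain ⟨k₀, h7⟩ := h.dense k ε h5
    obtain ⟨p, hp, h8⟩ := h3 k₀
    have h9 := abs_le.1 (h7 p.1)
    have h10 := hk p (h2 p hp)
    have h11 := (le_div_iff₀ (by positivity)).1 (h6 p hp)
    push_cast at h8
    nlinarith [h9.1]
  · intro H
    by_contra hne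
    apply H
    let ι := {y : (D × ℚ) × ℚ // y.1 ∈ A ∧ 0 < y.2}
    let U : ι → Set K := fun y => {k | ((y.1.1.2 + y.1.2 : ℚ) : ℝ) < ev k y.1.1.1}
    obtain ⟨t, ht⟩ := isCompact_univ.elim_finite_subcover U
      (fun y => isOpen_lt continuous_const (h.cont _)) fun k _ => by
        have h1 : ¬ ∀ p ∈ A, ev k p.1 ≤ p.2 := fun h1 => hne ⟨k, h1⟩
        push Not at h1
        obtain ⟨p, hp, h1⟩ := h1
        obtain ⟨q, h2, h3⟩ := exists_rat_btwn h1
        have h4 : p.2 < q := by exact_mod_cast h2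
        refine mem_iUnion.2 ⟨⟨(p, q - p.2), hp, sub_pos.2 h4⟩, ?_⟩
        simpa [U] using h3
    obtain ⟨η, h1, h2⟩ := exists_lower one_pos (fun y : ι => y.1.2) t.toList fun y _ => y.2.2
    refine ⟨t.toList.map fun y => y.1.1, η, h1, fun p hp => ?_, fun k₀ => ?_⟩
    · obtain ⟨y, -, rfl⟩ := List.mem_map.1 hp
      exact y.2.1
    · obtain ⟨y, hy, h3⟩ := mem_iUnion₂.1 (ht (mem_univ (κ k₀)))
      have h4 := Finset.mem_toList.2 hy
      refine ⟨y.1.1, List.mem_map.2 ⟨y, h4, rfl⟩, lt_of_le_of_lt ?_ h3⟩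
      exact_mod_cast add_le_add_right (h2 y h4) _

theorem lt_iff (h : Nrm D ev κ) (A : MSet (D × ℚ)) (x : D) (q : ℚ) :
    (q : ℝ) < sg ev (Hs D ev A) x ↔ (¬ (Hs D ev A).Nonempty ∧ q < 0) ∨ ∃ q' : ℚ, q < q' ∧
      ∃ B : MSet (D × ℚ), (∀ p, p ∈ B ↔ p ∈ A ∨ p = (-x, -q')) ∧ (Hs D ev B).Nonempty := by
  by_cases hne : (Hs D ev A).Nonempty
  · simp only [hne, not_true, false_and, false_or]
    constructor
    · intro h1
      obtain ⟨k, hk, h2, -⟩ := sg_spec h.cont (closed h.cont A) hne x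
      obtain ⟨q', h3, h4⟩ := exists_rat_btwn h1
      refine ⟨q', by exact_mod_cast h3, MSet.mk fun p => p ∈ A ∨ p = (-x, -q'),
        fun _ => Iff.rfl, k, fun p hp => ?_⟩
      rcases hp with hp | rfl
      · exact hk p hp
      · simp only [Submodule.coe_neg, map_neg, Rat.cast_neg]
        linarith
    · rintro ⟨q', h1, B, hB, k, hk⟩
      have h2 := hk _ ((hB _).2 (Or.inr rfl))
      have h3 := le_sg h.cont (closed h.cont A) (k := k) (fun p hp => hk p ((hB p).2 (Or.inl hp))) x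
      have h4 : (q : ℝ) < q' := by exact_mod_cast h1
      simp only [Submodule.coe_neg, map_neg, Rat.cast_neg] at h2
      linarith
  · have h1 : sg ev (Hs D ev A) x = 0 := by
      rw [not_nonempty_iff_eq_empty.1 hne, sg, image_empty, Real.sSup_empty]
    rw [h1]
    constructor
    · exact fun h2 => Or.inl ⟨hne, by exact_mod_cast h2⟩
    · rintro (h2 | ⟨q', -, B, hB, k, hk⟩)
      · exact_mod_cast h2.2
      · exact absurd ⟨k, fun p hp => hk p ((hB p).2 (Or.inl hp))⟩ hne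

end Sg

theorem dsg : S_Sg := by
  intro X _ _ D _ _ K _ _ ev K₀ _ κ h
  have := @DR.c2 _ _ _ _ _ (fun k (x : D) => ev (κ k) x) h.dr
  have h1 : DP (fun A => (Hs D ev A).Nonempty) := DP.of_iff _ (Sg.empty_iff h)
  have := @DP.c1 _ _ _ (fun A => (Hs D ev A).Nonempty) h1
  exact ⟨h1, DR.of_iff _ fun a q => Sg.lt_iff h a.1 a.2 q⟩

end Pool.Agent.P.MP_f49e60_an.Md
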