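import Pool.Agent.P.MP_f49e60_an.M.St

/-! The analytic part of the transfinite slicing. -/

namespace Pool.Agent.P.MP_f49e60_an.Md

open Filter Topology Set Pool.Agent.P.MP_d06606_an

theorem slice : S_Slice := by
  intro X _ _ K _ _ ev hev hb O _ _ D C R S E a hD hne hC hR hS hSC hem hRn hRe
  classical
  have hsub : ∀ o, C o ⊆ D := fun o => by rw [hC]; exact inter_subset_left
  have hlt : ∀ {o o'}, o' < o → C o ⊆ R o' := fun {o o'} h => by
    rw [hC]
    exact inter_subset_right.trans (iInter_subset (fun p : Iio o => R p.1) ⟨o', h⟩)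
  refine ⟨fun x => ?_, fun x δ hδ => ?_⟩
  · set A : Set K := D ∩ {k | sg ev D x ≤ ev k x} with hA
    have hAc : IsClosed A := hD.inter (isClosed_le continuous_const (hev x))
    have hAn : A.Nonempty := by
      obtain ⟨k, hk, h1, -⟩ := sg_spec hev hD hne x
      exact ⟨k, hk, h1.le⟩
    have h0 : {o | A ∩ R o = ∅}.Nonempty := by
      obtain ⟨o, ho⟩ := hem
      refine ⟨o, ?_⟩
      have := (hR o).2
      rw [ho] at this
      simp [subset_empty_iff.1 this]
    obtain ⟨o, ho, hmin⟩ := (wellFounded_lt (α := O)).has_min _ h0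
    have h1 : (A ∩ ⋂ p : Iio o, R p.1).Nonempty := by
      refine hAc.isCompact.inter_iInter_nonempty _ (fun p => (hR p.1).1) fun u => ?_
      rcases u.eq_empty_or_nonempty with rfl | hu
      · simpa using hAn
      obtain ⟨p, hp, hmax⟩ := u.exists_max_image (fun p => p.1) hu
      obtain ⟨k, hk1, hk2⟩ : (A ∩ R p.1).Nonempty :=
        nonempty_iff_ne_empty.2 fun he => hmin p.1 he p.2
      refine ⟨k, hk1, mem_iInter₂.2 fun q hq => ?_⟩
      rcases (hmax q hq).lt_or_eq with h | h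
      · exact hlt h ((hR p.1).2 hk2)
      · rw [h]; exact hk2
    obtain ⟨k, hkA, hk⟩ := h1
    have hkC : k ∈ C o := by rw [hC]; exact ⟨hkA.1, hk⟩
    obtain ⟨h1, h2, h3⟩ := hS o
    obtain ⟨-, h4⟩ := hSC o ⟨k, hkC⟩
    have hkS : k ∈ S o := (h4 hkC).resolve_right fun h => by
      have : k ∈ A ∩ R o := ⟨hkA, h⟩
      rw [ho] at this
      exact this
    have e : sg ev (S o) x = sg ev D x :=
      le_antisymm (sg_mono hev h1 h2 hD h3 x) (hkA.2.trans (le_sg hev h1 hkS x))
    refine ⟨o, e, ?_⟩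
    rcases (R o).eq_empty_or_nonempty with h | h
    · obtain ⟨e1, e2, -⟩ := hRe o h
      rw [e1, e2 ⟨k, hkC⟩]
      simp
    · obtain ⟨e1, e2⟩ := hRn o h
      rw [e1, e2, e]
      obtain ⟨k', hk', h5, -⟩ := sg_spec hev (hR o).1 h x
      have h6 : ¬ sg ev D x ≤ ev k' x := fun h7 => by
        have : k' ∈ A ∩ R o := ⟨⟨hsub _ ((hR o).2 hk'), h7⟩, hk'⟩
        rw [ho] at this
        exact this
      linarith [not_le.1 h6]
  · have hbd : ∀ i, |sg ev (S i) x| ≤ ‖x‖ := fun i => by
      obtain ⟨h1, h2, -⟩ := hS i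
      obtain ⟨k, -, h3, -⟩ := sg_spec hev h1 h2 x
      exact h3 ▸ hb k x
    have hCn : ∀ i, δ < sg ev (S i) x - sg ev (E i) x + a i → (C i).Nonempty := by
      intro i h
      by_contra hc
      have hc' : C i = ∅ := not_nonempty_iff_eq_empty.1 hc
      have hr : R i = ∅ := subset_empty_iff.1 (hc' ▸ (hR i).2)
      obtain ⟨e1, -, e2⟩ := hRe i hr
      rw [e1, e2 hc'] at h
      linarith
    have key : ∀ i j, i < j → (C j).Nonempty → δ < sg ev (S i) x - sg ev (E i) x + a i →
        ⌊sg ev (S j) x / δ⌋ < ⌊sg ev (S i) x / δ⌋ := by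
      intro i j hij hj h
      have h1 : (R i).Nonempty := hj.mono (hlt hij)
      obtain ⟨e1, e2⟩ := hRn i h1
      rw [e1, e2] at h
      obtain ⟨h2, h3, -⟩ := hS j
      have h5 := sg_mono hev h2 h3 (hR i).1 ((hSC j hj).1.trans (hlt hij)) x
      rw [← Int.add_one_le_iff, ← Int.floor_add_one]
      refine Int.floor_mono ?_
      rw [div_add_one hδ.ne']
      exact div_le_div_of_nonneg_right (by linarith) hδ.le
    refine Finite.of_finite_image (f := fun i => ⌊sg ev (S i) x / δ⌋)
      ((finite_Icc ⌊-‖x‖ / δ⌋ ⌊‖x‖ / δ⌋).subset ?_) fun i hi j hj he => ?_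
    · rintro _ ⟨i, -, rfl⟩
      have := abs_le.1 (hbd i)
      exact ⟨Int.floor_mono (div_le_div_of_nonneg_right this.1 hδ.le),
        Int.floor_mono (div_le_div_of_nonneg_right this.2 hδ.le)⟩
    · rcases lt_trichotomy i j with h | h | h
      · exact absurd he (key i j h (hCn j hj) hi).ne'
      · exact h
      · exact absurd he (key j i h (hCn i hi) hj).ne

end Pool.Agent.P.MP_f49e60_an.Md
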