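import Pool.Agent.P.MP_f49e60_an.M.St

/-! The points of the model in the space of a scale, with the coded norming family. -/

set_option linter.unusedSectionVars false
set_option synthInstance.maxSize 100000

namespace Pool.Agent.P.MP_f49e60_an.Md

open Filter Topology Set Pool.Agent.P.MP_d06606_an

namespace SpaceAux

variable {I : Type} [LinearOrder I] [WellFoundedLT I]

theorem co_zero (k : K0 I) {n : ℕ} (hn : k.length ≤ n) : k.co n = 0 := by
  simp only [K0.co]
  rw [List.getD_eq_default _ _ hn]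
  simp

theorem co_mem (k : K0 I) :
    k.co ∈ BL ↔ ∑ n ∈ Finset.range k.length, k.co n ^ 2 ≤ 1 := by
  refine ⟨fun h => h _, fun h N => le_trans ?_ h⟩
  rcases le_total N k.length with hN | hN
  · exact Finset.sum_le_sum_of_subset_of_nonneg (Finset.range_mono hN) fun _ _ _ => sq_nonneg _
  · refine (Finset.sum_subset (Finset.range_mono hN) fun n _ hn => ?_).ge
    rw [co_zero k (not_lt.1 fun h => hn (Finset.mem_range.2 h))]
    simp

theorem ofFn_range {β : Type} (m : ℕ) (g : ℕ → β) :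
    List.ofFn (fun i : Fin m => g i) = (List.range m).map g := by
  refine List.ext_getElem (by simp) fun i h1 h2 => by simp

open Classical in
theorem ev_kap (s : Sc I) (k : K0 I) (γ : I × ℕ) :
    evE (s.kap k) (dl s.col γ) =
      if ∑ n ∈ Finset.range k.length, ((k.getD n (0, [], [])).1 : ℝ) ^ 2 ≤ 1 then
        ∑ n ∈ Finset.range k.length, ((k.getD n (0, [], [])).1 : ℝ) * ((1 / 2) ^ n *
          cond (decide ((List.range (4 ^ n)).map (fun i =>
            ((k.getD n (0, [], [])).2.1.getD i none).elim false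
              fun t => decide (s.Mem t γ.1 γ.2)) ∈ (k.getD n (0, [], [])).2.2)) 1 0)
      else 0 := by
  rw [evE_apply]
  by_cases h : k.co ∈ BL
  · have h1 : (s.kap k).1.1 = k.co := by simp only [Sc.kap, dif_pos h]
    refine Eq.trans ?_ (if_pos ((co_mem k).1 h)).symm
    rw [h1, tsum_eq_sum (s := Finset.range k.length) fun n hn => by
      rw [co_zero k (not_lt.1 fun h => hn (Finset.mem_range.2 h)), zero_mul]]
    refine Finset.sum_congr rfl fun n _ => ?_
    rw [dl_apply]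
    simp only [val, Sc.kap, Sc.col_pt, ind]
    rw [ofFn_range (4 ^ n) fun i => ((k.getD n (0, [], [])).2.1.getD i none).elim false
      fun t => s.row t γ]
    rfl
  · have h1 : (s.kap k).1.1 = 0 := by simp only [Sc.kap, dif_neg h]
    refine Eq.trans ?_ (if_neg (fun h' => h ((co_mem k).2 h'))).symm
    rw [h1]
    simp

end SpaceAux

variable [W : World]

theorem space : S_Space := by
  intro hk I _ _ _ s hm
  have := @DP.c3 _ _ _ _ _ _ _ (fun t β n => s.Mem t β n) hm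
  have h1 : DR (fun p : K0 I × (I × ℕ) => evE (s.kap p.1) (dl s.col p.2)) :=
    DR.of_eq _ fun p => SpaceAux.ev_kap s p.1 p.2
  have := @DR.c2 _ _ _ _ _ (fun (k : K0 I) (γ : I × ℕ) => evE (s.kap k) (dl s.col γ)) h1
  have h2 : DR (fun p : K0 I × List (ℚ × (I × ℕ)) =>
      Sp.ev s.col (s.kap p.1) (lc (Sp.gen s.col) p.2)) :=
    DR.of_eq _ fun p => Sp.ev_lc s.col (s.kap p.1) p.2
  have := @DR.c2 _ _ _ _ _ (fun (k : K0 I) (l : List (ℚ × (I × ℕ))) =>
    Sp.ev s.col (s.kap k) (lc (Sp.gen s.col) l)) h2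
  have hle : ∀ k (x : Sp s.col), |Sp.ev s.col k x| ≤ ‖x‖ := fun k x => evE_le k _
  have hno : ∀ x : Sp s.col, ∃ k, ‖x‖ ≤ Sp.ev s.col k x := fun x => evE_norming (Sp.v s.col x)
  have hde : ∀ k, ∀ ε > 0, ∃ k₀, ∀ x : Sp s.col,
      |Sp.ev s.col k x - Sp.ev s.col (s.kap k₀) x| ≤ ε * ‖x‖ := fun k ε hε =>
    (hk I s k ε hε).imp fun k₀ h x => h (Sp.v s.col x)
  have h3 : DR (fun l : List (ℚ × (I × ℕ)) => ‖lc (Sp.gen s.col) l‖) := by
    refine DR.of_iff (fun l q => ∃ k₀ : K0 I,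
      (q : ℝ) < Sp.ev s.col (s.kap k₀) (lc (Sp.gen s.col) l)) fun l q => ⟨fun h => ?_, ?_⟩
    · obtain ⟨k, h4⟩ := hno (lc (Sp.gen s.col) l)
      have h5 := norm_nonneg (lc (Sp.gen s.col) l)
      obtain ⟨k₀, h6⟩ := hde k ((‖lc (Sp.gen s.col) l‖ - q) / (‖lc (Sp.gen s.col) l‖ + 1))
        (div_pos (sub_pos.2 h) (by linarith))
      have h7 := (abs_le.1 (h6 (lc (Sp.gen s.col) l))).2
      have h8 : (‖lc (Sp.gen s.col) l‖ - q) / (‖lc (Sp.gen s.col) l‖ + 1) *
          ‖lc (Sp.gen s.col) l‖ < ‖lc (Sp.gen s.col) l‖ - q := by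
        rw [div_mul_eq_mul_div, div_lt_iff₀ (by linarith)]
        nlinarith
      exact ⟨k₀, by linarith⟩
    · rintro ⟨k₀, h⟩
      exact h.trans_le ((le_abs_self _).trans (hle _ _))
  obtain ⟨D, cd, hD, h, hg⟩ := exists_msp (Sp.gen s.col) (Sp.dense_lc _)
  refine ⟨D, cd, hD, ⟨fun x => evE_cont (Sp.v s.col x), hle, hno, ?_, hde, ?_⟩, h, hg⟩
  · intro S hS hne ε hε
    obtain ⟨O, a1, a2, a3⟩ := frag_evE (T := TT s.KS)
      (fun n => Sc.iso_KS.pi.prod Iso.discrete.pi) S hS hne ε hε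
    exact ⟨O, a1, a2, fun k hk k' hk' x => a3 k hk k' hk' (Sp.v s.col x)⟩
  · exact @DR.of_denseD _ _ _ _ _ _ D _ hD _ _ (fun l => (⟨lc (Sp.gen s.col) l, h l⟩ : D)) hg
      (Sp.dense_lc _) (fun k x => Sp.ev s.col (s.kap k) x) (fun k => (Sp.ev _ _).continuous) h2

end Pool.Agent.P.MP_f49e60_an.Md
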