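import Pool.Agent.P.MP_f49e60_an.M.Sc

/-! Statements of the parts. -/

set_option linter.unusedSectionVars false

namespace Pool.Agent.P.MP_f49e60_an.Md

open Filter Topology Set Pool.Agent.P.MP_d06606_an

variable [W : World]

section scale
variable {I : Type} [LinearOrder I] [WellFoundedLT I] [Cd I]

/-- the family lies in the model and is unbounded there -/
structure Sc.Good (s : Sc I) : Prop where
  df : DF (fun x : I × ℕ => s.f x.1 x.2)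
  de : DF (fun x : I × I => s.e x.1 x.2)
  unb : ∀ g : ℕ → ℕ, DF g → ∃ α, ∃ᶠ n in atTop, g n < s.f α n

/-- the neighbourhoods lie in the model -/
def Sc.DMem (s : Sc I) : Prop := DP (fun x : I × I × ℕ => s.Mem x.1 x.2.1 x.2.2)

/-- the combinatorial core -/
def Sc.Key (s : Sc I) : Prop :=
  ∀ (ι : Type) [Cd ι] [Ct ι] (L : List ι) (J : Set I), DP (fun β => β ∈ J) → ¬ Bd J →
    ∀ x : I → ι → I, DF (fun p : I × ι => x p.1 p.2) →
      (∀ i ∈ L, ∀ δ, Bd {β | β ∈ J ∧ x β i ≤ δ}) → ∀ b : I → I, DF b → ∀ m : ℕ,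
        ∃ α ∈ J, ∃ β ∈ J, α < β ∧ b α < β ∧ ∀ i ∈ L, s.Mem (x α i) (x β i) m

/-- hereditary separability of the powers, in the model -/
def Sc.HSM (s : Sc I) : Prop :=
  ∀ (ι : Type) [Cd ι] [Ct ι] (L : List ι) (J : Set I), DP (fun β => β ∈ J) → ¬ Bd J →
    ∀ t : I → ι → Option I, DF (fun p : I × ι => t p.1 p.2) →
      ∀ S : I → List (I × ℕ), DF S → ∀ b : I → I, DF b →
        ∃ α ∈ J, ∃ β ∈ J, α < β ∧ b α < β ∧
          ∀ i ∈ L, ∀ γ ∈ S β, s.col γ (s.pt (t α i)) = s.col γ (s.pt (t β i))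

/-- codes of points of the norming space -/
abbrev K0 (I : Type) : Type := List (ℚ × List (Option I) × List (List Bool))

/-- the coefficients of a code -/
def K0.co (k : K0 I) (n : ℕ) : ℝ := (k.getD n (0, [], [])).1

open Classical in
/-- the point of a code -/
noncomputable def Sc.kap (s : Sc I) (k : K0 I) : KK (TT s.KS) :=
  (if h : k.co ∈ BL then ⟨k.co, h⟩ else ⟨0, fun N => by simp⟩,
    fun n => (fun i => s.pt ((k.getD n (0, [], [])).2.1.getD i none),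
      fun p => decide (List.ofFn p ∈ (k.getD n (0, [], [])).2.2)))

/-- the rational combinations of generators are points of `D` -/
def Sc.Gen (s : Sc I) (D : Submodule FF (Sp s.col)) [Cd D] : Prop :=
  ∃ h : ∀ l, lc (Sp.gen s.col) l ∈ D, DF (fun l => (⟨lc (Sp.gen s.col) l, h l⟩ : D))

end scale

section space
variable {X : Type} [NormedAddCommGroup X] [NormedSpace ℝ X] (D : Submodule FF X) [Cd D]
  {K : Type} [TopologicalSpace K] [CompactSpace K] (ev : K → X →L[ℝ] ℝ) {K₀ : Type} [Cd K₀]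
  (κ : K₀ → K)

/-- a norming compact family of functionals with a coded norm dense part -/
structure Nrm : Prop where
  cont : ∀ x, Continuous fun k => ev k x
  le : ∀ k h, |ev k h| ≤ ‖h‖
  norming : ∀ x, ∃ k, ‖x‖ ≤ ev k x
  frag : Frag ev
  dense : ∀ k, ∀ ε > 0, ∃ k₀, ∀ x, |ev k x - ev (κ k₀) x| ≤ ε * ‖x‖
  dr : DR (fun p : K₀ × D => ev (κ p.1) p.2)

/-- norming functionals of seminorms are controlled by finitely many codes -/
def Ctrl : Prop :=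
  ∀ (N : Seminorm FF D) (b : ℝ), (∀ x, N x ≤ b * ‖x‖) → ∀ u, N u = 1 → ∀ ε : ℝ, 0 < ε →
    ∃ (l : List K₀) (η : ℚ), 0 < η ∧ ∀ (s t : FF) (h : D), 0 ≤ s → 0 ≤ t → ‖h‖ ≤ 1 →
      (∀ k ∈ l, |ev (κ k) h| < η) → (s : ℝ) - t * ε ≤ N (s • u - t • h)

/-- long families of lists of codes have members approximated by earlier ones -/
def Close (k₀ : K₀) (I : Type) [LinearOrder I] [Cd I] : Prop :=
  ∀ J : Set I, DP (fun β => β ∈ J) → ¬ Bd J → ∀ k : I → List K₀, DF k → ∀ u : I → D, DF u →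
    ∀ b : I → I, DF b → ∀ η : ℝ, 0 < η → ∃ α ∈ J, ∃ β ∈ J, α < β ∧ b α < β ∧
      ∀ j : ℕ, |ev (κ ((k α).getD j k₀)) (u β) - ev (κ ((k β).getD j k₀)) (u β)| < η

/-- a long family of functionals that vanish eventually at every point -/
def Van (I : Type) [LinearOrder I] [Cd I] : Prop :=
  ∃ (ψ : I → K₀) (z : I → D), DF ψ ∧ DF z ∧ (∀ j, ‖z j‖ ≤ 2 ∧ ev (κ (ψ j)) (z j) = 1) ∧
    ∀ x : D, ∃ δ, ∀ j, δ < j → ev (κ (ψ j)) x = 0

/-- no equivalent norm of the model has the intersection property in the model -/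
def NoMip : Prop :=
  ¬ ∃ N : Seminorm FF D, DR (fun x => N x) ∧
    (∃ a b : ℝ, 0 < a ∧ 0 < b ∧ ∀ x, a * ‖x‖ ≤ N x ∧ N x ≤ b * ‖x‖) ∧
    ∀ C : Set D, DP (fun x => x ∈ C) → Convex FF C → IsClosed C → Bornology.IsBounded C →
      ∀ z, z ∉ C → ∃ (x : D) (r : ℝ), C ⊆ {y | N (y - x) ≤ r} ∧ r < N (z - x)

/-- the intersection of a set of half-spaces -/
def Hs (A : MSet (D × ℚ)) : Set K := {k | ∀ p ∈ A, ev k p.1 ≤ p.2}

/-- support functions of intersections of half-spaces are in the model -/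
def DSg : Prop :=
  DP (fun A => (Hs D ev A).Nonempty) ∧ DR (fun p : MSet (D × ℚ) × D => sg ev (Hs D ev p.1) p.2)

/-- a system that lies in the model -/
def DSys (s : Sys X) [Cd s.N] (O : Type) [Cd O] (e : ∀ n, O ≃ s.I n) : Prop :=
  DF (fun p : s.N × O => s.S p.1 (e p.1 p.2)) ∧ DF (fun p : s.N × O => s.E p.1 (e p.1 p.2)) ∧
    DR (fun p : s.N × O => s.a p.1 (e p.1 p.2)) ∧ DR (fun p : s.N × D => s.σ p.1 p.2)

/-- a smooth bump whose restriction to `D` lies in the model -/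
def Bump : Prop :=
  ∃ (b : D → ℝ) (b' : D → D →L[FF] ℝ), DR b ∧ DR (fun p : D × D => b' p.1 p.2) ∧
    (∀ x, ∀ ε > 0, ∃ δ > 0, ∀ h, ‖h‖ < δ → |b (x + h) - b x - b' x h| ≤ ε * ‖h‖) ∧
    (∀ x, ∀ ε > 0, ∃ δ > 0, ∀ y, ‖y - x‖ < δ → ∀ h, |b' y h - b' x h| ≤ ε * ‖h‖) ∧
    b ≠ 0 ∧ Bornology.IsBounded (Function.support b)

end space

/-! ### the parts -/

def S_Scale : Prop := ∀ (I : Type) [LinearOrder I] [WellFoundedLT I] [Cd I] [Om I]
  (g : I → ℕ → ℕ), DF (fun x : I × ℕ => g x.1 x.2) → (∀ h : ℕ → ℕ, DF h → ∃ α, g α = h) →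
  ∃ s : Sc I, s.Good

def S_Mem : Prop := ∀ (I : Type) [LinearOrder I] [WellFoundedLT I] [Cd I] [Om I] (s : Sc I),
  s.Good → s.DMem

def S_Key : Prop := ∀ (I : Type) [LinearOrder I] [WellFoundedLT I] [Cd I] [Om I] (s : Sc I),
  s.Good → s.Key

def S_HS : Prop := ∀ (I : Type) [LinearOrder I] [WellFoundedLT I] [Cd I] [Om I] (s : Sc I),
  s.DMem → s.Key → s.HSM

omit W in
def S_Kap : Prop := ∀ (I : Type) [LinearOrder I] [WellFoundedLT I] (s : Sc I)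
  (k : KK (TT s.KS)), ∀ ε > 0, ∃ k₀ : K0 I, ∀ x : EE (TT s.KS),
    |evE k x - evE (s.kap k₀) x| ≤ ε * ‖x‖

def S_Space : Prop := S_Kap → ∀ (I : Type) [LinearOrder I] [WellFoundedLT I] [Cd I] (s : Sc I),
  s.DMem → ∃ (D : Submodule FF (Sp s.col)) (_ : Cd D), MSp D ∧ Nrm D (Sp.ev s.col) s.kap ∧ s.Gen D

def S_Ctrl : Prop := ∀ (X : Type) [NormedAddCommGroup X] [NormedSpace ℝ X] (D : Submodule FF X)
  [Cd D] [MSp D] (K : Type) [TopologicalSpace K] [CompactSpace K] [T2Space K]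
  (ev : K → X →L[ℝ] ℝ) (K₀ : Type) [Cd K₀] (κ : K₀ → K), Nrm D ev κ → Ctrl D ev κ

def S_Close : Prop := ∀ (I : Type) [LinearOrder I] [WellFoundedLT I] [Cd I] [Om I] (s : Sc I)
  (D : Submodule FF (Sp s.col)) [Cd D] [MSp D], s.HSM → s.Gen D → Close D (Sp.ev s.col) s.kap [] I

def S_Van : Prop := ∀ (I : Type) [LinearOrder I] [WellFoundedLT I] [Cd I] [Om I] (s : Sc I)
  (D : Submodule FF (Sp s.col)) [Cd D] [MSp D], s.Gen D → Van D (Sp.ev s.col) s.kap I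

def S_NoMip : Prop := ∀ (X : Type) [NormedAddCommGroup X] [NormedSpace ℝ X] (D : Submodule FF X)
  [Cd D] [MSp D] (K : Type) [TopologicalSpace K] [CompactSpace K] (ev : K → X →L[ℝ] ℝ)
  (K₀ : Type) [Cd K₀] (κ : K₀ → K) (k₀ : K₀) (I : Type) [LinearOrder I] [Cd I] [Om I],
  Nrm D ev κ → Ctrl D ev κ → Close D ev κ k₀ I → Van D ev κ I → NoMip D

def S_Sg : Prop := ∀ (X : Type) [NormedAddCommGroup X] [NormedSpace ℝ X] (D : Submodule FF X)
  [Cd D] [MSp D] (K : Type) [TopologicalSpace K] [CompactSpace K] (ev : K → X →L[ℝ] ℝ)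
  (K₀ : Type) [Cd K₀] (κ : K₀ → K), Nrm D ev κ → DSg D ev

omit W in
def S_Slice : Prop := ∀ (X : Type) [NormedAddCommGroup X] [NormedSpace ℝ X] (K : Type)
  [TopologicalSpace K] [CompactSpace K] (ev : K → X →L[ℝ] ℝ), (∀ x, Continuous fun k => ev k x) →
  (∀ k h, |ev k h| ≤ ‖h‖) → ∀ (O : Type) [LinearOrder O] [WellFoundedLT O] (D : Set K)
  (C R S E : O → Set K) (a : O → ℝ), IsClosed D → D.Nonempty →
  (∀ o, C o = D ∩ ⋂ p : Iio o, R p.1) → (∀ o, IsClosed (R o) ∧ R o ⊆ C o) →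
  (∀ o, IsClosed (S o) ∧ (S o).Nonempty ∧ S o ⊆ D) →
  (∀ o, (C o).Nonempty → S o ⊆ C o ∧ C o ⊆ S o ∪ R o) → (∃ o, C o = ∅) →
  (∀ o, (R o).Nonempty → E o = R o ∧ a o = 0) →
  (∀ o, R o = ∅ → E o = S o ∧ ((C o).Nonempty → a o = 1) ∧ (C o = ∅ → a o = 0)) →
  (∀ x, ∃ o, sg ev (S o) x = sg ev D x ∧ 0 < sg ev (S o) x - sg ev (E o) x + a o) ∧
    ∀ x δ, 0 < δ → {o | δ < sg ev (S o) x - sg ev (E o) x + a o}.Finite

def S_Sys : Prop := S_Slice → ∀ (X : Type) [NormedAddCommGroup X] [NormedSpace ℝ X]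
  (D : Submodule FF X) [Cd D] [MSp D] (K : Type) [TopologicalSpace K] [CompactSpace K]
  (ev : K → X →L[ℝ] ℝ) (K₀ : Type) [Cd K₀] (κ : K₀ → K), Nrm D ev κ → DSg D ev →
  ∃ (s : Sys X) (_ : Cd s.N) (O : Type) (_ : Cd O) (e : ∀ n, O ≃ s.I n) (n₀ : s.N),
    DSys D s O e ∧ ∀ x, s.σ n₀ x = ‖x‖

def S_Fix : Prop := ∀ (X : Type) [NormedAddCommGroup X] [NormedSpace ℝ X] (D : Submodule FF X)
  [Cd D] (s : Sys X) [Cd s.N] (O : Type) [Cd O] (e : ∀ n, O ≃ s.I n) (n₀ : s.N), DSys D s O e →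
  ∃ G : X → ℝ, (∀ x, s.σ n₀ x - 1 ≤ G x ∧ G x ≤ s.σ n₀ x) ∧ (∀ x, ∃ ξ, LA G ξ x 0) ∧
    DR (fun x : D => G x)

def S_Bump : Prop := ∀ (X : Type) [NormedAddCommGroup X] [NormedSpace ℝ X] (D : Submodule FF X)
  [Cd D] [MSp D] (G : X → ℝ), (∀ x, ‖x‖ - 1 ≤ G x ∧ G x ≤ ‖x‖) → (∀ x, ∃ ξ, LA G ξ x 0) →
  DR (fun x : D => G x) → Bump D

def S_NoC0 : Prop := ∀ (K Γ : Type) [TopologicalSpace K] [CompactSpace K] [Nonempty K]
  (c : Γ → C(K, Bool)) (D : Submodule FF (Sp c)),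
  ∃ Z : Submodule FF (ZeroAtInftyContinuousMap ℕ ℝ), (∀ u, u ∈ Z ↔ DR (fun n => u n)) ∧
    ¬ ∃ T : Z →L[FF] D, ∃ a : ℝ, 0 < a ∧ ∀ u, a * ‖u‖ ≤ ‖T u‖

end Pool.Agent.P.MP_f49e60_an.Md
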