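import Pool.Agent.P.MP_f49e60_an.M.St

/-! Transfinite slicing inside the model. -/

set_option linter.unusedSectionVars false
set_option synthInstance.maxSize 100000

namespace Pool.Agent.P.MP_f49e60_an.Md

open Filter Topology Set Pool.Agent.P.MP_d06606_an

variable [W : World]

namespace SysM

variable {X : Type} [NormedAddCommGroup X] [NormedSpace ℝ X] {D : Submodule FF X} [Cd D] [MSp D]
  {K : Type} [TopologicalSpace K] [CompactSpace K] {ev : K → X →L[ℝ] ℝ}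

/-- adding a half-space -/
noncomputable def ins (A : MSet (D × ℚ)) (η : D × ℚ) : MSet (D × ℚ) := MSet.mk fun p => p ∈ A ∨ p = η

instance {α : Type} [Cd α] {A : α → MSet (D × ℚ)} {η : α → D × ℚ} [DF A] [DF η] :
    DF (no_index (fun x => ins (A x) (η x))) := by
  have := @DF.c1 _ _ _ _ _ A _
  have := @DF.c1 _ _ _ _ _ η _
  exact DF.toSet (h := DP.of_iff (fun x => x.2 ∈ A x.1 ∨ x.2 = η x.1) fun _ => Iff.rfl)

theorem hs_ins (A : MSet (D × ℚ)) (η : D × ℚ) :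
    Hs D ev (ins A η) = Hs D ev A ∩ {k | ev k η.1 ≤ η.2} := by
  ext k
  exact ⟨fun h => ⟨fun p hp => h p (Or.inl hp), h η (Or.inr rfl)⟩,
    fun h p hp => hp.elim (h.1 p) fun e => e ▸ h.2⟩

theorem hs_closed (hev : ∀ x, Continuous fun k => ev k x) (A : MSet (D × ℚ)) :
    IsClosed (Hs D ev A) := by
  simp only [Hs, ofPred_forall]
  exact isClosed_iInter fun p => isClosed_iInter fun _ => isClosed_le (hev _) continuous_const

/-- small diameter -/
def Sm (ev : K → X →L[ℝ] ℝ) (S : Set K) (d : ℝ) : Prop :=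
  ∀ k ∈ S, ∀ k' ∈ S, ∀ h, |ev k h - ev k' h| ≤ d * ‖h‖

theorem sm_iff (hev : ∀ x, Continuous fun k => ev k x) {S : Set K} (hS : IsClosed S)
    (hne : S.Nonempty) (d : ℝ) :
    Sm ev S d ↔ ∀ h : D, sg ev S h + sg ev S (-h : D) ≤ d * ‖h‖ := by
  constructor
  · intro H h
    obtain ⟨k, hk, h1, -⟩ := sg_spec hev hS hne h
    obtain ⟨k', hk', h2, -⟩ := sg_spec hev hS hne (-h : D)
    rw [h1, h2, Submodule.coe_neg, map_neg]
    exact (le_abs_self _).trans (H k hk k' hk' h)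
  · intro H k hk k' hk' h
    refine (MSp.denseRange (D := D)).induction_on h
      (isClosed_le (by fun_prop) (by fun_prop)) fun h => ?_
    have h1 := H h
    have h2 := le_sg hev hS hk h
    have h3 := le_sg hev hS hk' h
    have h4 := le_sg hev hS hk (-h : D)
    have h5 := le_sg hev hS hk' (-h : D)
    rw [Submodule.coe_neg, map_neg] at h4 h5
    rw [Submodule.coe_neg] at h1
    rw [abs_le]
    exact ⟨by change -(d * ‖h‖) ≤ _; linarith, by change _ ≤ d * ‖h‖; linarith⟩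

/-- nonempty with small diameter -/
def Ok (ev : K → X →L[ℝ] ℝ) (A : MSet (D × ℚ)) (d : ℚ) : Prop :=
  (Hs D ev A).Nonempty ∧ Sm ev (Hs D ev A) d

theorem dp_ok (hev : ∀ x, Continuous fun k => ev k x) (h : DSg D ev) :
    DP (fun x : MSet (D × ℚ) × ℚ => Ok ev x.1 x.2) := by
  have := @DP.c1 _ _ _ (fun A => (Hs D ev A).Nonempty) h.1
  have := @DR.c2 _ _ _ _ _ (fun A (x : D) => sg ev (Hs D ev A) x) h.2
  exact DP.of_iff (fun x => (Hs D ev x.1).Nonempty ∧ ∀ h : D, sg ev (Hs D ev x.1) h +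
    sg ev (Hs D ev x.1) (-h : D) ≤ x.2 * ‖h‖) fun x =>
      and_congr_right fun h => sm_iff hev (hs_closed hev _) h _

theorem exists_ch (hev : ∀ x, Continuous fun k => ev k x) (hb : ∀ k h, |ev k h| ≤ ‖h‖)
    (hd : Dent ev) (h : DSg D ev) : ∃ ch : MSet (D × ℚ) → ℚ → D × ℚ,
      DF (fun x : MSet (D × ℚ) × ℚ => ch x.1 x.2) ∧ ∀ A (ε : ℚ), (Hs D ev A).Nonempty → 0 < ε →
        (∃ k ∈ Hs D ev A, ((ch A ε).2 : ℝ) < ev k (ch A ε).1) ∧
          Ok ev (ins A (-(ch A ε).1, -(ch A ε).2)) ε := by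
  have := @DR.c2 _ _ _ _ _ (fun A (x : D) => sg ev (Hs D ev A) x) h.2
  have := @DP.c2 _ _ _ _ _ (fun A d => Ok (D := D) ev A d) (dp_ok hev h)
  obtain ⟨ch, h1, h2⟩ := skolem' (fun (x : MSet (D × ℚ) × ℚ) (η : D × ℚ) =>
    (η.2 : ℝ) < sg ev (Hs D ev x.1) η.1 ∧ Ok ev (ins x.1 (-η.1, -η.2)) x.2)
  refine ⟨fun A ε => ch (A, ε), h1, fun A ε hA hε => ?_⟩
  have hc := hs_closed hev A
  obtain ⟨h3, h4⟩ := h2 (A, ε) (by
    obtain ⟨x, τ, hτ, H⟩ := hd _ hc hA ε (by exact_mod_cast hε)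
    obtain ⟨x', hx'⟩ := (MSp.denseRange (D := D)).exists_dist_lt x (show 0 < τ / 8 by linarith)
    obtain ⟨q, q1, q2⟩ := exists_rat_btwn
      (show sg ev (Hs D ev A) x - 7 * τ / 8 < sg ev (Hs D ev A) x - τ / 8 by linarith)
    have a1 : ∀ k, |ev k x - ev k x'| < τ / 8 := fun k => by
      rw [← map_sub]
      exact (hb k _).trans_lt (by rwa [← dist_eq_norm])
    obtain ⟨k, hk, a2, -⟩ := sg_spec hev hc hA x
    have a3 : (q : ℝ) < ev k x' := by linarith [(abs_lt.1 (a1 k)).2]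
    have a4 : ∀ k, k ∈ Hs D ev (ins A (-x', -q)) ↔ k ∈ Hs D ev A ∧ (q : ℝ) ≤ ev k x' := by
      simp [hs_ins]
    refine ⟨(x', q), a3.trans_le (le_sg hev hc hk _), ⟨k, (a4 k).2 ⟨hk, a3.le⟩⟩,
      fun k hk k' hk' => ?_⟩
    rw [a4] at hk hk'
    exact H k hk.1 k' hk'.1 (by linarith [(abs_lt.1 (a1 k)).1, hk.2])
      (by linarith [(abs_lt.1 (a1 k')).1, hk'.2]))
  obtain ⟨k, hk, a2, -⟩ := sg_spec hev hc hA (ch (A, ε)).1
  exact ⟨⟨k, hk, a2 ▸ h3⟩, h4⟩

/-- the slices of all nodes -/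
theorem exists_slices (hS : S_Slice) (hev : ∀ x, Continuous fun k => ev k x)
    (hb : ∀ k h, |ev k h| ≤ ‖h‖) (hd : Dent ev) (h : DSg D ev) {N : Type} [Cd N]
    (B : N → MSet (D × ℚ)) [DF B] (d : N → ℚ) [DF d] (hB : ∀ n, (Hs D ev (B n)).Nonempty)
    (hd0 : ∀ n, 0 < d n) : ∃ (O : Type) (_ : Cd O) (S E : N → O → MSet (D × ℚ)) (a : N → O → ℝ),
      DF (fun p : N × O => S p.1 p.2) ∧ DF (fun p : N × O => E p.1 p.2) ∧
      DR (fun p : N × O => a p.1 p.2) ∧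
      (∀ n o, Ok ev (S n o) (d n) ∧ Hs D ev (S n o) ⊆ Hs D ev (B n)) ∧
      (∀ n o, (Hs D ev (E n o)).Nonempty ∧ Hs D ev (E n o) ⊆ Hs D ev (B n)) ∧
      ∀ n, (∀ x, ∃ o, sg ev (Hs D ev (S n o)) x = sg ev (Hs D ev (B n)) x ∧
        0 < sg ev (Hs D ev (S n o)) x - sg ev (Hs D ev (E n o)) x + a n o) ∧
        ∀ x δ, 0 < δ →
          {o | δ < sg ev (Hs D ev (S n o)) x - sg ev (Hs D ev (E n o)) x + a n o}.Finite := by
  classical
  obtain ⟨ch, h1, h2⟩ := exists_ch hev hb hd h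
  obtain ⟨O, _, _, _, hO, hH⟩ := exists_hartogs (D × ℚ)
  have := @DF.c2 _ _ _ _ _ _ _ ch h1
  have := @DF.c1 _ _ _ _ _ B _
  have := @DF.c1 _ _ _ _ _ d _
  have := @DP.c1 _ _ _ (fun A => (Hs D ev A).Nonempty) h.1
  obtain ⟨T, hT⟩ := rec_set (α := N × O × (D × ℚ)) (fun x y => x.2.1 < y.2.1)
    (InvImage.wf (fun x : N × O × (D × ℚ) => x.2.1) wellFounded_lt)
    (fun T x => x.2.2 ∈ B x.1 ∨ ∃ p, p < x.2.1 ∧
      x.2.2 = ch (MSet.mk fun η => (x.1, p, η) ∈ T) (d x.1)) fun T T' x hx =>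
        or_congr_right (exists_congr fun p => and_congr_right fun hp => by
          rw [MSet.ext (S := MSet.mk fun η => (x.1, p, η) ∈ T)
            (T := MSet.mk fun η => (x.1, p, η) ∈ T') fun η => hx (x.1, p, η) hp])
  obtain ⟨A, hA, hA'⟩ : ∃ A : N → O → MSet (D × ℚ), DF (fun p : N × O => A p.1 p.2) ∧
      ∀ n o η, η ∈ A n o ↔ η ∈ B n ∨ ∃ p, p < o ∧ η = ch (A n p) (d n) :=
    ⟨fun n o => MSet.mk fun η => (n, o, η) ∈ T, inferInstance, fun n o η => hT (n, o, η)⟩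
  have := @DF.c2 _ _ _ _ _ _ _ A hA
  let R : N → O → MSet (D × ℚ) := fun n o => ins (A n o) (ch (A n o) (d n))
  let S₀ : N → O → MSet (D × ℚ) := fun n o =>
    ins (A n o) (-(ch (A n o) (d n)).1, -(ch (A n o) (d n)).2)
  have hC : ∀ n o, Hs D ev (A n o) = Hs D ev (B n) ∩ ⋂ p : Iio o, Hs D ev (R n p.1) := by
    intro n o
    ext k
    simp only [mem_inter_iff, mem_iInter]
    constructor
    · refine fun hk => ⟨fun η hη => hk η ((hA' _ _ _).2 (Or.inl hη)), fun p η hη => hk η ?_⟩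
      rcases hη with hη | hη
      · exact (hA' _ _ _).2 (((hA' _ _ _).1 hη).imp_right fun ⟨q, h3, h4⟩ => ⟨q, h3.trans p.2, h4⟩)
      · exact (hA' _ _ _).2 (Or.inr ⟨p.1, p.2, hη⟩)
    · rintro ⟨h3, h4⟩ η hη
      rcases (hA' _ _ _).1 hη with hη | ⟨p, h5, h6⟩
      · exact h3 η hη
      · exact h4 ⟨p, h5⟩ η (Or.inr h6)
  have hsub : ∀ n o, Hs D ev (A n o) ⊆ Hs D ev (B n) := fun n o => hC n o ▸ inter_subset_left
  have hR : ∀ n o, Hs D ev (R n o) ⊆ Hs D ev (A n o) := fun n o k hk η hη => hk η (Or.inl hη)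
  have hS₀ : ∀ n o, Hs D ev (S₀ n o) ⊆ Hs D ev (A n o) := fun n o k hk η hη => hk η (Or.inl hη)
  have hem : ∀ n, ∃ o, Hs D ev (A n o) = ∅ := by
    intro n
    by_contra hc
    push Not at hc
    have a1 : ∀ o p, p < o → ch (A n o) (d n) ≠ ch (A n p) (d n) := fun o p hp e => by
      obtain ⟨k, hk, a2⟩ := (h2 _ _ (hc o) (hd0 n)).1
      exact absurd (hk _ ((hA' _ _ _).2 (Or.inr ⟨p, hp, e⟩))) (not_le.2 a2)
    refine hH (fun o => ch (A n o) (d n)) inferInstance fun o p e => ?_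
    rcases lt_trichotomy o p with h3 | h3 | h3
    exacts [absurd e.symm (a1 _ _ h3), h3, absurd e (a1 _ _ h3)]
  have hne : (univ : Set O).Nonempty := by
    by_contra hc
    have : IsEmpty O := ⟨fun o => hc ⟨o, trivial⟩⟩
    exact hH (fun _ => (0, 0)) inferInstance fun o => isEmptyElim o
  obtain ⟨o₀, -, h0⟩ := (wellFounded_lt (α := O)).has_min univ hne
  have h3 : ∀ n, (Hs D ev (A n o₀)).Nonempty := fun n => (hB n).mono fun k hk => by
    rw [hC]
    exact ⟨hk, mem_iInter.2 fun p => absurd p.2 (h0 p.1 trivial)⟩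
  let S : N → O → MSet (D × ℚ) := fun n o =>
    if (Hs D ev (A n o)).Nonempty then S₀ n o else S₀ n o₀
  let E : N → O → MSet (D × ℚ) := fun n o =>
    if (Hs D ev (R n o)).Nonempty then R n o else S n o
  have h4 : ∀ n o, Ok ev (S n o) (d n) ∧ Hs D ev (S n o) ⊆ Hs D ev (B n) := fun n o => by
    simp only [S]
    split_ifs with h4
    · exact ⟨(h2 _ _ h4 (hd0 n)).2, (hS₀ n o).trans (hsub n o)⟩
    · exact ⟨(h2 _ _ (h3 n) (hd0 n)).2, (hS₀ n o₀).trans (hsub n o₀)⟩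
  refine ⟨O, inferInstance, S, E, fun n o => if (Hs D ev (A n o)).Nonempty ∧
    ¬ (Hs D ev (R n o)).Nonempty then 1 else 0, ?_, ?_, ?_, h4, fun n o => ?_, fun n => ?_⟩
  · unfold S S₀; infer_instance
  · unfold E S S₀ R; infer_instance
  · unfold R; infer_instance
  · simp only [E]
    split_ifs with h5
    · exact ⟨h5, (hR n o).trans (hsub n o)⟩
    · exact ⟨(h4 n o).1.1, (h4 n o).2⟩
  · refine hS X K ev hev hb O _ (fun o => Hs D ev (A n o)) (fun o => Hs D ev (R n o))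
      (fun o => Hs D ev (S n o)) (fun o => Hs D ev (E n o)) _ (hs_closed hev _) (hB n) (hC n)
      (fun o => ⟨hs_closed hev _, hR n o⟩) (fun o => ⟨hs_closed hev _, (h4 n o).1.1, (h4 n o).2⟩)
      (fun o ho => ?_) (hem n) (fun o ho => ?_) fun o ho => ?_
    · simp only [S, if_pos ho]
      refine ⟨hS₀ n o, fun k hk => ?_⟩
      simp only [S₀, R, hs_ins]
      rcases le_total (ev k (ch (A n o) (d n)).1) (ch (A n o) (d n)).2 with h5 | h5
      · exact Or.inr ⟨hk, h5⟩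
      · exact Or.inl ⟨hk, by simpa using h5⟩
    · simp [E, ho]
    · have h5 : ¬ (Hs D ev (R n o)).Nonempty := not_nonempty_iff_eq_empty.2 ho
      refine ⟨by simp [E, h5], fun h6 => by simp [h5, h6], fun h6 => ?_⟩
      simp [h6]

end SysM

open SysM in
theorem sys : S_Sys := by
  intro hS X _ _ D _ _ K _ _ ev K₀ _ κ hN h
  have hev := hN.cont
  have hb := hN.le
  have := @DP.c2 _ _ _ _ _ (fun A d => Ok (D := D) ev A d) (dp_ok hev h)
  let N : Type := {p : MSet (D × ℚ) × ℚ // Ok ev p.1 p.2 ∧ 0 < p.2}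
  obtain ⟨O, _, S, E, a, h1, h2, h3, h4, h5, h6⟩ := exists_slices hS hev hb
    (dent_of_frag hev hb hN.frag) h (fun n : N => n.1.1) (fun n => n.1.2 / 4) (fun n => n.2.1.1)
    fun n => by linarith [n.2.2]
  have := @DF.c2 _ _ _ _ _ _ _ S h1
  have := @DF.c2 _ _ _ _ _ _ _ E h2
  have := @DR.c2 _ _ _ _ _ (fun A (x : D) => sg ev (Hs D ev A) x) h.2
  let s : Sys X :=
    { N := N
      d := fun n => n.1.2
      σ := fun n => sg ev (Hs D ev n.1.1)
      b := fun n => ev n.2.1.1.some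
      I := fun _ => ULift O
      S := fun n i => ⟨(S n i.down, n.1.2 / 4), (h4 n i.down).1, by linarith [n.2.2]⟩
      E := fun n i => ⟨(E n i.down, n.1.2), ⟨(h5 n i.down).1, fun k hk k' hk' =>
        n.2.1.2 k ((h5 n i.down).2 hk) k' ((h5 n i.down).2 hk')⟩, n.2.2⟩
      a := fun n i => a n i.down
      d0 := fun n => by exact_mod_cast n.2.2.le
      lip := fun n => sg_lip hev (hs_closed hev _) n.2.1.1 fun k hk =>
        n.2.1.2 k hk _ n.2.1.1.some_mem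
      dS := fun _ _ => by simp
      dE := fun _ _ => le_rfl
      bS := fun n i => n.2.1.2 _ ((h4 n i.down).2 (h4 n i.down).1.1.some_mem) _ n.2.1.1.some_mem
      bE := fun n i => n.2.1.2 _ ((h5 n i.down).2 (h5 n i.down).1.some_mem) _ n.2.1.1.some_mem
      le := fun n i => sg_mono hev (hs_closed hev _) (h4 n i.down).1.1 (hs_closed hev _)
        (h4 n i.down).2
      ex := fun n x => let ⟨o, ho⟩ := (h6 n).1 x; ⟨⟨o⟩, ho⟩
      fin := fun n x δ hδ => (Finite.preimage (f := ULift.down) ULift.down_injective.injOn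
        ((h6 n).2 x δ hδ)).subset fun _ h => h }
  have h7 : Hs D ev (MSet.mk fun _ => False) = univ := eq_univ_of_forall fun _ _ h => h.elim
  obtain ⟨k₀, -⟩ := hN.norming 0
  let n₀ : N := ⟨(MSet.mk fun _ => False, 2), ⟨⟨k₀, fun _ h => h.elim⟩, fun k _ k' _ x =>
    (abs_sub _ _).trans (by push_cast; linarith [hb k x, hb k' x])⟩, two_pos⟩
  refine ⟨s, inferInstanceAs (Cd N), O, inferInstance, fun _ => Equiv.ulift.symm, n₀,
    ⟨?_, ?_, h3, ?_⟩, fun x => ?_⟩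
  · exact DF.subMk (f := fun p : N × O => (S p.1 p.2, p.1.1.2 / 4))
  · exact DF.subMk (f := fun p : N × O => (E p.1 p.2, p.1.1.2))
  · exact inferInstanceAs (DR fun p : N × D => sg ev (Hs D ev p.1.1.1) p.2)
  · change sg ev (Hs D ev (MSet.mk fun _ => False)) x = ‖x‖
    rw [h7]
    apply le_antisymm
    · obtain ⟨k, -, h, -⟩ := sg_spec hev isClosed_univ ⟨k₀, trivial⟩ x
      exact h ▸ (le_abs_self _).trans (hb k x)
    · obtain ⟨k, hk⟩ := hN.norming x
      exact hk.trans (le_sg hev isClosed_univ (mem_univ k) x)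

end Pool.Agent.P.MP_f49e60_an.Md
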