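import Pool.Agent.P.MP_f49e60_an.M.St

/-! A long family of functionals that vanish eventually at every point. -/

set_option linter.unusedSectionVars false
set_option synthInstance.maxSize 100000

namespace Pool.Agent.P.MP_f49e60_an.Md

open Filter Topology Set Pool.Agent.P.MP_d06606_an

namespace VanAux

variable {I : Type} [LinearOrder I] [WellFoundedLT I]

/-- the code of the evaluation at a point -/
def ps (j : I) : K0 I := [(1, [some j], [[true]])]

theorem co_ps (j : I) (n : ℕ) : (ps j).co n = if n = 0 then 1 else 0 := by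
  cases n <;> simp [ps, K0.co]

theorem co_mem (j : I) : (ps j).co ∈ BL := fun N => by
  simp only [co_ps, ite_pow, one_pow, ne_eq, OfNat.ofNat_ne_zero, not_false_eq_true, zero_pow,
    Finset.sum_ite_eq']
  split_ifs <;> norm_num

theorem ev_ps (s : Sc I) (j : I) (γ : I × ℕ) :
    evE (s.kap (ps j)) (dl s.col γ) = ind (s.row j γ) := by
  have h1 : ∀ n, (s.kap (ps j)).1.1 n = if n = 0 then 1 else 0 := fun n => by
    simp only [Sc.kap, dif_pos (co_mem j), co_ps]
  rw [evE_apply, tsum_eq_single 0 fun n hn => by rw [h1, if_neg hn, zero_mul], h1, if_pos rfl,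
    one_mul, dl_apply, pow_zero, one_mul]
  congr 1
  have h2 : (List.ofFn fun i : Fin (4 ^ 0) => s.col γ (s.pt ([some j].getD i none))) =
      [s.row j γ] := by
    rw [List.ofFn_congr (show 4 ^ 0 = 1 from rfl)]
    simp [Sc.col_pt]
  simp only [val, Sc.kap, ps, List.getD_cons_zero, h2]
  simp

theorem dl_norm (s : Sc I) (γ : I × ℕ) : ‖dl s.col γ‖ ≤ 2 := by
  refine (pow_le_pow_iff_left₀ (norm_nonneg _) (by norm_num) two_ne_zero).1 ?_
  refine le_of_tendsto' (EE.hasSum (dl s.col γ)).tendsto_sum_nat fun M => ?_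
  simpa using dl_tail s.col γ 0 M

end VanAux

variable [W : World]

open VanAux in
theorem van : S_Van := by
  intro I _ _ _ hI s D _ _ hg
  obtain ⟨hD, hg⟩ := hg
  have := @DF.c1 _ _ _ _ _ (fun l => (⟨lc (Sp.gen s.col) l, hD l⟩ : D)) hg
  refine ⟨ps, fun j => ⟨lc (Sp.gen s.col) [(1, (j, 0))], hD _⟩, by unfold ps; infer_instance,
    inferInstance, fun j => ⟨?_, ?_⟩, fun x => ?_⟩
  · change ‖lc (Sp.gen s.col) [(1, (j, 0))]‖ ≤ 2
    simp only [lc, List.map_cons, List.map_nil, List.sum_cons, List.sum_nil, Rat.cast_one, one_smul,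
      add_zero]
    exact dl_norm s _
  · change Sp.ev s.col (s.kap (ps j)) (lc (Sp.gen s.col) [(1, (j, 0))]) = 1
    rw [Sp.ev_lc]
    simp [ev_ps, (Sc.row_true (γ := (j, 0))).2 (Sc.Mem.top (s := s) j 0), ind]
  obtain ⟨i₀⟩ := hI.ne
  obtain ⟨l, hl, h1⟩ := skolem (fun (n : ℕ) (l : List (ℚ × (I × ℕ))) =>
      ‖x - (⟨lc (Sp.gen s.col) l, hD l⟩ : D)‖ < 1 / ((n : ℝ) + 1)) fun n => by
    obtain ⟨l, hl⟩ := (Sp.dense_lc s.col).exists_dist_lt (x : Sp s.col)
      (Nat.one_div_pos_of_nat (α := ℝ) (n := n))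
    exact ⟨l, by rw [dist_eq_norm] at hl; exact hl⟩
  have := @DF.c1 _ _ _ _ _ l hl
  obtain ⟨δ, hδ⟩ := Ct.bdd fun p : ℕ × ℕ => ((l p.1)[p.2]?).elim i₀ fun q => q.2.1
  refine ⟨δ, fun j hj => ?_⟩
  have h2 : ∀ n, Sp.ev s.col (s.kap (ps j)) (lc (Sp.gen s.col) (l n)) = 0 := fun n => by
    rw [Sp.ev_lc]
    refine List.sum_eq_zero fun a ha => ?_
    obtain ⟨p, hp, rfl⟩ := List.mem_map.1 ha
    obtain ⟨i, hi⟩ := List.getElem?_of_mem hp
    have h3 := hδ (n, i)
    simp only [hi, Option.elim_some] at h3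
    have h4 : s.row j p.2 = false := by
      rw [← Bool.not_eq_true, Sc.row_true]
      exact fun h => absurd h.le (not_le.2 (h3.trans hj))
    rw [ev_ps, h4]
    simp [ind]
  refine abs_nonpos_iff.1 (ge_of_tendsto' tendsto_one_div_add_atTop_nhds_zero_nat fun n => ?_)
  rw [← sub_zero (Sp.ev _ _ _), ← h2 n, ← map_sub, Sp.ev_apply]
  exact (evE_le _ _).trans (h1 n).le

end Pool.Agent.P.MP_f49e60_an.Md
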